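import Mathlib
import Pool.Agent.Zk44.XO.Bad

/-!
# Stable ideals which vanish at the point of a computation
-/

set_option autoImplicit false

namespace Pool.Agent.Zk44.UP

open MvPolynomial
open Pool.Agent.R351 hiding tay tay_const
open Pool.Agent.Zk44.XO

/-- the point of the computation `G` at the number `y`; the exponents of the parameters are not
among the coordinates -/
noncomputable def pt {κ C : Type} [Field κ] [Field C] [Algebra κ C] {g : ℕ} (m : ℕ) (t : Fin g → C)
    (y : C) (G : ℕ → Polynomial C) (c : ℕ → Bool → κ) (e : ℕ → Bool → Option (Fin g) → ℕ)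
    (h : ℕ → Bool → ℕ → ℕ) : Idx 0 (m + 1) → C :=
  mkPt 0 (m + 1) y (Es (fun j => (bt1 t j).eval y) (fun l => (G l).eval y) c e h)
    (fun l => if l < m then ((G l).eval y)⁻¹ else 0) (fun l b => ((e l b none : ℕ) : C))
    (fun _ _ => 0) (fun _ _ o => o.elim0) (fun l b l' => ((h l b l' : ℕ) : C))

/-- **The curve through the point of a bad number.** -/
theorem bad_curve {κ C : Type} [Field κ] [Field C] [CharZero C] [Algebra κ C]
    {g m : ℕ} {t : Fin g → C} {y : C} (hy : y ≠ 0) {G : ℕ → Polynomial C} (c : ℕ → Bool → κ)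
    (e : ℕ → Bool → Option (Fin g) → ℕ) (h : ℕ → Bool → ℕ → ℕ)
    (hG : ∀ l < m + 1, G l = ∑ b, Es (bt1 t) G c e h l b)
    (hmin : ∀ l < m, (G l).eval y = 0 → G l = 0) (hne : G m ≠ 0)
    (I : Ideal (MvPolynomial (Idx 0 (m + 1)) C)) (hI : ∀ f ∈ I, DA (VAu C 0 (m + 1)) f ∈ I)
    (hI0 : ∀ f ∈ I, eval (pt m t y G c e h) f = 0) : G₀ C 0 m ∉ I := by
  classical
  intro hGI
  apply hne
  let Gv : ℕ → C := fun l => (G l).eval y
  let Bv : Option (Fin g) → C := fun j => (bt1 t j).eval y
  let Ev : ℕ → Bool → C := Es Bv Gv c e h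
  let Qv : ℕ → C := fun l => if l < m then (Gv l)⁻¹ else 0
  let a : ℕ → Bool → C := fun l b => ((e l b none : ℕ) : C)
  let hv : ℕ → Bool → ℕ → C := fun l b l' => ((h l b l' : ℕ) : C)
  -- the curve
  let Gt : ℕ → PowerSeries C := fun l => tay y (G l)
  let Bt : Option (Fin g) → PowerSeries C := fun j => tay y (bt1 t j)
  let c' : ℕ → Bool → C := fun l b => algebraMap κ C (c l b)
  let Et : ℕ → Bool → PowerSeries C := Es Bt Gt c' e h
  let Qt : ℕ → PowerSeries C := fun l => if l < m then (Gt l)⁻¹ else 0
  let ϑt : Option (Fin g) → PowerSeries C := fun j => j.elim 1 (fun _ => 0)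
  have hGt : ∀ l < m + 1, Gt l = ∑ b : Bool, Et l b := by
    intro l hl
    show tay y (G l) = _
    rw [hG l hl, map_sum]
    refine Finset.sum_congr rfl fun b _ => ?_
    exact Es_map (tay y : Polynomial C →ₐ[C] PowerSeries C).toRingHom (bt1 t) G c c' e h
      (fun l b r => by
        show tay y (c l b • r) = c' l b • tay y r
        rw [← map_smul, IsScalarTower.algebraMap_smul]) l b
  have hBt : ∀ j, LogD (dX y) (Bt j) (ϑt j) := by
    intro j
    rcases j with _ | o
    · show dX y (tay y (bt1 t none)) = tay y (bt1 t none) * 1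
      have e1 : bt1 t none = Polynomial.X := rfl
      rw [e1, tay_X, dX_apply, map_add, PowerSeries.derivative_X, PowerSeries.derivative_C, add_zero]
    · show dX y (tay y (bt1 t (some o))) = tay y (bt1 t (some o)) * 0
      have e1 : bt1 t (some o) = Polynomial.C (t o) := rfl
      rw [e1, tay_apply, Polynomial.taylor_C, Polynomial.coe_C, dX_C, mul_zero]
  have hcon : ∀ l, PowerSeries.constantCoeff (Gt l) = Gv l := fun l => tay_const y (G l)
  have hQt1 : ∀ l < m, Qt l * Gt l = 1 ∨ Gt l = 0 := by
    intro l hl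
    simp only [Qt]
    rw [if_pos hl]
    by_cases h1 : (G l).eval y = 0
    · right
      show tay y (G l) = 0
      rw [hmin l hl h1, map_zero]
    · left
      rw [mul_comm]
      exact PowerSeries.mul_inv_cancel _ (by rw [hcon]; exact h1)
  have hQt2 : ∀ l < m + 1, Qt l * Gt l = 1 ∨ Qt l = 0 := by
    intro l _
    by_cases hlm : l < m
    · rcases hQt1 l hlm with h1 | h1
      · exact Or.inl h1
      · right
        simp only [Qt]
        rw [if_pos hlm, h1, PowerSeries.inv_eq_zero, map_zero]
    · right
      simp only [Qt]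
      rw [if_neg hlm]
  let K : C →+* PowerSeries C := PowerSeries.C
  set xt := mkPt 0 (m + 1) (tay y Polynomial.X) Et Qt (fun l b => K (a l b)) (fun l b => K 0)
    (fun l b o => o.elim0) (fun l b l' => K (hv l b l')) with hxt
  have hVFt := VF_actual (g := 0) (m := m + 1) (dX y) (Y := tay y Polynomial.X) (s := 1) (E := Et)
    (Q := Qt) (G := Gt) (a := fun l b => K (a l b)) (w := fun l b => K 0)
    (u := fun l b o => o.elim0) (h := fun l b l' => K (hv l b l'))
    (β := fun l b => ∑ j, ((e l b j : ℕ) : PowerSeries C) * ϑt j)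
    (β' := ta xt)
    (by
      have := hBt none
      unfold LogD at this
      have e1 : Bt none = tay y Polynomial.X := rfl
      rw [e1] at this
      rw [this, one_mul]
      exact mul_one _)
    (fun l b => dX_C y _) (fun l b => dX_C y _) (fun l b o => o.elim0) (fun l b l' => dX_C y _) hGt
    (fun l hl b => by
      have h1 := logD_Es (dX y) (c := c') (e := e) (h := h) hBt b
        fun l' (hl' : l' < l) => hQt1 l' (by omega)
      rw [show Et l b = Es Bt Gt c' e h l b from rfl, h1]
      congr 2) hQt2 (fun l hl b => by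
      beta_reduce
      rw [hxt, ta_mk hl, Fintype.sum_option]
      simp only [ϑt, Option.elim, mul_one, mul_zero, Finset.sum_const_zero, add_zero, K, a]
      rw [map_natCast])
  have hfX : (fun i => (aeval xt : MvPolynomial (Idx 0 (m + 1)) C →ₐ[C] PowerSeries C).toRingHom
      (X i)) = xt := by
    funext i
    exact aeval_X _ _
  have hxt1 : ∀ i, dX y (xt i) = aeval xt (VAu C 0 (m + 1) i) := by
    intro i
    have h1 := eval_VAu (aeval xt : MvPolynomial (Idx 0 (m + 1)) C →ₐ[C] PowerSeries C).toRingHom i
    rw [hfX] at h1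
    exact (hVFt i).trans h1.symm
  have hxt2 : ∀ i, PowerSeries.constantCoeff (xt i) = pt m t y G c e h i := by
    intro i
    rw [hxt, mkPt_map]
    unfold pt
    have e1 : PowerSeries.constantCoeff (tay y Polynomial.X) = y := by
      rw [tay_const, Polynomial.eval_X]
    have e2 : (fun l b => PowerSeries.constantCoeff (Et l b)) = Ev := by
      funext l b
      have h1 := Es_map (PowerSeries.constantCoeff (R := C)) Bt Gt c' c e h (fun l b r => by
        show PowerSeries.constantCoeff (algebraMap κ C (c l b) • r) = _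
        rw [PowerSeries.smul_eq_C_mul, map_mul, PowerSeries.constantCoeff_C, Algebra.smul_def]) l b
      rw [show Et l b = Es Bt Gt c' e h l b from rfl, h1]
      have h2 : (fun j => PowerSeries.constantCoeff (Bt j)) = Bv := by
        funext j
        exact tay_const y _
      have h3 : (fun l => PowerSeries.constantCoeff (Gt l)) = Gv := by
        funext l
        exact hcon l
      rw [h2, h3]
    have e3 : (fun l => PowerSeries.constantCoeff (Qt l)) = Qv := by
      funext l
      simp only [Qt, Qv]
      split_ifs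
      · rw [PowerSeries.constantCoeff_inv, hcon]
      · exact map_zero _
    rw [e1, e2, e3]
    have e4 : (fun (l : ℕ) (b : Bool) (o : Fin 0) =>
        PowerSeries.constantCoeff ((o.elim0 : PowerSeries C))) = fun _ _ o => o.elim0 := by
      funext l b o
      exact o.elim0
    rw [e4]
    congr 1
  have h5 := ideal_curve hy hxt1 hxt2 hI hI0 _ hGI
  have h6 := map_G₀ (aeval xt : MvPolynomial (Idx 0 (m + 1)) C →ₐ[C] PowerSeries C).toRingHom
  rw [hfX] at h6
  have h7 : Gt m = 0 := by
    rw [hGt m (Nat.lt_succ_self m), ← h5]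
    refine Eq.trans ?_ h6.symm
    refine Finset.sum_congr rfl fun b _ => ?_
    rw [hxt, tE_mk (Nat.lt_succ_self m)]
  exact tay_inj y h7

end Pool.Agent.Zk44.UP
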