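import Mathlib

/-!
# Functionals on the derivations of an extension and the connection which is given by a derivation
-/

set_option autoImplicit false

namespace Pool.Agent.Zk44.UP

section Const

variable {K : Type} [Field K] (Δ : Derivation ℤ K K)

/-- the constants -/
def constF : Subfield K where
  carrier := {r | Δ r = 0}
  mul_mem' := by
    intro a b ha hb
    have ha' : Δ a = 0 := ha
    have hb' : Δ b = 0 := hb
    show Δ (a * b) = 0
    rw [Derivation.leibniz, ha', hb', smul_zero, smul_zero, add_zero]
  one_mem' := Derivation.map_one_eq_zero Δ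
  add_mem' := by
    intro a b ha hb
    have ha' : Δ a = 0 := ha
    have hb' : Δ b = 0 := hb
    show Δ (a + b) = 0
    rw [map_add, ha', hb', add_zero]
  zero_mem' := map_zero Δ
  neg_mem' := by
    intro a ha
    have ha' : Δ a = 0 := ha
    show Δ (-a) = 0
    rw [map_neg, ha', neg_zero]
  inv_mem' := by
    intro a ha
    have ha' : Δ a = 0 := ha
    show Δ a⁻¹ = 0
    rw [Derivation.leibniz_inv, ha', smul_zero]

theorem mem_constF {r : K} : r ∈ constF Δ ↔ Δ r = 0 := Iff.rfl

/-- the derivation is linear over the constants -/
def derK : Derivation (constF Δ) K K :=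
  Derivation.mk'
    { toFun := Δ
      map_add' := Δ.map_add
      map_smul' := by
        intro c r
        have hc : Δ (c : K) = 0 := c.2
        rw [RingHom.id_apply, Algebra.smul_def, Algebra.smul_def, Derivation.leibniz]
        show (c : K) • Δ r + r • Δ (c : K) = (c : K) * Δ r
        rw [hc, smul_zero, add_zero, smul_eq_mul] }
    (fun a b => Δ.leibniz a b)

theorem derK_apply (r : K) : derK Δ r = Δ r := rfl

theorem derK_const (r : K) (h : derK Δ r = 0) : ∃ a : constF Δ, algebraMap (constF Δ) K a = r :=
  ⟨⟨r, h⟩, rfl⟩

end Const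

section Forms

variable {C K : Type} [Field C] [Field K] [Algebra C K] (Δ : Derivation ℤ K K)
  (hC : ∀ c : C, ∃ c' : C, Δ (algebraMap C K c) = algebraMap C K c')

include hC in
/-- the commutator -/
def comm (D : Derivation C K K) : Derivation C K K :=
  Derivation.mk'
    { toFun := fun r => Δ (D r) - D (Δ r)
      map_add' := by
        intro a b
        rw [map_add, map_add, map_add, map_add]
        ring
      map_smul' := by
        intro c r
        obtain ⟨c', hc'⟩ := hC c
        have h1 : D (Δ (algebraMap C K c)) = 0 := by rw [hc', D.map_algebraMap]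
        have h2 : D (algebraMap C K c) = 0 := D.map_algebraMap c
        rw [RingHom.id_apply, D.map_smul, Algebra.smul_def, Algebra.smul_def, Algebra.smul_def,
          Derivation.leibniz, Derivation.leibniz, map_add, smul_eq_mul, smul_eq_mul, smul_eq_mul,
          smul_eq_mul, Derivation.leibniz, Derivation.leibniz, h1, h2]
        simp only [smul_eq_mul]
        ring }
    (fun a b => by
      show Δ (D (a * b)) - D (Δ (a * b)) = a • (Δ (D b) - D (Δ b)) + b • (Δ (D a) - D (Δ a))
      rw [D.leibniz, Δ.leibniz]
      simp only [smul_eq_mul, map_add, Derivation.leibniz]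
      ring)

theorem comm_apply (D : Derivation C K K) (r : K) : comm Δ hC D r = Δ (D r) - D (Δ r) := rfl

/-- the connection -/
def nb : (Derivation C K K → K) →ₗ[constF Δ] (Derivation C K K → K) where
  toFun := fun ω D => Δ (ω D) - ω (comm Δ hC D)
  map_add' := by
    intro a b
    funext D
    simp only [Pi.add_apply, map_add]
    ring
  map_smul' := by
    intro c ω
    funext D
    have hc : Δ (c : K) = 0 := c.2
    simp only [Pi.smul_apply, RingHom.id_apply]
    rw [Algebra.smul_def, Algebra.smul_def, Algebra.smul_def, Derivation.leibniz]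
    show (c : K) • Δ (ω D) + ω D • Δ (c : K) - (c : K) * ω (comm Δ hC D) =
      (c : K) * (Δ (ω D) - ω (comm Δ hC D))
    rw [hc, smul_zero, add_zero, smul_eq_mul]
    ring

theorem nb_apply (ω : Derivation C K K → K) (D : Derivation C K K) :
    nb Δ hC ω D = Δ (ω D) - ω (comm Δ hC D) := rfl

theorem nb_smul (r : K) (ω : Derivation C K K → K) :
    nb Δ hC (r • ω) = derK Δ r • ω + r • nb Δ hC ω := by
  funext D
  simp only [nb_apply, Pi.smul_apply, Pi.add_apply, derK_apply, smul_eq_mul, Derivation.leibniz]
  ring

/-- the differential -/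
def dd (C : Type) {K : Type} [Field C] [Field K] [Algebra C K] (r : K) : Derivation C K K → K :=
  fun D => D r

theorem dd_apply (r : K) (D : Derivation C K K) : dd C r D = D r := rfl

theorem nb_dd (r : K) : nb Δ hC (dd C r) = dd C (Δ r) := by
  funext D
  rw [nb_apply, dd_apply, dd_apply, dd_apply, comm_apply]
  ring

theorem dd_add (a b : K) : dd C (a + b) = dd C a + dd C b := by
  funext D
  simp [dd_apply]

theorem dd_sum {ι : Type*} (s : Finset ι) (f : ι → K) : dd C (∑ i ∈ s, f i) = ∑ i ∈ s, dd C (f i) := by
  funext D
  simp [dd_apply, Finset.sum_apply]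

theorem dd_mul (a b : K) : dd C (a * b) = a • dd C b + b • dd C a := by
  funext D
  simp [dd_apply]

theorem dd_algebraMap (c : C) : dd C (algebraMap C K c) = 0 := by
  funext D
  exact D.map_algebraMap c

theorem nb_const {r : K} (h : Δ r = 0) : nb Δ hC (dd C r) = 0 := by
  rw [nb_dd, h]
  funext D
  simp [dd_apply]

/-- the logarithmic differential -/
def lam (C : Type) {K : Type} [Field C] [Field K] [Algebra C K] (y : K) : Derivation C K K → K :=
  y⁻¹ • dd C y

theorem lam_apply (y : K) (D : Derivation C K K) : lam C y D = y⁻¹ * D y := rfl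

theorem nb_lam (y : K) : nb Δ hC (lam C y) = dd C (Δ y / y) := by
  unfold lam
  rw [nb_smul, nb_dd, derK_apply]
  funext D
  simp only [Pi.add_apply, Pi.smul_apply, dd_apply, smul_eq_mul]
  rw [Derivation.leibniz_inv, Derivation.leibniz_div]
  by_cases hy : y = 0
  · rw [hy]
    simp
  · simp only [smul_eq_mul]
    field_simp
    ring

end Forms

end Pool.Agent.Zk44.UP
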