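import Mathlib
import Pool.Agent.R351.Der
import Pool.Agent.Zk44.UP.Forms

/-!
# Ultraproducts of a differential field
-/

set_option autoImplicit false

namespace Pool.Agent.Zk44.UP

open Filter MvPolynomial

section Basic

variable {ι C : Type} [Field C] (𝒰 : Ultrafilter ι)

/-- the ultraproduct -/
abbrev UK (𝒰 : Ultrafilter ι) (C : Type) : Type := (𝒰 : Filter ι).Germ C

/-- the class of a function -/
noncomputable def cl : (ι → C) →+* UK 𝒰 C := Filter.Germ.coeRingHom _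

theorem cl_eq_iff {f g : ι → C} : cl 𝒰 f = cl 𝒰 g ↔ ∀ᶠ i in 𝒰, f i = g i := Filter.Germ.coe_eq

theorem cl_surj (r : UK 𝒰 C) : ∃ f : ι → C, cl 𝒰 f = r := by
  induction r using Filter.Germ.inductionOn with
  | h f => exact ⟨f, rfl⟩

theorem cl_inv (f : ι → C) : cl 𝒰 (fun i => (f i)⁻¹) = (cl 𝒰 f)⁻¹ := rfl

theorem cl_div (f g : ι → C) : cl 𝒰 (fun i => f i / g i) = cl 𝒰 f / cl 𝒰 g := rfl

noncomputable instance instAlgU : Algebra C (UK 𝒰 C) where
  algebraMap := (cl 𝒰).comp (Pi.constRingHom ι C)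
  commutes' := fun _ _ => mul_comm _ _
  smul_def' := by
    intro c r
    obtain ⟨f, rfl⟩ := cl_surj 𝒰 r
    rfl

theorem algebraMap_eq (c : C) : algebraMap C (UK 𝒰 C) c = cl 𝒰 (fun _ => c) := rfl

theorem aeval_cl {σ : Type} (x : σ → ι → C) (f : MvPolynomial σ C) :
    aeval (fun j => cl 𝒰 (x j)) f = cl 𝒰 (fun i => eval (fun j => x j i) f) := by
  induction f using MvPolynomial.induction_on with
  | C a =>
    rw [aeval_C, algebraMap_eq]
    congr 1
    funext i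
    rw [eval_C]
  | add p q hp hq =>
    rw [map_add, hp, hq, ← map_add]
    congr 1
    funext i
    rw [Pi.add_apply, map_add]
  | mul_X p j hp =>
    rw [map_mul, hp, aeval_X, ← map_mul]
    congr 1
    funext i
    rw [Pi.mul_apply, map_mul, eval_X]

theorem aeval_cl_eq_zero {σ : Type} (x : σ → ι → C) (f : MvPolynomial σ C) :
    aeval (fun j => cl 𝒰 (x j)) f = 0 ↔ ∀ᶠ i in 𝒰, eval (fun j => x j i) f = 0 := by
  rw [aeval_cl, ← map_zero (cl 𝒰), cl_eq_iff]
  rfl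

/-- the derivation -/
noncomputable def dU (Δ : Derivation ℤ C C) : Derivation ℤ (UK 𝒰 C) (UK 𝒰 C) :=
  Derivation.mk'
    (AddMonoidHom.toIntLinearMap
      { toFun := fun r => Filter.Germ.map Δ r
        map_zero' := by
          show cl 𝒰 (fun _ => Δ 0) = 0
          rw [map_zero]
          exact map_zero (cl 𝒰)
        map_add' := by
          intro a b
          obtain ⟨f, rfl⟩ := cl_surj 𝒰 a
          obtain ⟨g, rfl⟩ := cl_surj 𝒰 b
          rw [← map_add]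
          show cl 𝒰 (fun i => Δ (f i + g i)) = cl 𝒰 (fun i => Δ (f i)) + cl 𝒰 (fun i => Δ (g i))
          rw [← map_add]
          congr 1
          funext i
          exact map_add Δ _ _ })
    (by
      intro a b
      obtain ⟨f, rfl⟩ := cl_surj 𝒰 a
      obtain ⟨g, rfl⟩ := cl_surj 𝒰 b
      show cl 𝒰 (fun i => Δ (f i * g i)) = cl 𝒰 f * cl 𝒰 (fun i => Δ (g i)) +
        cl 𝒰 g * cl 𝒰 (fun i => Δ (f i))
      rw [← map_mul, ← map_mul, ← map_add]
      congr 1
      funext i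
      exact Δ.leibniz _ _)

theorem dU_cl (Δ : Derivation ℤ C C) (f : ι → C) : dU 𝒰 Δ (cl 𝒰 f) = cl 𝒰 (fun i => Δ (f i)) := rfl

theorem dU_algebraMap (Δ : Derivation ℤ C C) (c : C) :
    dU 𝒰 Δ (algebraMap C (UK 𝒰 C) c) = algebraMap C (UK 𝒰 C) (Δ c) := rfl

theorem dU_const (Δ : Derivation ℤ C C) (c : C) :
    ∃ c' : C, dU 𝒰 Δ (algebraMap C (UK 𝒰 C) c) = algebraMap C (UK 𝒰 C) c' := ⟨Δ c, rfl⟩

theorem dU_eq_zero (Δ : Derivation ℤ C C) (f : ι → C) :
    dU 𝒰 Δ (cl 𝒰 f) = 0 ↔ ∀ᶠ i in 𝒰, Δ (f i) = 0 := by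
  rw [dU_cl, ← map_zero (cl 𝒰), cl_eq_iff]
  rfl

end Basic

section Generic

variable {C : Type} [Field C]

/-- an ultrafilter at which no polynomial vanishes -/
theorem exists_ultrafilter {N : ℕ} (S : Set (Fin N → C))
    (hS : ∀ f : MvPolynomial (Fin N) C, f ≠ 0 → ∃ b ∈ S, eval b f ≠ 0) :
    ∃ 𝒰 : Ultrafilter S, ∀ f : MvPolynomial (Fin N) C, f ≠ 0 →
      ∀ᶠ b : S in 𝒰, eval (b : Fin N → C) f ≠ 0 := by
  classical
  let J : Type := {f : MvPolynomial (Fin N) C // f ≠ 0}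
  have hJ : Nonempty J := ⟨⟨1, one_ne_zero⟩⟩
  let F : Filter S := ⨅ f : J, 𝓟 {b : S | eval (b : Fin N → C) f.1 ≠ 0}
  have hF : F.NeBot := by
    refine Filter.iInf_neBot_of_directed' ?_ ?_
    · intro f g
      refine ⟨⟨f.1 * g.1, mul_ne_zero f.2 g.2⟩, ?_, ?_⟩
      · refine Filter.principal_mono.2 ?_
        intro b hb
        have hb' : eval (b : Fin N → C) (f.1 * g.1) ≠ 0 := hb
        rw [map_mul] at hb'
        exact left_ne_zero_of_mul hb'
      · refine Filter.principal_mono.2 ?_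
        intro b hb
        have hb' : eval (b : Fin N → C) (f.1 * g.1) ≠ 0 := hb
        rw [map_mul] at hb'
        exact right_ne_zero_of_mul hb'
    · intro f
      rw [Filter.principal_neBot_iff]
      obtain ⟨b, hb, hf⟩ := hS f.1 f.2
      exact ⟨⟨b, hb⟩, hf⟩
  refine ⟨Ultrafilter.of F, fun f hf => ?_⟩
  have h1 : {b : S | eval (b : Fin N → C) f ≠ 0} ∈ F :=
    Filter.mem_iInf_of_mem (⟨f, hf⟩ : J) (Filter.mem_principal_self _)
  exact Ultrafilter.of_le F h1

/-- the derivations with respect to the coordinates -/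
theorem exists_partial {N : ℕ} [CharZero C] {S : Set (Fin N → C)} (𝒰 : Ultrafilter S)
    (h𝒰 : ∀ f : MvPolynomial (Fin N) C, f ≠ 0 → ∀ᶠ b : S in 𝒰, eval (b : Fin N → C) f ≠ 0)
    (v : Fin N → UK 𝒰 C) :
    ∃ D : Derivation C (UK 𝒰 C) (UK 𝒰 C), ∀ i, D (cl 𝒰 (fun b : S => (b : Fin N → C) i)) = v i := by
  have hch : CharZero (UK 𝒰 C) := charZero_of_injective_algebraMap (algebraMap C _).injective
  refine Pool.Agent.R351.exists_der_values _ ?_ v
  rw [algebraicIndependent_iff]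
  intro f hf
  by_contra hne
  have h1 := (aeval_cl_eq_zero 𝒰 (fun j (b : S) => (b : Fin N → C) j) f).1 hf
  obtain ⟨b, hb1, hb2⟩ := (h1.and (h𝒰 f hne)).exists
  exact hb2 hb1

end Generic

end Pool.Agent.Zk44.UP
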