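import Mathlib
import Pool.Agent.Zk44.UP.Ultra

/-!
# Transfer to the ultraproduct
-/

set_option autoImplicit false

namespace Pool.Agent.Zk44.UP

open Filter MvPolynomial

/-- the combinations of logarithmic derivatives with constant coefficients -/
def Th {K : Type} [Field K] (Δ : Derivation ℤ K K) : Submodule (constF Δ) K :=
  Submodule.span (constF Δ) (Set.range fun y : K => Δ y / y)

theorem div_mem_Th {K : Type} [Field K] (Δ : Derivation ℤ K K) (y : K) : Δ y / y ∈ Th Δ :=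
  Submodule.subset_span ⟨y, rfl⟩

section

variable {ι C : Type} [Field C] (𝒰 : Ultrafilter ι) (Δ : Derivation ℤ C C)

theorem transfer_P (hP : ∀ (n : ℕ) (c y : Fin n → C) (r : C), (∀ j, Δ (c j) = 0) →
      Δ r = ∑ j, c j * (Δ (y j) / y j) → Δ r = 0) (r : UK 𝒰 C)
    (h : derK (dU 𝒰 Δ) r ∈ Th (dU 𝒰 Δ)) : derK (dU 𝒰 Δ) r = 0 := by
  unfold Th at h
  obtain ⟨n, c, y, h⟩ := Submodule.mem_span_set'.1 h
  choose y' hy' using fun j => (y j).2
  choose f hf using fun j => cl_surj 𝒰 (y' j)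
  choose e he using fun j => cl_surj 𝒰 (c j : UK 𝒰 C)
  obtain ⟨s, rfl⟩ := cl_surj 𝒰 r
  have h1 : ∀ᶠ i in 𝒰, ∀ j, Δ (e j i) = 0 := by
    rw [Filter.eventually_all]
    intro j
    rw [← dU_eq_zero, he]
    exact (c j).2
  have h2 : ∀ᶠ i in 𝒰, ∑ j, e j i * (Δ (f j i) / f j i) = Δ (s i) := by
    have h3 : cl 𝒰 (fun i => ∑ j, e j i * (Δ (f j i) / f j i)) = cl 𝒰 (fun i => Δ (s i)) := by
      have h4 : (fun i => ∑ j, e j i * (Δ (f j i) / f j i)) =
          ∑ j, (e j) * (fun i => Δ (f j i) / f j i) := by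
        funext i
        rw [Finset.sum_apply]
        rfl
      rw [h4, map_sum]
      refine Eq.trans (Finset.sum_congr rfl fun j _ => ?_) h
      rw [map_mul, cl_div, ← dU_cl, hf, he, ← hy' j, Algebra.smul_def]
      rfl
    exact (cl_eq_iff 𝒰).1 h3
  rw [derK_apply, dU_eq_zero]
  filter_upwards [h1, h2] with i k1 k2
  exact hP n (fun j => e j i) (fun j => f j i) (s i) k1 k2.symm

theorem transfer_indep {N : ℕ} (x l : Fin N → C)
    (hx : ∀ v : Fin N → C, (∀ i, Δ (v i) = 0) → ∑ i, v i * x i = 0 → ∑ i, v i * l i = 0 → v = 0)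
    (v : Fin N → constF (dU 𝒰 Δ)) (h1 : ∑ i, v i • algebraMap C (UK 𝒰 C) (x i) = 0)
    (h2 : ∑ i, v i • algebraMap C (UK 𝒰 C) (l i) = 0) : v = 0 := by
  choose f hf using fun i => cl_surj 𝒰 (v i : UK 𝒰 C)
  have key : ∀ x : Fin N → C, ∑ i, v i • algebraMap C (UK 𝒰 C) (x i) = 0 →
      ∀ᶠ β in 𝒰, ∑ i, f i β * x i = 0 := by
    intro x hx
    have h3 : cl 𝒰 (fun β => ∑ i, f i β * x i) = cl 𝒰 (fun _ => 0) := by
      have h4 : (fun β => ∑ i, f i β * x i) = ∑ i, f i * (fun _ => x i) := by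
        funext β
        rw [Finset.sum_apply]
        rfl
      have h5 : cl 𝒰 (fun _ => (0 : C)) = 0 := map_zero (cl 𝒰)
      rw [h4, map_sum, h5, ← hx]
      refine Finset.sum_congr rfl fun i _ => ?_
      rw [map_mul, hf, Algebra.smul_def]
      rfl
    exact (cl_eq_iff 𝒰).1 h3
  have k0 : ∀ᶠ β in 𝒰, ∀ i, Δ (f i β) = 0 := by
    rw [Filter.eventually_all]
    intro i
    rw [← dU_eq_zero, hf]
    exact (v i).2
  have k3 : ∀ᶠ β in 𝒰, ∀ i, f i β = 0 := by
    filter_upwards [k0, key x h1, key l h2] with β a1 a2 a3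
    intro i
    exact congrFun (hx (fun i => f i β) a1 a2 a3) i
  funext i
  apply Subtype.ext
  show (v i : UK 𝒰 C) = 0
  rw [← hf, ← map_zero (cl 𝒰), cl_eq_iff]
  filter_upwards [k3] with β h
  exact h i

end

end Pool.Agent.Zk44.UP
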