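import Mathlib
import Pool.Agent.Zk44.UP.Curve
import Pool.Agent.Zk44.UP.Transfer

/-!
# The point of a family of computations in the ultraproduct
-/

set_option autoImplicit false

namespace Pool.Agent.Zk44.UP

open MvPolynomial Filter
open Pool.Agent.R351 hiding tay tay_const
open Pool.Agent.Zk44.XO

/-- a family of computations with the parameters `T i` which vanish at the numbers `y i` for the first
time at the step `m` -/
structure Fam (κ C ι : Type) [Field κ] [Field C] [Algebra κ C] (m : ℕ) where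
  gg : ι → ℕ
  T : (i : ι) → Fin (gg i) → C
  y : ι → C
  G : ι → ℕ → Polynomial C
  c : ι → ℕ → Bool → κ
  e : (i : ι) → ℕ → Bool → Option (Fin (gg i)) → ℕ
  h : ι → ℕ → Bool → ℕ → ℕ
  hy : ∀ i, y i ≠ 0
  hG : ∀ i, ∀ l < m + 1, G i l = ∑ b, Es (bt1 (T i)) (G i) (c i) (e i) (h i) l b
  hmin : ∀ i, ∀ l < m, (G i l).eval (y i) = 0 → G i l = 0
  h0 : ∀ i, (G i m).eval (y i) = 0
  hne : ∀ i, G i m ≠ 0

section

variable {κ C ι : Type} [Field κ] [Field C] [CharZero C] [Algebra κ C] {m : ℕ}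
  (F : Fam κ C ι m) (𝒰 : Ultrafilter ι)

noncomputable def Fam.z : UK 𝒰 C := cl 𝒰 F.y

noncomputable def Fam.E (l : ℕ) (b : Bool) : UK 𝒰 C :=
  cl 𝒰 (fun i => Es (fun j => (bt1 (F.T i) j).eval (F.y i)) (fun l => (F.G i l).eval (F.y i)) (F.c i)
    (F.e i) (F.h i) l b)

noncomputable def Fam.GG (l : ℕ) : UK 𝒰 C := cl 𝒰 (fun i => (F.G i l).eval (F.y i))

noncomputable def Fam.A (l : ℕ) (b : Bool) : UK 𝒰 C :=
  if l < m + 1 then cl 𝒰 (fun i => ((F.e i l b none : ℕ) : C)) else 0

noncomputable def Fam.H (l : ℕ) (b : Bool) (l' : ℕ) : UK 𝒰 C :=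
  if l' < l ∧ l < m + 1 then cl 𝒰 (fun i => ((F.h i l b l' : ℕ) : C)) else 0

noncomputable def Fam.Q (l : ℕ) : UK 𝒰 C := if l < m then (F.GG 𝒰 l)⁻¹ else 0

noncomputable def Fam.x : Idx 0 (m + 1) → UK 𝒰 C :=
  mkPt 0 (m + 1) (F.z 𝒰) (F.E 𝒰) (F.Q 𝒰) (F.A 𝒰) (fun _ _ => 0) (fun _ _ o => o.elim0) (F.H 𝒰)

omit [CharZero C] in
theorem Fam.z_ne : F.z 𝒰 ≠ 0 := by
  intro h0
  unfold Fam.z at h0
  rw [← map_zero (cl 𝒰), cl_eq_iff] at h0
  obtain ⟨i, hi⟩ := h0.exists
  exact F.hy i hi

omit [CharZero C] in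
theorem Fam.x_eq (j : Idx 0 (m + 1)) : F.x 𝒰 j =
    cl 𝒰 (fun i => pt m (F.T i) (F.y i) (F.G i) (F.c i) (F.e i) (F.h i) j) := by
  rcases j with _ | ⟨i, j⟩ | ⟨l, b, k | o⟩
  · rfl
  · unfold Fam.x pt
    simp only [mkPt]
    by_cases hij : i = j
    · subst hij
      simp only [if_true]
      unfold Fam.Q
      by_cases hm : (i : ℕ) < m
      · simp only [if_pos hm]
        rfl
      · simp only [if_neg hm]
        exact (map_zero (cl 𝒰)).symm
    · simp only [if_neg hij]
      by_cases hlt : j < i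
      · simp only [if_pos hlt]
        unfold Fam.H
        rw [if_pos ⟨hlt, i.2⟩]
      · simp only [if_neg hlt]
        unfold Fam.H
        rw [if_pos ⟨by
          have h1 : ¬ ((j : ℕ) < i) := hlt
          have h2 : (i : ℕ) ≠ j := fun h => hij (Fin.ext h)
          omega, j.2⟩]
  · unfold Fam.x pt
    simp only [mkPt]
    by_cases hk : k = 0
    · simp only [if_pos hk]
      rfl
    · simp only [if_neg hk]
      by_cases hk1 : k = 1
      · simp only [if_pos hk1]
        unfold Fam.A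
        rw [if_pos l.2]
      · simp only [if_neg hk1]
        exact (map_zero (cl 𝒰)).symm
  · exact o.elim0

omit [CharZero C] in
theorem Fam.GG_eq {l : ℕ} (hl : l < m + 1) : F.GG 𝒰 l = ∑ b : Bool, F.E 𝒰 l b := by
  unfold Fam.GG Fam.E
  rw [← map_sum]
  congr 1
  funext i
  rw [Finset.sum_apply, F.hG i l hl, Polynomial.eval_finsetSum]
  refine Finset.sum_congr rfl fun b _ => ?_
  have h1 := Es_map (Polynomial.evalRingHom (F.y i)) (bt1 (F.T i)) (F.G i) (F.c i) (F.c i) (F.e i) (F.h i)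
    (fun l b r => by
      rw [Polynomial.coe_evalRingHom, Polynomial.eval_smul]) l b
  exact h1

omit [CharZero C] in
theorem Fam.GG_last : F.GG 𝒰 m = 0 := by
  unfold Fam.GG
  have h1 : (fun i => (F.G i m).eval (F.y i)) = fun _ => 0 := by
    funext i
    exact F.h0 i
  rw [h1]
  exact map_zero (cl 𝒰)

omit [CharZero C] in
theorem Fam.aeval_G₀ : aeval (F.x 𝒰) (G₀ C 0 m) = 0 := by
  have h6 := map_G₀ (aeval (F.x 𝒰) : MvPolynomial (Idx 0 (m + 1)) C →ₐ[C] UK 𝒰 C).toRingHom
  have hfX : (fun i => (aeval (F.x 𝒰) : MvPolynomial (Idx 0 (m + 1)) C →ₐ[C] UK 𝒰 C).toRingHom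
      (X i)) = F.x 𝒰 := by
    funext i
    exact aeval_X _ _
  rw [hfX] at h6
  refine Eq.trans h6 ?_
  rw [← F.GG_last 𝒰, F.GG_eq 𝒰 (Nat.lt_succ_self m)]
  refine Finset.sum_congr rfl fun b _ => ?_
  unfold Fam.x
  rw [tE_mk (Nat.lt_succ_self m)]

end

section Chain

variable {C K σ : Type} [Field C] [Field K] [Algebra C K] [Fintype σ]

theorem chain_K (D : Derivation C K K) (x : σ → K) (f : MvPolynomial σ C) :
    D (aeval x f) = ∑ i, aeval x (pderiv i f) * D (x i) := by
  classical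
  induction f using MvPolynomial.induction_on with
  | C a => simp
  | add p q hp hq =>
    rw [map_add, map_add, hp, hq, ← Finset.sum_add_distrib]
    refine Finset.sum_congr rfl fun i _ => ?_
    rw [map_add, map_add, add_mul]
  | mul_X p j hp =>
    have e1 : aeval x (p * X j) = aeval x p * x j := by rw [map_mul, aeval_X]
    rw [e1, Derivation.leibniz, hp]
    have h1 : ∀ i, aeval x (pderiv i (p * X j)) * D (x i) =
        x j * (aeval x (pderiv i p) * D (x i)) + if i = j then aeval x p * D (x j) else 0 := by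
      intro i
      rw [Derivation.leibniz, map_add, smul_eq_mul, smul_eq_mul, map_mul, map_mul, aeval_X,
        pderiv_X]
      by_cases h : i = j
      · subst h
        simp
        ring
      · simp [h, Ne.symm h]
        ring
    simp only [h1]
    rw [Finset.sum_add_distrib, ← Finset.mul_sum, Finset.sum_ite_eq' Finset.univ j]
    simp only [Finset.mem_univ, if_true, smul_eq_mul]
    ring

theorem DA_mul (VA : σ → MvPolynomial σ C) (f p : MvPolynomial σ C) :
    DA VA (f * p) = DA VA f * p + f * DA VA p := by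
  unfold DA
  rw [Finset.sum_mul, Finset.mul_sum, ← Finset.sum_add_distrib]
  refine Finset.sum_congr rfl fun i _ => ?_
  rw [Derivation.leibniz, smul_eq_mul, smul_eq_mul]
  ring

theorem DA_add (VA : σ → MvPolynomial σ C) (f p : MvPolynomial σ C) :
    DA VA (f + p) = DA VA f + DA VA p := by
  unfold DA
  rw [← Finset.sum_add_distrib]
  refine Finset.sum_congr rfl fun i _ => ?_
  rw [map_add, add_mul]

/-- The ideal of all derivatives is generated by finitely many of them. -/
theorem exists_stable (VA : σ → MvPolynomial σ C) (G : MvPolynomial σ C) :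
    ∃ n : ℕ, ∃ I : Ideal (MvPolynomial σ C), (∀ f ∈ I, DA VA f ∈ I) ∧ G ∈ I ∧
      I = Ideal.span ((fun k => (DA VA)^[k] G) '' {k : ℕ | k < n}) := by
  have hnoe : IsNoetherian (MvPolynomial σ C) (MvPolynomial σ C) := inferInstance
  let J : ℕ →o Submodule (MvPolynomial σ C) (MvPolynomial σ C) :=
    ⟨fun n => Ideal.span ((fun k => (DA VA)^[k] G) '' {k : ℕ | k < n}), fun a b hab =>
      Ideal.span_mono (Set.image_mono fun k (hk : k < a) => show k < b by omega)⟩
  obtain ⟨n, hn⟩ := monotone_stabilizes_iff_noetherian.2 hnoe J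
  have hall : ∀ k, (DA VA)^[k] G ∈ (J n : Ideal (MvPolynomial σ C)) := by
    intro k
    have h1 : (DA VA)^[k] G ∈ (J (n + (k + 1)) : Ideal (MvPolynomial σ C)) :=
      Ideal.subset_span ⟨k, show k < n + (k + 1) by omega, rfl⟩
    rw [← hn (n + (k + 1)) (by omega)] at h1
    exact h1
  refine ⟨n, J n, ?_, hall 0, rfl⟩
  intro f hf
  have hf' : f ∈ Ideal.span ((fun k => (DA VA)^[k] G) '' {k : ℕ | k < n}) := hf
  induction hf' using Submodule.span_induction with
  | mem f hf1 =>
    obtain ⟨k, _, rfl⟩ := hf1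
    have h2 := hall (k + 1)
    rw [Function.iterate_succ_apply'] at h2
    exact h2
  | zero =>
    have h3 : DA VA (0 : MvPolynomial σ C) = 0 := by
      unfold DA
      simp
    rw [h3]
    exact Submodule.zero_mem _
  | add a b ha hb iha ihb =>
    rw [DA_add]
    exact Submodule.add_mem _ (iha ha) (ihb hb)
  | smul r a ha iha =>
    rw [smul_eq_mul, DA_mul]
    exact Submodule.add_mem _ (Ideal.mul_mem_left _ _ ha) (Ideal.mul_mem_left _ _ (iha ha))

end Chain

end Pool.Agent.Zk44.UP
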