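import Mathlib
import Pool.Agent.Zk44.UP.Fam

/-!
# A derivation which kills the exponents moves no bad number
-/

set_option autoImplicit false

namespace Pool.Agent.Zk44.UP

open MvPolynomial Filter
open Pool.Agent.R351 hiding tay tay_const
open Pool.Agent.Zk44.XO

section

variable {κ C ι : Type} [Field κ] [Field C] [CharZero C] [Algebra κ C] {m : ℕ}
  (F : Fam κ C ι m) (𝒰 : Ultrafilter ι)

omit [CharZero C] in
theorem Fam.A_of_le {l : ℕ} (hl : ¬ l < m + 1) (b : Bool) : F.A 𝒰 l b = 0 := by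
  unfold Fam.A
  rw [if_neg hl]

omit [CharZero C] in
theorem Fam.H_of_not {l l' : ℕ} (hl : ¬ (l' < l ∧ l < m + 1)) (b : Bool) : F.H 𝒰 l b l' = 0 := by
  unfold Fam.H
  rw [if_neg hl]

/-- **Nondegeneracy.** -/
theorem Fam.kill (D : Derivation C (UK 𝒰 C) (UK 𝒰 C)) (hA : ∀ l < m + 1, ∀ b, D (F.A 𝒰 l b) = 0)
    (hH : ∀ l < m + 1, ∀ b, ∀ l' < l, D (F.H 𝒰 l b l') = 0)
    (hE : ∀ l < m + 1, ∀ b, D (F.E 𝒰 l b) = F.E 𝒰 l b * (F.A 𝒰 l b * (D (F.z 𝒰) / F.z 𝒰) +
      ∑ l' : Fin l, F.H 𝒰 l b l' * (F.GG 𝒰 l')⁻¹ * D (F.GG 𝒰 l'))) : D (F.z 𝒰) = 0 := by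
  classical
  by_contra hDz
  set s := D (F.z 𝒰) / F.z 𝒰 with hs
  have hz := F.z_ne 𝒰
  have hs0 : s ≠ 0 := div_ne_zero hDz hz
  set x := F.x 𝒰 with hx
  have hVF := VF_actual (g := 0) (m := m + 1) D (Y := F.z 𝒰) (s := s) (E := F.E 𝒰) (Q := F.Q 𝒰)
    (G := F.GG 𝒰) (a := F.A 𝒰) (w := fun _ _ => 0) (u := fun _ _ o => o.elim0) (h := F.H 𝒰)
    (β := fun l b => s * F.A 𝒰 l b) (β' := fun l b => s * ta x l b + 0)
    (by rw [hs, div_mul_cancel₀ _ hz])
    (fun l b => by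
      by_cases hl : l < m + 1
      · exact hA l hl b
      · rw [F.A_of_le 𝒰 hl, map_zero])
    (fun l b => map_zero D) (fun l b o => o.elim0)
    (fun l b l' => by
      by_cases hl : l' < l ∧ l < m + 1
      · exact hH l hl.2 b l' hl.1
      · rw [F.H_of_not 𝒰 hl, map_zero])
    (fun l hl => F.GG_eq 𝒰 hl)
    (fun l hl b => by
      rw [hE l hl b, mul_comm (F.A 𝒰 l b)]
      congr 2
      refine Finset.sum_congr rfl fun l' _ => ?_
      have h1 : F.Q 𝒰 l' = (F.GG 𝒰 l')⁻¹ := by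
        unfold Fam.Q
        rw [if_pos]
        have := l'.2
        omega
      rw [h1])
    (fun l hl => by
      unfold Fam.Q
      by_cases hlm : l < m
      · rw [if_pos hlm]
        by_cases h0 : F.GG 𝒰 l = 0
        · right
          rw [h0, inv_zero]
        · left
          exact inv_mul_cancel₀ h0
      · right
        rw [if_neg hlm])
    (fun l hl b => by
      rw [add_zero, hx]
      unfold Fam.x
      rw [ta_mk hl])
  have hVF1 : ∀ i, D (x i) = s * aeval x (VAu C 0 (m + 1) i) := by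
    intro i
    have h1 : D (x i) = VF x s (fun l b => s * ta x l b + 0) i := hVF i
    rw [h1, VF_lin x s (ta x) (fun _ _ => 0) i]
    have h2 := VF_lin x 1 (ta x) (fun _ _ => 0) i
    simp only [one_mul, add_zero] at h2
    have h3 : VF x 0 (fun _ _ => 0) i = 0 := by
      have h4 : VF x 1 (ta x) i = VF x 1 (ta x) i + VF x 0 (fun _ _ => 0) i := h2
      exact (add_eq_left.1 h4.symm)
    rw [h3, add_zero]
    have h5 := eval_VAu (aeval x : MvPolynomial (Idx 0 (m + 1)) C →ₐ[C] UK 𝒰 C).toRingHom i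
    have hfX : (fun i => (aeval x : MvPolynomial (Idx 0 (m + 1)) C →ₐ[C] UK 𝒰 C).toRingHom
        (X i)) = x := by
      funext i
      exact aeval_X _ _
    rw [hfX] at h5
    rw [← h5]
    rfl
  have hstep : ∀ f : MvPolynomial (Idx 0 (m + 1)) C, aeval x f = 0 →
      aeval x (DA (VAu C 0 (m + 1)) f) = 0 := by
    intro f hf
    have h1 := chain_K D x f
    rw [hf, map_zero] at h1
    have h2 : s * aeval x (DA (VAu C 0 (m + 1)) f) = 0 := by
      rw [h1]
      unfold DA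
      rw [map_sum, Finset.mul_sum]
      refine Finset.sum_congr rfl fun i _ => ?_
      rw [map_mul, hVF1]
      ring
    exact (mul_eq_zero.1 h2).resolve_left hs0
  have hall : ∀ k, aeval x ((DA (VAu C 0 (m + 1)))^[k] (G₀ C 0 m)) = 0 := by
    intro k
    induction k with
    | zero => exact F.aeval_G₀ 𝒰
    | succ k ih =>
      rw [Function.iterate_succ_apply']
      exact hstep _ ih
  obtain ⟨n, I, hI1, hI2, hI3⟩ := exists_stable (VAu C 0 (m + 1)) (G₀ C 0 m)
  have hev : ∀ᶠ i in 𝒰, ∀ k : Fin n, eval (pt m (F.T i) (F.y i) (F.G i) (F.c i) (F.e i) (F.h i))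
      ((DA (VAu C 0 (m + 1)))^[k] (G₀ C 0 m)) = 0 := by
    rw [Filter.eventually_all]
    intro k
    have h1 := hall k
    have h2 : x = fun j => cl 𝒰 (fun i => pt m (F.T i) (F.y i) (F.G i) (F.c i) (F.e i) (F.h i) j) := by
      funext j
      exact F.x_eq 𝒰 j
    rw [h2, aeval_cl_eq_zero] at h1
    exact h1
  obtain ⟨i, hi⟩ := hev.exists
  refine bad_curve (F.hy i) (F.c i) (F.e i) (F.h i) (F.hG i) (F.hmin i) (F.hne i) I hI1 ?_ hI2
  intro f hf
  rw [hI3] at hf
  induction hf using Submodule.span_induction with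
  | mem f hf1 =>
    obtain ⟨k, hk, rfl⟩ := hf1
    exact hi ⟨k, hk⟩
  | zero => exact map_zero _
  | add a b ha hb iha ihb => rw [map_add, iha, ihb, add_zero]
  | smul r a ha iha => rw [smul_eq_mul, map_mul, iha, mul_zero]

/-- the evaluation of the derivations at a number -/
def ddL (C : Type) {K : Type} [Field C] [Field K] [Algebra C K] (r : K) :
    Module.Dual K (Derivation C K K) where
  toFun D := D r
  map_add' _ _ := rfl
  map_smul' _ _ := rfl

theorem ddL_apply (C : Type) {K : Type} [Field C] [Field K] [Algebra C K] (r : K)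
    (D : Derivation C K K) : ddL C r D = D r := rfl

/-- functionals as functions -/
def toFn (C K : Type) [Field C] [Field K] [Algebra C K] :
    Module.Dual K (Derivation C K K) →ₗ[K] (Derivation C K K → K) where
  toFun f := f
  map_add' _ _ := rfl
  map_smul' _ _ := rfl

theorem toFn_ddL (C : Type) {K : Type} [Field C] [Field K] [Algebra C K] (r : K) :
    toFn C K (ddL C r) = dd C r := rfl

theorem toFn_lam (C : Type) {K : Type} [Field C] [Field K] [Algebra C K] (r : K) :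
    toFn C K (r⁻¹ • ddL C r) = lam C r := rfl

/-- the indices of the functionals -/
abbrev Qi (m : ℕ) : Type := (Fin (m + 1) × Bool) ⊕ ((Fin (m + 1) × Bool) ⊕ (Fin (m + 1) × Fin m))

theorem card_Qi (m : ℕ) : Fintype.card (Qi m) = (m + 1) * (m + 4) := by
  simp [Qi]
  ring

open Classical in
noncomputable def Fam.phiL (l : ℕ) (b : Bool) : Module.Dual (UK 𝒰 C) (Derivation C (UK 𝒰 C) (UK 𝒰 C)) :=
  if F.E 𝒰 l b = 0 then 0 else
    (F.E 𝒰 l b)⁻¹ • ddL C (F.E 𝒰 l b) - F.A 𝒰 l b • ((F.z 𝒰)⁻¹ • ddL C (F.z 𝒰)) -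
      ∑ l' : Fin l, F.H 𝒰 l b l' • ((F.GG 𝒰 l')⁻¹ • ddL C (F.GG 𝒰 l'))

open Classical in
noncomputable def Fam.phi (l : ℕ) (b : Bool) : Derivation C (UK 𝒰 C) (UK 𝒰 C) → UK 𝒰 C :=
  if F.E 𝒰 l b = 0 then 0 else
    lam C (F.E 𝒰 l b) - F.A 𝒰 l b • lam C (F.z 𝒰) -
      ∑ l' : Fin l, F.H 𝒰 l b l' • lam C (F.GG 𝒰 l')

omit [CharZero C] in
theorem Fam.toFn_phiL (l : ℕ) (b : Bool) : toFn C (UK 𝒰 C) (F.phiL 𝒰 l b) = F.phi 𝒰 l b := by
  unfold Fam.phiL Fam.phi
  split_ifs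
  · exact map_zero _
  · rw [map_sub, map_sub, map_sum]
    rfl

noncomputable def Fam.psiL : Qi m → Module.Dual (UK 𝒰 C) (Derivation C (UK 𝒰 C) (UK 𝒰 C))
  | Sum.inl (l, b) => F.phiL 𝒰 l b
  | Sum.inr (Sum.inl (l, b)) => ddL C (F.A 𝒰 l b)
  | Sum.inr (Sum.inr (i, k)) => ddL C (F.x 𝒰 (Sum.inr (Sum.inl (i, i.succAbove k))))

noncomputable def Fam.psi : Qi m → Derivation C (UK 𝒰 C) (UK 𝒰 C) → UK 𝒰 C
  | Sum.inl (l, b) => F.phi 𝒰 l b
  | Sum.inr (Sum.inl (l, b)) => dd C (F.A 𝒰 l b)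
  | Sum.inr (Sum.inr (i, k)) => dd C (F.x 𝒰 (Sum.inr (Sum.inl (i, i.succAbove k))))

omit [CharZero C] in
theorem Fam.toFn_psiL (q : Qi m) : toFn C (UK 𝒰 C) (F.psiL 𝒰 q) = F.psi 𝒰 q := by
  rcases q with ⟨l, b⟩ | ⟨l, b⟩ | ⟨i, k⟩
  · exact F.toFn_phiL 𝒰 l b
  · rfl
  · rfl

/-- **The logarithmic differential of the bad number is a combination of the functionals.** -/
theorem Fam.lam_mem : lam C (F.z 𝒰) ∈ Submodule.span (UK 𝒰 C) (Set.range (F.psi 𝒰)) := by
  classical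
  have h1 : (F.z 𝒰)⁻¹ • ddL C (F.z 𝒰) ∈ Submodule.span (UK 𝒰 C) (Set.range (F.psiL 𝒰)) := by
    apply mem_span_of_iInf_ker_le_ker
    intro D hD
    rw [Submodule.mem_iInf] at hD
    rw [LinearMap.mem_ker]
    have hD' : ∀ q, F.psiL 𝒰 q D = 0 := fun q => LinearMap.mem_ker.1 (hD q)
    have hz : D (F.z 𝒰) = 0 := by
      apply F.kill 𝒰 D
      · intro l hl b
        exact hD' (Sum.inr (Sum.inl (⟨l, hl⟩, b)))
      · intro l hl b l' hl'
        have hl'm : l' < m + 1 := hl'.trans hl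
        -- the coordinate
        have key : ∀ i j : Fin (m + 1), i ≠ j →
            D (F.x 𝒰 (Sum.inr (Sum.inl (i, j)))) = 0 := by
          intro i j hij
          obtain ⟨k, hk⟩ := Fin.exists_succAbove_eq hij.symm
          have h2 := hD' (Sum.inr (Sum.inr (i, k)))
          rw [← hk]
          exact h2
        have h3 : F.H 𝒰 l b l' = tH (F.x 𝒰) l b l' := by
          unfold Fam.x
          rw [tH_mk hl hl' b]
        rw [h3]
        unfold tH
        rw [dif_pos ⟨hl, hl'm⟩]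
        have hne : (⟨l, hl⟩ : Fin (m + 1)) ≠ ⟨l', hl'm⟩ := by
          intro h
          have := congrArg Fin.val h
          simp only at this
          omega
        cases b
        · exact key _ _ hne
        · exact key _ _ hne.symm
      · intro l hl b
        have h2 : F.phiL 𝒰 l b D = 0 := hD' (Sum.inl (⟨l, hl⟩, b))
        unfold Fam.phiL at h2
        by_cases hE : F.E 𝒰 l b = 0
        · rw [hE, map_zero, zero_mul]
        · rw [if_neg hE] at h2
          simp only [LinearMap.sub_apply, LinearMap.smul_apply, LinearMap.sum_apply, smul_eq_mul,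
            ddL_apply] at h2
          have h3 : (F.E 𝒰 l b)⁻¹ * D (F.E 𝒰 l b) = F.A 𝒰 l b * ((F.z 𝒰)⁻¹ * D (F.z 𝒰)) +
              ∑ l' : Fin l, F.H 𝒰 l b l' * ((F.GG 𝒰 l')⁻¹ * D (F.GG 𝒰 l')) := by
            linear_combination h2
          have h4 : D (F.E 𝒰 l b) = F.E 𝒰 l b * ((F.E 𝒰 l b)⁻¹ * D (F.E 𝒰 l b)) := by
            rw [← mul_assoc, mul_inv_cancel₀ hE, one_mul]
          rw [h4, h3]
          congr 2
          · rw [div_eq_mul_inv, mul_comm (F.z 𝒰)⁻¹]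
          · refine Finset.sum_congr rfl fun l' _ => ?_
            ring
    show (F.z 𝒰)⁻¹ * D (F.z 𝒰) = 0
    rw [hz, mul_zero]
  have h2 := Submodule.mem_map_of_mem (f := toFn C (UK 𝒰 C)) h1
  rw [toFn_lam, Submodule.map_span, ← Set.range_comp] at h2
  have h3 : (⇑(toFn C (UK 𝒰 C)) ∘ F.psiL 𝒰) = F.psi 𝒰 := by
    funext q
    exact F.toFn_psiL 𝒰 q
  rw [h3] at h2
  exact h2

end

end Pool.Agent.Zk44.UP
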