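import Mathlib
import Pool.Agent.Zk44.UP.Nondeg

/-!
# The connection of the functionals of a computation
-/

set_option autoImplicit false

namespace Pool.Agent.Zk44.UP

open MvPolynomial Filter
open Pool.Agent.R351 hiding tay tay_const
open Pool.Agent.Zk44.XO

section

variable {κ C ι : Type} [Field κ] [Field C] [Algebra κ C] {m : ℕ}
  (F : Fam κ C ι m) (𝒰 : Ultrafilter ι) (Δ : Derivation κ C C)

/-- the derivation of the ultraproduct -/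
noncomputable abbrev dV (𝒰 : Ultrafilter ι) (Δ : Derivation κ C C) :
    Derivation ℤ (UK 𝒰 C) (UK 𝒰 C) := dU 𝒰 (Δ.restrictScalars ℤ)

theorem dV_cl (f : ι → C) : dV 𝒰 Δ (cl 𝒰 f) = cl 𝒰 (fun i => Δ (f i)) := rfl

theorem dV_nat (f : ι → ℕ) : dV 𝒰 Δ (cl 𝒰 (fun i => ((f i : ℕ) : C))) = 0 := by
  rw [dV_cl]
  have h1 : (fun i => Δ ((f i : ℕ) : C)) = fun _ => 0 := by
    funext i
    exact Derivation.map_natCast Δ _
  rw [h1]
  exact map_zero (cl 𝒰)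

theorem Fam.dV_A (l : ℕ) (b : Bool) : dV 𝒰 Δ (F.A 𝒰 l b) = 0 := by
  unfold Fam.A
  split_ifs
  · exact dV_nat 𝒰 Δ _
  · exact map_zero _

theorem Fam.dV_H (l : ℕ) (b : Bool) (l' : ℕ) : dV 𝒰 Δ (F.H 𝒰 l b l') = 0 := by
  unfold Fam.H
  split_ifs
  · exact dV_nat 𝒰 Δ _
  · exact map_zero _

/-- the contribution of the parameters -/
noncomputable def Fam.Om (l : ℕ) (b : Bool) : UK 𝒰 C :=
  cl 𝒰 (fun i => ∑ o, ((F.e i l b (some o) : ℕ) : C) * (Δ (F.T i o) / F.T i o))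

/-- the logarithmic derivatives of the summands -/
theorem Fam.dV_E {l : ℕ} (hl : l < m + 1) (b : Bool) : dV 𝒰 Δ (F.E 𝒰 l b) = F.E 𝒰 l b *
    (F.A 𝒰 l b * (dV 𝒰 Δ (F.z 𝒰) / F.z 𝒰) + F.Om 𝒰 Δ l b +
      ∑ l' : Fin l, F.H 𝒰 l b l' * (dV 𝒰 Δ (F.GG 𝒰 l') / F.GG 𝒰 l')) := by
  classical
  have hA : F.A 𝒰 l b = cl 𝒰 (fun i => ((F.e i l b none : ℕ) : C)) := by
    unfold Fam.A
    rw [if_pos hl]
  have hH : ∀ l' : Fin l, F.H 𝒰 l b l' = cl 𝒰 (fun i => ((F.h i l b l' : ℕ) : C)) := by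
    intro l'
    unfold Fam.H
    rw [if_pos ⟨l'.2, hl⟩]
  have hpt : ∀ i, Δ (Es (fun j => (bt1 (F.T i) j).eval (F.y i)) (fun l => (F.G i l).eval (F.y i)) (F.c i)
      (F.e i) (F.h i) l b) = Es (fun j => (bt1 (F.T i) j).eval (F.y i)) (fun l => (F.G i l).eval (F.y i))
      (F.c i) (F.e i) (F.h i) l b * (((F.e i l b none : ℕ) : C) * (Δ (F.y i) / F.y i) +
        ∑ o, ((F.e i l b (some o) : ℕ) : C) * (Δ (F.T i o) / F.T i o) +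
        ∑ l' : Fin l, ((F.h i l b l' : ℕ) : C) *
          (Δ ((F.G i l').eval (F.y i)) / (F.G i l').eval (F.y i))) := by
    intro i
    have hB : ∀ j, LogD Δ ((bt1 (F.T i) j).eval (F.y i))
        (j.elim (Δ (F.y i) / F.y i) (fun o => Δ (F.T i o) / F.T i o)) := by
      intro j
      rcases j with _ | o
      · have e1 : (bt1 (F.T i) none).eval (F.y i) = F.y i := Polynomial.eval_X
        show Δ ((bt1 (F.T i) none).eval (F.y i)) =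
          (bt1 (F.T i) none).eval (F.y i) * (Δ (F.y i) / F.y i)
        rw [e1, mul_div_cancel₀ _ (F.hy i)]
      · have e1 : (bt1 (F.T i) (some o)).eval (F.y i) = F.T i o := Polynomial.eval_C
        show Δ ((bt1 (F.T i) (some o)).eval (F.y i)) =
          (bt1 (F.T i) (some o)).eval (F.y i) * (Δ (F.T i o) / F.T i o)
        rw [e1]
        by_cases h1 : F.T i o = 0
        · rw [h1, map_zero, zero_mul]
        · rw [mul_div_cancel₀ _ h1]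
    have h1 := logD_Es Δ (G := fun l => (F.G i l).eval (F.y i))
      (Q := fun l => ((F.G i l).eval (F.y i))⁻¹) (c := F.c i) (e := F.e i) (h := F.h i) (l := l)
      hB b (fun l' _ => by
        by_cases h0 : (F.G i l').eval (F.y i) = 0
        · exact Or.inr h0
        · exact Or.inl (inv_mul_cancel₀ h0))
    rw [h1, Fintype.sum_option]
    simp only [Option.elim]
    congr 2
    refine Finset.sum_congr rfl fun l' _ => ?_
    rw [div_eq_mul_inv]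
    ring
  have h2 : F.E 𝒰 l b * (F.A 𝒰 l b * (dV 𝒰 Δ (F.z 𝒰) / F.z 𝒰) + F.Om 𝒰 Δ l b +
      ∑ l' : Fin l, F.H 𝒰 l b l' * (dV 𝒰 Δ (F.GG 𝒰 l') / F.GG 𝒰 l')) =
      cl 𝒰 ((fun i => Es (fun j => (bt1 (F.T i) j).eval (F.y i)) (fun l => (F.G i l).eval (F.y i)) (F.c i)
      (F.e i) (F.h i) l b) * ((fun i => ((F.e i l b none : ℕ) : C)) * (fun i => Δ (F.y i) / F.y i) +
        (fun i => ∑ o, ((F.e i l b (some o) : ℕ) : C) * (Δ (F.T i o) / F.T i o)) +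
        ∑ l' : Fin l, (fun i => ((F.h i l b l' : ℕ) : C)) *
          (fun i => Δ ((F.G i l').eval (F.y i)) / (F.G i l').eval (F.y i)))) := by
    rw [map_mul, map_add, map_add, map_sum, map_mul, hA]
    congr 2
    refine Finset.sum_congr rfl fun l' _ => ?_
    rw [map_mul, hH]
    rfl
  rw [h2]
  show cl 𝒰 (fun i => Δ (Es (fun j => (bt1 (F.T i) j).eval (F.y i)) (fun l => (F.G i l).eval (F.y i))
    (F.c i) (F.e i) (F.h i) l b)) = _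
  congr 1
  funext i
  rw [hpt i]
  simp only [Pi.mul_apply, Pi.add_apply, Finset.sum_apply]

theorem hdV (c : C) : ∃ c' : C, dV 𝒰 Δ (algebraMap C (UK 𝒰 C) c) = algebraMap C (UK 𝒰 C) c' :=
  ⟨Δ c, rfl⟩

/-- the connection of the functionals -/
theorem Fam.nb_phi {l : ℕ} (hl : l < m + 1) (b : Bool) (hE : F.E 𝒰 l b ≠ 0) :
    nb (dV 𝒰 Δ) (hdV 𝒰 Δ) (F.phi 𝒰 l b) =
      (dV 𝒰 Δ (F.z 𝒰) / F.z 𝒰) • dd C (F.A 𝒰 l b) + dd C (F.Om 𝒰 Δ l b) +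
      ∑ l' : Fin l, (dV 𝒰 Δ (F.GG 𝒰 l') / F.GG 𝒰 l') • dd C (F.H 𝒰 l b l') := by
  unfold Fam.phi
  rw [if_neg hE, map_sub, map_sub, map_sum, nb_lam, nb_smul, nb_lam, derK_apply, F.dV_A, zero_smul,
    zero_add]
  have h1 : dV 𝒰 Δ (F.E 𝒰 l b) / F.E 𝒰 l b = F.A 𝒰 l b * (dV 𝒰 Δ (F.z 𝒰) / F.z 𝒰) +
      F.Om 𝒰 Δ l b +
      ∑ l' : Fin l, F.H 𝒰 l b l' * (dV 𝒰 Δ (F.GG 𝒰 l') / F.GG 𝒰 l') := by
    rw [F.dV_E 𝒰 Δ hl b, mul_div_cancel_left₀ _ hE]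
  have h2 : ∀ l' : Fin l, nb (dV 𝒰 Δ) (hdV 𝒰 Δ) (F.H 𝒰 l b l' • lam C (F.GG 𝒰 l')) =
      F.H 𝒰 l b l' • dd C (dV 𝒰 Δ (F.GG 𝒰 l') / F.GG 𝒰 l') := by
    intro l'
    rw [nb_smul, nb_lam, derK_apply, F.dV_H, zero_smul, zero_add]
  rw [h1, dd_add, dd_add, dd_sum, dd_mul]
  simp only [h2, dd_mul, Finset.sum_add_distrib]
  abel

/-- the space of the values of the connection -/
abbrev ThH {K : Type} [Field K] [Algebra C K] (Δ : Derivation ℤ K K)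
    (hC : ∀ c : C, ∃ c' : C, Δ (algebraMap C K c) = algebraMap C K c') :
    Submodule (constF Δ) (Derivation C K K → K) :=
  Submodule.span (constF Δ) {ω | ∃ ϑ ∈ Th Δ, ∃ η, nb Δ hC η = 0 ∧ ω = ϑ • η}

theorem Fam.nb_psi_mem (hOm : ∀ l b, dd C (F.Om 𝒰 Δ l b) ∈ ThH (dV 𝒰 Δ) (hdV 𝒰 Δ)) (q : Qi m) :
    nb (dV 𝒰 Δ) (hdV 𝒰 Δ) (F.psi 𝒰 q) ∈ ThH (dV 𝒰 Δ) (hdV 𝒰 Δ) := by
  classical
  have hH : ∀ j : Idx 0 (m + 1), (∃ i j', i ≠ j' ∧ j = Sum.inr (Sum.inl (i, j'))) →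
      dV 𝒰 Δ (F.x 𝒰 j) = 0 := by
    rintro j ⟨i, j', hij, rfl⟩
    unfold Fam.x
    simp only [mkPt, if_neg hij]
    split_ifs
    · exact F.dV_H 𝒰 Δ _ _ _
    · exact F.dV_H 𝒰 Δ _ _ _
  rcases q with ⟨l, b⟩ | ⟨l, b⟩ | ⟨i, k⟩
  · show nb (dV 𝒰 Δ) (hdV 𝒰 Δ) (F.phi 𝒰 l b) ∈ _
    by_cases hE : F.E 𝒰 l b = 0
    · have h1 : F.phi 𝒰 l b = 0 := by
        unfold Fam.phi
        rw [if_pos hE]
      rw [h1, map_zero]
      exact Submodule.zero_mem _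
    · rw [F.nb_phi 𝒰 Δ l.2 b hE]
      refine Submodule.add_mem _ (Submodule.add_mem _ ?_ ?_) ?_
      · exact Submodule.subset_span ⟨_, div_mem_Th _ _, _, nb_const _ _ (F.dV_A 𝒰 Δ l b), rfl⟩
      · exact hOm l b
      · refine Submodule.sum_mem _ fun l' _ => ?_
        exact Submodule.subset_span ⟨_, div_mem_Th _ _, _, nb_const _ _ (F.dV_H 𝒰 Δ l b l'), rfl⟩
  · show nb (dV 𝒰 Δ) (hdV 𝒰 Δ) (dd C (F.A 𝒰 l b)) ∈ _
    rw [nb_const _ _ (F.dV_A 𝒰 Δ l b)]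
    exact Submodule.zero_mem _
  · show nb (dV 𝒰 Δ) (hdV 𝒰 Δ) (dd C (F.x 𝒰 (Sum.inr (Sum.inl (i, i.succAbove k))))) ∈ _
    rw [nb_const _ _ (hH _ ⟨i, i.succAbove k, (Fin.succAbove_ne i k).symm, rfl⟩)]
    exact Submodule.zero_mem _

end

end Pool.Agent.Zk44.UP
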