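import Mathlib
import Pool.Agent.Zk44.UP.Conn
import Pool.Agent.Zk52.UP.Lin

/-!
# The differentials of the coefficients of a bad combination
-/

set_option autoImplicit false

namespace Pool.Agent.Zk44.UP

open MvPolynomial Filter
open Pool.Agent.R351 hiding tay tay_const
open Pool.Agent.Zk44.XO

section Stable

variable {C K : Type} [Field C] [Field K] [Algebra C K] (Δ : Derivation ℤ K K)
  (hC : ∀ c : C, ∃ c' : C, Δ (algebraMap C K c) = algebraMap C K c')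

/-- the space which is spanned by horizontal forms is stable -/
theorem nb_stable {s : Set (Derivation C K K → K)} (hs : ∀ η ∈ s, nb Δ hC η = 0) :
    ∀ m ∈ Submodule.span K s, nb Δ hC m ∈ Submodule.span K s := by
  intro m hm
  induction hm using Submodule.span_induction with
  | mem η hη =>
    rw [hs η hη]
    exact Submodule.zero_mem _
  | zero =>
    rw [map_zero]
    exact Submodule.zero_mem _
  | add a b ha hb iha ihb =>
    rw [map_add]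
    exact Submodule.add_mem _ iha ihb
  | smul r a ha iha =>
    rw [nb_smul]
    exact Submodule.add_mem _ (Submodule.smul_mem _ _ ha) (Submodule.smul_mem _ _ iha)

end Stable

section Rank

variable {C : Type} [Field C] [CharZero C] {N : ℕ} {S : Set (Fin N → C)} (𝒰 : Ultrafilter S)

/-- the generic point -/
noncomputable def bs (i : Fin N) : UK 𝒰 C := cl 𝒰 (fun b : S => (b : Fin N → C) i)

/-- the differentials of the coordinates of the generic point are independent -/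
theorem indep_dd (h𝒰 : ∀ f : MvPolynomial (Fin N) C, f ≠ 0 → ∀ᶠ b : S in 𝒰,
    eval (b : Fin N → C) f ≠ 0) :
    LinearIndependent (UK 𝒰 C) (fun i : Fin N => dd C (bs 𝒰 i)) := by
  classical
  rw [Fintype.linearIndependent_iff]
  intro r hr j
  obtain ⟨D, hD⟩ := exists_partial 𝒰 h𝒰 (fun i => if i = j then 1 else 0)
  have h1 := congrFun hr D
  simp only [Finset.sum_apply, Pi.smul_apply, dd_apply, smul_eq_mul, Pi.zero_apply] at h1
  rw [Finset.sum_eq_single j] at h1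
  · have h2 : D (bs 𝒰 j) = 1 := by
      have h3 := hD j
      rw [if_pos rfl] at h3
      exact h3
    rw [h2, mul_one] at h1
    exact h1
  · intro i _ hij
    have h3 : D (bs 𝒰 i) = 0 := by
      have h4 := hD i
      rw [if_neg hij] at h4
      exact h4
    rw [h3, mul_zero]
  · intro h; exact absurd (Finset.mem_univ _) h

/-- the number of the coordinates -/
theorem le_of_mem (h𝒰 : ∀ f : MvPolynomial (Fin N) C, f ≠ 0 → ∀ᶠ b : S in 𝒰,
    eval (b : Fin N → C) f ≠ 0) {Q : Type} [Fintype Q]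
    (ρ : Q → Derivation C (UK 𝒰 C) (UK 𝒰 C) → UK 𝒰 C)
    (h : ∀ i, dd C (bs 𝒰 i) ∈ Submodule.span (UK 𝒰 C) (Set.range ρ)) : N ≤ Fintype.card Q := by
  classical
  have hfin : Module.Finite (UK 𝒰 C) (Submodule.span (UK 𝒰 C) (Set.range ρ)) :=
    FiniteDimensional.span_of_finite _ (Set.finite_range _)
  have h1 : LinearIndependent (UK 𝒰 C)
      (fun i : Fin N => (⟨dd C (bs 𝒰 i), h i⟩ : Submodule.span (UK 𝒰 C) (Set.range ρ))) :=
    LinearIndependent.of_comp (Submodule.subtype _) (indep_dd 𝒰 h𝒰)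
  have h2 := h1.fintype_card_le_finrank
  rw [Fintype.card_fin] at h2
  exact h2.trans (finrank_range_le_card ρ)

end Rank

section Core

variable {κ C : Type} [Field κ] [Field C] [CharZero C] [Algebra κ C] (Δ : Derivation κ C C)
  (hP : ∀ (n : ℕ) (c y : Fin n → C) (r : C), (∀ j, Δ (c j) = 0) →
      Δ r = ∑ j, c j * (Δ (y j) / y j) → Δ r = 0)
  {ι : Type} (𝒰 : Ultrafilter ι)

/-- the coefficients -/
noncomputable abbrev bb {N : ℕ} (b : ι → Fin N → C) (j : Fin N) : UK 𝒰 C := cl 𝒰 (fun i => b i j)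

omit [CharZero C] in
theorem nb_bb {N : ℕ} {b : ι → Fin N → C} (hb : ∀ i j, Δ (b i j) = 0) (j : Fin N) :
    nb (dV 𝒰 Δ) (hdV 𝒰 Δ) (dd C (bb 𝒰 b j)) = 0 := by
  apply nb_const
  show cl 𝒰 (fun i => Δ (b i j)) = 0
  have h1 : (fun i => Δ (b i j)) = fun _ => 0 := by
    funext i
    exact hb i j
  rw [h1]
  exact map_zero (cl 𝒰)

omit [CharZero C] in
theorem dd_comb {N : ℕ} (e₀ : C) (x : Fin N → C) (b : ι → Fin N → C) :
    dd C (cl 𝒰 (fun i => e₀ + ∑ j, b i j * x j)) =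
      ∑ j, algebraMap C (UK 𝒰 C) (x j) • dd C (bb 𝒰 b j) := by
  have h1 : cl 𝒰 (fun i => e₀ + ∑ j, b i j * x j) = algebraMap C (UK 𝒰 C) e₀ +
      ∑ j, bb 𝒰 b j * algebraMap C (UK 𝒰 C) (x j) := by
    have h2 : (fun i => e₀ + ∑ j, b i j * x j) =
        (fun _ => e₀) + ∑ j, (fun i => b i j) * (fun _ => x j) := by
      funext i
      rw [Pi.add_apply, Finset.sum_apply]
      rfl
    rw [h2, map_add, map_sum]
    congr 1
  rw [h1, dd_add, dd_algebraMap, zero_add, dd_sum]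
  refine Finset.sum_congr rfl fun j _ => ?_
  rw [dd_mul, dd_algebraMap, smul_zero, zero_add]

include hP in
/-- the horizontal forms of one computation -/
theorem exists_horizontal {m N : ℕ} (F : Fam κ C ι m)
    (hOm : ∀ l b, dd C (F.Om 𝒰 Δ l b) ∈ ThH (dV 𝒰 Δ) (hdV 𝒰 Δ)) (e₀ : C) (x : Fin N → C)
    (b : ι → Fin N → C) (hb : ∀ i j, Δ (b i j) = 0) (hy : ∀ i, F.y i = e₀ + ∑ j, b i j * x j) :
    ∃ ρ : Fin ((m + 1) * (m + 4)) → Derivation C (UK 𝒰 C) (UK 𝒰 C) → UK 𝒰 C,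
      (∀ q, nb (dV 𝒰 Δ) (hdV 𝒰 Δ) (ρ q) = 0) ∧
      ∑ j, algebraMap C (UK 𝒰 C) (x j) • dd C (bb 𝒰 b j) ∈
        Submodule.span (UK 𝒰 C) (Set.range ρ) := by
  classical
  have hdz : dd C (F.z 𝒰) = ∑ j, algebraMap C (UK 𝒰 C) (x j) • dd C (bb 𝒰 b j) := by
    rw [← dd_comb 𝒰 e₀ x b]
    unfold Fam.z
    congr 2
    funext i
    exact hy i
  have hv2 : dd C (F.z 𝒰) ∈ Submodule.span (UK 𝒰 C) (Set.range (F.psi 𝒰)) := by
    have h1 : dd C (F.z 𝒰) = F.z 𝒰 • lam C (F.z 𝒰) := by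
      unfold lam
      rw [smul_smul, mul_inv_cancel₀ (F.z_ne 𝒰), one_smul]
    rw [h1]
    exact Submodule.smul_mem _ _ (F.lam_mem 𝒰)
  have hv1 : dd C (F.z 𝒰) ∈ Submodule.span (UK 𝒰 C)
      {η : Derivation C (UK 𝒰 C) (UK 𝒰 C) → UK 𝒰 C | nb (dV 𝒰 Δ) (hdV 𝒰 Δ) η = 0} := by
    rw [hdz]
    exact Submodule.sum_mem _ fun j _ => Submodule.smul_mem _ _ (Submodule.subset_span
      (nb_bb Δ 𝒰 hb j))
  let eq := Fintype.equivFinOfCardEq (card_Qi m)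
  have hrange : Set.range (F.psi 𝒰 ∘ eq.symm) = Set.range (F.psi 𝒰) :=
    eq.symm.surjective.range_comp _
  obtain ⟨ρ, hρ1, hρ2⟩ := exists_rho (derK (dV 𝒰 Δ)) (derK_const (dV 𝒰 Δ))
    (nb (dV 𝒰 Δ) (hdV 𝒰 Δ)) (nb_smul (dV 𝒰 Δ) (hdV 𝒰 Δ)) (Th (dV 𝒰 Δ))
    (transfer_P 𝒰 (Δ.restrictScalars ℤ) hP) (F.psi 𝒰 ∘ eq.symm)
    (fun q => F.nb_psi_mem 𝒰 Δ hOm _) (dd C (F.z 𝒰)) hv1 (by rw [hrange]; exact hv2)
  refine ⟨ρ, hρ1, ?_⟩
  rw [← hdz]
  exact hρ2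

include hP in
/-- **One computation.** -/
theorem core_one {m N : ℕ} (F : Fam κ C ι m)
    (hOm : ∀ l b, dd C (F.Om 𝒰 Δ l b) ∈ ThH (dV 𝒰 Δ) (hdV 𝒰 Δ)) (e₀ : C) (x : Fin N → C)
    (hx : ∀ v : Fin N → C, (∀ i, Δ (v i) = 0) → ∑ i, v i * x i = 0 → v = 0)
    (b : ι → Fin N → C) (hb : ∀ i j, Δ (b i j) = 0) (hy : ∀ i, F.y i = e₀ + ∑ j, b i j * x j) :
    ∃ ρ : Fin ((m + 1) * (m + 4)) → Derivation C (UK 𝒰 C) (UK 𝒰 C) → UK 𝒰 C,
      ∀ j, dd C (bb 𝒰 b j) ∈ Submodule.span (UK 𝒰 C) (Set.range ρ) := by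
  classical
  obtain ⟨ρ, hρ1, hρ2⟩ := exists_horizontal Δ hP 𝒰 F hOm e₀ x b hb hy
  refine ⟨ρ, mem_of_rows (derK (dV 𝒰 Δ)) (derK_const (dV 𝒰 Δ)) (nb (dV 𝒰 Δ) (hdV 𝒰 Δ))
    (nb_smul (dV 𝒰 Δ) (hdV 𝒰 Δ)) (Submodule.span (UK 𝒰 C) (Set.range ρ))
    (nb_stable (dV 𝒰 Δ) (hdV 𝒰 Δ) (by rintro _ ⟨q, rfl⟩; exact hρ1 q))
    (fun i => dd C (bb 𝒰 b i)) (nb_bb Δ 𝒰 hb) {fun i => algebraMap C (UK 𝒰 C) (x i)}
    (by
      intro y hy
      rw [Set.mem_singleton_iff.1 hy]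
      exact hρ2)
    (by
      intro v hv
      have h1 := hv _ (Set.mem_singleton _)
      exact transfer_indep 𝒰 (Δ.restrictScalars ℤ) x x (fun v h1 h2 _ => hx v h1 h2) v h1 h1)⟩

end Core

end Pool.Agent.Zk44.UP
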