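import Mathlib
import Pool.Agent.Zk44.UP.Core

/-!
# Bad combinations whose exponentials are bad
-/

set_option autoImplicit false

namespace Pool.Agent.Zk44.UP

open MvPolynomial Filter
open Pool.Agent.R351 hiding tay tay_const
open Pool.Agent.Zk44.XO

section CoreTwo

variable {κ C : Type} [Field κ] [Field C] [CharZero C] [Algebra κ C] (Δ : Derivation κ C C)
  (hP : ∀ (n : ℕ) (c y : Fin n → C) (r : C), (∀ j, Δ (c j) = 0) →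
      Δ r = ∑ j, c j * (Δ (y j) / y j) → Δ r = 0)
  {ι : Type} (𝒰 : Ultrafilter ι)

omit [CharZero C] in
theorem algebraMap_mem_Th (u : C) : algebraMap C (UK 𝒰 C) (Δ u / u) ∈ Th (dV 𝒰 Δ) := by
  have h2 := div_mem_Th (dV 𝒰 Δ) (algebraMap C (UK 𝒰 C) u)
  have h3 : dV 𝒰 Δ (algebraMap C (UK 𝒰 C) u) / algebraMap C (UK 𝒰 C) u =
      algebraMap C (UK 𝒰 C) (Δ u / u) := by
    rw [map_div₀]
    rfl
  rwa [h3] at h2

include hP in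
/-- The differential of the logarithmic derivative is a combination of few horizontal forms. -/
theorem exists_horizontal_two {m N g : ℕ} (F : Fam κ C ι m)
    (θ : Fin g → UK 𝒰 C) (hθ : ∀ o, θ o ∈ Th (dV 𝒰 Δ)) (U : ℕ → Bool → Fin g → UK 𝒰 C)
    (hU : ∀ l b o, dV 𝒰 Δ (U l b o) = 0)
    (hOm : ∀ l b, dd C (F.Om 𝒰 Δ l b) = ∑ o, θ o • dd C (U l b o))
    (e₀ : C) (x : Fin N → C) (hxT : ∀ j, ∃ u : C, x j = Δ u / u)
    (b : ι → Fin N → C) (hb : ∀ i j, Δ (b i j) = 0)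
    (hy : ∀ i, Δ (F.y i) / F.y i = e₀ + ∑ j, b i j * x j) :
    ∃ τ : Unit ⊕ (Fin g ⊕ Fin m) → Derivation C (UK 𝒰 C) (UK 𝒰 C) → UK 𝒰 C,
      (∀ q, nb (dV 𝒰 Δ) (hdV 𝒰 Δ) (τ q) = 0) ∧
      ∑ j, algebraMap C (UK 𝒰 C) (x j) • dd C (bb 𝒰 b j) ∈
        Submodule.span (UK 𝒰 C) (Set.range τ) := by
  classical
  have hOm' : ∀ l b, dd C (F.Om 𝒰 Δ l b) ∈ ThH (dV 𝒰 Δ) (hdV 𝒰 Δ) := by
    intro l b
    rw [hOm]
    exact Submodule.sum_mem _ fun o _ => Submodule.subset_span ⟨_, hθ o, _,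
      nb_const _ _ (hU l b o), rfl⟩
  -- the logarithmic differential
  have hnb : nb (dV 𝒰 Δ) (hdV 𝒰 Δ) (lam C (F.z 𝒰)) =
      ∑ j, algebraMap C (UK 𝒰 C) (x j) • dd C (bb 𝒰 b j) := by
    rw [nb_lam, ← dd_comb 𝒰 e₀ x b]
    congr 1
    show cl 𝒰 (fun i => Δ (F.y i) / F.y i) = _
    congr 1
    funext i
    exact hy i
  have hmem : nb (dV 𝒰 Δ) (hdV 𝒰 Δ) (lam C (F.z 𝒰)) ∈ ThH (dV 𝒰 Δ) (hdV 𝒰 Δ) := by
    rw [hnb]
    refine Submodule.sum_mem _ fun j _ => ?_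
    obtain ⟨u, hu⟩ := hxT j
    exact Submodule.subset_span ⟨_, by rw [hu]; exact algebraMap_mem_Th Δ 𝒰 u, _,
      nb_bb Δ 𝒰 hb j, rfl⟩
  let eq := Fintype.equivFinOfCardEq (card_Qi m)
  have hrange : Set.range (F.psi 𝒰 ∘ eq.symm) = Set.range (F.psi 𝒰) :=
    eq.symm.surjective.range_comp _
  obtain ⟨c, hc⟩ := exists_const_comb (derK (dV 𝒰 Δ)) (derK_const (dV 𝒰 Δ))
    (nb (dV 𝒰 Δ) (hdV 𝒰 Δ)) (nb_smul (dV 𝒰 Δ) (hdV 𝒰 Δ)) (Th (dV 𝒰 Δ))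
    (transfer_P 𝒰 (Δ.restrictScalars ℤ) hP) (F.psi 𝒰 ∘ eq.symm)
    (fun q => F.nb_psi_mem 𝒰 Δ hOm' _) (lam C (F.z 𝒰)) hmem (by rw [hrange]; exact F.lam_mem 𝒰)
  rw [map_sub, map_sum, sub_eq_zero, hnb] at hc
  -- the coefficients
  let c' : Fin (m + 1) × Bool → constF (dV 𝒰 Δ) := fun p =>
    if F.E 𝒰 p.1 p.2 = 0 then 0 else c (eq (Sum.inl p))
  let τ : Unit ⊕ (Fin g ⊕ Fin m) → Derivation C (UK 𝒰 C) (UK 𝒰 C) → UK 𝒰 C := fun q => match q with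
    | Sum.inl _ => ∑ p : Fin (m + 1) × Bool, c' p • dd C (F.A 𝒰 p.1 p.2)
    | Sum.inr (Sum.inl o) => ∑ p : Fin (m + 1) × Bool, c' p • dd C (U p.1 p.2 o)
    | Sum.inr (Sum.inr l') => ∑ p : Fin (m + 1) × Bool, c' p • dd C (F.H 𝒰 p.1 p.2 l')
  have hterm : ∀ p : Fin (m + 1) × Bool, c (eq (Sum.inl p)) • nb (dV 𝒰 Δ) (hdV 𝒰 Δ)
      (F.phi 𝒰 p.1 p.2) = (dV 𝒰 Δ (F.z 𝒰) / F.z 𝒰) • (c' p • dd C (F.A 𝒰 p.1 p.2)) +
      ∑ o, θ o • (c' p • dd C (U p.1 p.2 o)) +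
      ∑ l' : Fin m, (dV 𝒰 Δ (F.GG 𝒰 l') / F.GG 𝒰 l') • (c' p • dd C (F.H 𝒰 p.1 p.2 l')) := by
    intro p
    by_cases hE : F.E 𝒰 p.1 p.2 = 0
    · have h1 : F.phi 𝒰 p.1 p.2 = 0 := by
        unfold Fam.phi
        rw [if_pos hE]
      have h2 : c' p = 0 := if_pos hE
      rw [h1, h2, map_zero]
      simp
    · have h2 : c' p = c (eq (Sum.inl p)) := if_neg hE
      have h3 : ∑ l' : Fin (p.1 : ℕ), (dV 𝒰 Δ (F.GG 𝒰 l') / F.GG 𝒰 l') • dd C (F.H 𝒰 p.1 p.2 l') =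
          ∑ l' : Fin m, (dV 𝒰 Δ (F.GG 𝒰 l') / F.GG 𝒰 l') • dd C (F.H 𝒰 p.1 p.2 l') := by
        rw [Fin.sum_univ_eq_sum_range (fun l' => (dV 𝒰 Δ (F.GG 𝒰 l') / F.GG 𝒰 l') •
          dd C (F.H 𝒰 p.1 p.2 l')) (p.1 : ℕ), Fin.sum_univ_eq_sum_range
          (fun l' => (dV 𝒰 Δ (F.GG 𝒰 l') / F.GG 𝒰 l') • dd C (F.H 𝒰 p.1 p.2 l')) m]
        refine Finset.sum_subset ?_ ?_
        · intro l' hl'
          have h5 := p.1.2
          rw [Finset.mem_range] at hl' ⊢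
          omega
        · intro l' _ hl'
          rw [Finset.mem_range] at hl'
          rw [F.H_of_not 𝒰 (fun h => hl' h.1)]
          have h4 : dd C (0 : UK 𝒰 C) = 0 := by
            funext D
            exact map_zero D
          rw [h4, smul_zero]
      rw [F.nb_phi 𝒰 Δ p.1.2 p.2 hE, hOm, h2, h3, smul_add, smul_add, Finset.smul_sum,
        Finset.smul_sum, smul_comm (c (eq (Sum.inl p)))]
      congr 1
      · congr 1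
        refine Finset.sum_congr rfl fun o _ => ?_
        rw [smul_comm]
      · refine Finset.sum_congr rfl fun l' _ => ?_
        rw [smul_comm]
  refine ⟨τ, ?_, ?_⟩
  · have hz : ∀ (s : Finset (Fin (m + 1) × Bool)) (f : Fin (m + 1) × Bool → UK 𝒰 C),
        (∀ p, dV 𝒰 Δ (f p) = 0) →
        nb (dV 𝒰 Δ) (hdV 𝒰 Δ) (∑ p ∈ s, c' p • dd C (f p)) = 0 := by
      intro s f hf
      rw [map_sum]
      refine Finset.sum_eq_zero fun p _ => ?_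
      rw [map_smul, nb_const _ _ (hf p), smul_zero]
    rintro (_ | o | l')
    · exact hz _ _ fun p => F.dV_A 𝒰 Δ _ _
    · exact hz _ _ fun p => hU _ _ _
    · exact hz _ _ fun p => F.dV_H 𝒰 Δ _ _ _
  · have h1 : ∑ q : Fin ((m + 1) * (m + 4)), nb (dV 𝒰 Δ) (hdV 𝒰 Δ)
        (c q • (F.psi 𝒰 ∘ eq.symm) q) = ∑ q : Qi m, c (eq q) • nb (dV 𝒰 Δ) (hdV 𝒰 Δ) (F.psi 𝒰 q) := by
      rw [← Equiv.sum_comp eq]
      refine Finset.sum_congr rfl fun q _ => ?_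
      rw [map_smul, Function.comp_apply, Equiv.symm_apply_apply]
    have h2 : ∀ q : (Fin (m + 1) × Bool) ⊕ (Fin (m + 1) × Fin m),
        nb (dV 𝒰 Δ) (hdV 𝒰 Δ) (F.psi 𝒰 (Sum.inr q)) = 0 := by
      rintro (⟨l, b⟩ | ⟨i, k⟩)
      · exact nb_const _ _ (F.dV_A 𝒰 Δ l b)
      · refine nb_const _ _ ?_
        have hne : ¬ i = i.succAbove k := (Fin.succAbove_ne i k).symm
        unfold Fam.x
        simp only [mkPt, if_neg hne]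
        split_ifs
        · exact F.dV_H 𝒰 Δ _ _ _
        · exact F.dV_H 𝒰 Δ _ _ _
    rw [hc, h1, Fintype.sum_sum_type]
    have h3 : ∑ q : (Fin (m + 1) × Bool) ⊕ (Fin (m + 1) × Fin m), c (eq (Sum.inr q)) •
        nb (dV 𝒰 Δ) (hdV 𝒰 Δ) (F.psi 𝒰 (Sum.inr q)) = 0 :=
      Finset.sum_eq_zero fun q _ => by rw [h2, smul_zero]
    rw [h3, add_zero]
    have h4 : ∑ p : Fin (m + 1) × Bool, c (eq (Sum.inl p)) • nb (dV 𝒰 Δ) (hdV 𝒰 Δ)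
        (F.psi 𝒰 (Sum.inl p)) = (dV 𝒰 Δ (F.z 𝒰) / F.z 𝒰) • τ (Sum.inl ()) +
        ∑ o, θ o • τ (Sum.inr (Sum.inl o)) +
        ∑ l' : Fin m, (dV 𝒰 Δ (F.GG 𝒰 l') / F.GG 𝒰 l') • τ (Sum.inr (Sum.inr l')) := by
      have h5 : ∀ p : Fin (m + 1) × Bool, c (eq (Sum.inl p)) • nb (dV 𝒰 Δ) (hdV 𝒰 Δ)
        (F.psi 𝒰 (Sum.inl p)) = _ := hterm
      rw [Finset.sum_congr rfl fun p _ => h5 p, Finset.sum_add_distrib, Finset.sum_add_distrib]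
      congr 1
      · congr 1
        · rw [Finset.smul_sum]
        · rw [Finset.sum_comm]
          refine Finset.sum_congr rfl fun o _ => ?_
          rw [Finset.smul_sum]
      · rw [Finset.sum_comm]
        refine Finset.sum_congr rfl fun l' _ => ?_
        rw [Finset.smul_sum]
    rw [h4]
    refine Submodule.add_mem _ (Submodule.add_mem _ ?_ ?_) ?_
    · exact Submodule.smul_mem _ _ (Submodule.subset_span ⟨Sum.inl (), rfl⟩)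
    · exact Submodule.sum_mem _ fun o _ => Submodule.smul_mem _ _
        (Submodule.subset_span ⟨Sum.inr (Sum.inl o), rfl⟩)
    · exact Submodule.sum_mem _ fun l' _ => Submodule.smul_mem _ _
        (Submodule.subset_span ⟨Sum.inr (Sum.inr l'), rfl⟩)

include hP in
/-- **Two computations.** -/
theorem core_two {m₁ m₂ N g : ℕ} (F₁ : Fam κ C ι m₁) (F₂ : Fam κ C ι m₂)
    (hOm₁ : ∀ l b, dd C (F₁.Om 𝒰 Δ l b) ∈ ThH (dV 𝒰 Δ) (hdV 𝒰 Δ))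
    (θ : Fin g → UK 𝒰 C) (hθ : ∀ o, θ o ∈ Th (dV 𝒰 Δ)) (U : ℕ → Bool → Fin g → UK 𝒰 C)
    (hU : ∀ l b o, dV 𝒰 Δ (U l b o) = 0)
    (hOm₂ : ∀ l b, dd C (F₂.Om 𝒰 Δ l b) = ∑ o, θ o • dd C (U l b o))
    (e₀ e₁ : C) (x l : Fin N → C) (hlT : ∀ j, ∃ u : C, l j = Δ u / u)
    (hx : ∀ v : Fin N → C, (∀ i, Δ (v i) = 0) → ∑ i, v i * x i = 0 → ∑ i, v i * l i = 0 → v = 0)
    (b : ι → Fin N → C) (hb : ∀ i j, Δ (b i j) = 0)
    (hy₁ : ∀ i, F₁.y i = e₀ + ∑ j, b i j * x j)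
    (hy₂ : ∀ i, Δ (F₂.y i) / F₂.y i = e₁ + ∑ j, b i j * l j) :
    ∃ ρ : Fin ((m₁ + 1) * (m₁ + 4)) ⊕ (Unit ⊕ (Fin g ⊕ Fin m₂)) →
        Derivation C (UK 𝒰 C) (UK 𝒰 C) → UK 𝒰 C,
      ∀ j, dd C (bb 𝒰 b j) ∈ Submodule.span (UK 𝒰 C) (Set.range ρ) := by
  classical
  obtain ⟨ρ, hρ1, hρ2⟩ := exists_horizontal Δ hP 𝒰 F₁ hOm₁ e₀ x b hb hy₁
  obtain ⟨τ, hτ1, hτ2⟩ := exists_horizontal_two Δ hP 𝒰 F₂ θ hθ U hU hOm₂ e₁ l hlT b hb hy₂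
  refine ⟨Sum.elim ρ τ, mem_of_rows (derK (dV 𝒰 Δ)) (derK_const (dV 𝒰 Δ)) (nb (dV 𝒰 Δ) (hdV 𝒰 Δ))
    (nb_smul (dV 𝒰 Δ) (hdV 𝒰 Δ)) (Submodule.span (UK 𝒰 C) (Set.range (Sum.elim ρ τ)))
    (nb_stable (dV 𝒰 Δ) (hdV 𝒰 Δ) (by
      rintro _ ⟨q | q, rfl⟩
      · exact hρ1 q
      · exact hτ1 q))
    (fun i => dd C (bb 𝒰 b i)) (nb_bb Δ 𝒰 hb)
    {(fun i => algebraMap C (UK 𝒰 C) (x i)), (fun i => algebraMap C (UK 𝒰 C) (l i))}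
    (by
      rintro y (hy | hy)
      · rw [hy]
        refine Submodule.span_mono ?_ hρ2
        rintro _ ⟨q, rfl⟩
        exact ⟨Sum.inl q, rfl⟩
      · rw [Set.mem_singleton_iff.1 hy]
        refine Submodule.span_mono ?_ hτ2
        rintro _ ⟨q, rfl⟩
        exact ⟨Sum.inr q, rfl⟩)
    (by
      intro v hv
      exact transfer_indep 𝒰 (Δ.restrictScalars ℤ) x l hx v (hv _ (Or.inl rfl)) (hv _ (Or.inr rfl)))⟩

end CoreTwo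

end Pool.Agent.Zk44.UP
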