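import Mathlib
import Pool.Agent.Zk44.UP.CoreTwo
import Pool.Agent.Zk44.GE.Cube

/-!
# Families of computations with parameters, and the polynomial which vanishes on the bad combinations
-/

set_option autoImplicit false

namespace Pool.Agent.Zk44.UP

open MvPolynomial Filter
open Pool.Agent.R351 hiding tay tay_const
open Pool.Agent.Zk44.XO
open Pool.Agent.Zk44.GE (ExpLike)

section Bad

variable {κ C : Type} [Field κ] [Field C] [Algebra κ C]

/-- the numbers which are bad and for which the step `m` is the first which vanishes -/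
def BadAt (κ : Type) {C : Type} [Field κ] [Field C] [Algebra κ C] {g : ℕ} (t : Fin g → C) (m : ℕ)
    (y : C) : Prop :=
  ∃ (G : ℕ → Polynomial C) (c : ℕ → Bool → κ) (e : ℕ → Bool → Option (Fin g) → ℕ)
    (h : ℕ → Bool → ℕ → ℕ), (∀ l < m + 1, G l = ∑ b, Es (bt1 t) G c e h l b) ∧
    (∀ l < m, (G l).eval y = 0 → G l = 0) ∧ (G m).eval y = 0 ∧ G m ≠ 0

theorem exists_badAt {g L : ℕ} {t : Fin g → C} {y : C} (h : ¬ Good1 κ t L y) :
    ∃ m < L, BadAt κ t m y := by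
  classical
  unfold Good1 at h
  push Not at h
  obtain ⟨G, hG, l, hl, h0, hne⟩ := h
  have hex : ∃ l, l < L ∧ (G l).eval y = 0 ∧ G l ≠ 0 := ⟨l, hl, h0, hne⟩
  obtain ⟨h1, h2, h3⟩ := Nat.find_spec hex
  set m := Nat.find hex with hm
  obtain ⟨c, e, u, hG⟩ := hG
  refine ⟨m, h1, G, c, e, u, fun l hl => hG l (by omega), fun l hl h4 => ?_, h2, h3⟩
  by_contra h5
  exact Nat.find_min hex hl ⟨hl.trans h1, h4, h5⟩

end Bad

section Families

variable {κ C : Type} [Field κ] [Field C] [Algebra κ C] (Δ : Derivation κ C C)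
  {ι : Type} (𝒰 : Ultrafilter ι)

/-- fixed parameters -/
theorem exists_fam_plain {g m : ℕ} {t : Fin g → C} (y : ι → C) (hy : ∀ i, y i ≠ 0)
    (h : ∀ i, BadAt κ t m (y i)) : ∃ F : Fam κ C ι m, F.y = y ∧
    ∃ U : ℕ → Bool → Fin g → UK 𝒰 C, (∀ l b o, dV 𝒰 Δ (U l b o) = 0) ∧
      ∀ l b, dd C (F.Om 𝒰 Δ l b) =
        ∑ o, algebraMap C (UK 𝒰 C) (Δ (t o) / t o) • dd C (U l b o) := by
  choose G c e u h1 h2 h3 h4 using h
  refine ⟨⟨fun _ => g, fun _ => t, y, G, c, e, u, hy, h1, h2, h3, h4⟩, rfl,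
    fun l b o => cl 𝒰 (fun i => ((e i l b (some o) : ℕ) : C)), fun l b o => dV_nat 𝒰 Δ _,
    fun l b => ?_⟩
  have h5 : cl 𝒰 (fun i => ∑ o, ((e i l b (some o) : ℕ) : C) * (Δ (t o) / t o)) =
      ∑ o, cl 𝒰 (fun i => ((e i l b (some o) : ℕ) : C)) * algebraMap C (UK 𝒰 C) (Δ (t o) / t o) := by
    have h6 : (fun i => ∑ o, ((e i l b (some o) : ℕ) : C) * (Δ (t o) / t o)) =
        ∑ o, (fun i => ((e i l b (some o) : ℕ) : C)) * (fun _ => Δ (t o) / t o) := by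
      funext i
      rw [Finset.sum_apply]
      rfl
    rw [h6, map_sum]
    refine Finset.sum_congr rfl fun o _ => ?_
    rw [map_mul]
    rfl
  show dd C (cl 𝒰 (fun i => ∑ o, ((e i l b (some o) : ℕ) : C) * (Δ (t o) / t o))) = _
  rw [h5, dd_sum]
  refine Finset.sum_congr rfl fun o _ => ?_
  rw [dd_mul, dd_algebraMap, smul_zero, zero_add]

/-- fixed parameters and varying exponentials -/
theorem exists_fam_exp {g m : ℕ} {t : Fin g → C} (y : ι → C) (hy : ∀ i, y i ≠ 0)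
    (h : ∀ i, ∃ (hh : ℕ) (u : Fin hh → C), ExpLike Δ u ∧ BadAt κ (Fin.append u t) m (y i)) :
    ∃ F : Fam κ C ι m, F.y = y ∧
    ∃ (W : ℕ → Bool → UK 𝒰 C) (U : ℕ → Bool → Fin g → UK 𝒰 C), (∀ l b, dV 𝒰 Δ (W l b) = 0) ∧
      (∀ l b o, dV 𝒰 Δ (U l b o) = 0) ∧ ∀ l b, dd C (F.Om 𝒰 Δ l b) =
        dd C (W l b) + ∑ o, algebraMap C (UK 𝒰 C) (Δ (t o) / t o) • dd C (U l b o) := by
  choose hh u hu G c e k h1 h2 h3 h4 using h
  choose hu0 γ hγ using hu
  refine ⟨⟨fun i => hh i + g, fun i => Fin.append (u i) t, y, G, c, e, k, hy, h1, h2, h3, h4⟩, rfl,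
    fun l b => cl 𝒰 (fun i => ∑ o, ((e i l b (some (Fin.castAdd g o)) : ℕ) : C) *
      algebraMap κ C (γ i o)),
    fun l b o => cl 𝒰 (fun i => ((e i l b (some (Fin.natAdd (hh i) o)) : ℕ) : C)), fun l b => ?_,
    fun l b o => dV_nat 𝒰 Δ _, fun l b => ?_⟩
  · show cl 𝒰 (fun i => Δ (∑ o, ((e i l b (some (Fin.castAdd g o)) : ℕ) : C) *
      algebraMap κ C (γ i o))) = 0
    have h5 : (fun i => Δ (∑ o, ((e i l b (some (Fin.castAdd g o)) : ℕ) : C) *
        algebraMap κ C (γ i o))) = fun _ => 0 := by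
      funext i
      rw [map_sum]
      refine Finset.sum_eq_zero fun o _ => ?_
      rw [Derivation.leibniz, Derivation.map_natCast, Derivation.map_algebraMap, smul_zero,
        smul_zero, add_zero]
    rw [h5]
    exact map_zero (cl 𝒰)
  · have h5 : cl 𝒰 (fun i => ∑ o, ((e i l b (some o) : ℕ) : C) *
        (Δ (Fin.append (u i) t o) / Fin.append (u i) t o)) =
        cl 𝒰 (fun i => ∑ o, ((e i l b (some (Fin.castAdd g o)) : ℕ) : C) * algebraMap κ C (γ i o)) +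
        ∑ o, cl 𝒰 (fun i => ((e i l b (some (Fin.natAdd (hh i) o)) : ℕ) : C)) *
          algebraMap C (UK 𝒰 C) (Δ (t o) / t o) := by
      have h6 : (fun i => ∑ o, ((e i l b (some o) : ℕ) : C) *
          (Δ (Fin.append (u i) t o) / Fin.append (u i) t o)) =
          (fun i => ∑ o, ((e i l b (some (Fin.castAdd g o)) : ℕ) : C) * algebraMap κ C (γ i o)) +
          ∑ o, (fun i => ((e i l b (some (Fin.natAdd (hh i) o)) : ℕ) : C)) *
            (fun _ => Δ (t o) / t o) := by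
        funext i
        rw [Pi.add_apply, Finset.sum_apply, Fin.sum_univ_add]
        congr 1
        · refine Finset.sum_congr rfl fun o _ => ?_
          rw [Fin.append_left, hγ, mul_div_cancel_right₀ _ (hu0 i o)]
        · refine Finset.sum_congr rfl fun o _ => ?_
          rw [Fin.append_right]
          rfl
      rw [h6, map_add, map_sum]
      congr 1
    show dd C (cl 𝒰 (fun i => ∑ o, ((e i l b (some o) : ℕ) : C) *
        (Δ (Fin.append (u i) t o) / Fin.append (u i) t o))) = _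
    rw [h5, dd_add, dd_sum]
    congr 1
    refine Finset.sum_congr rfl fun o _ => ?_
    rw [dd_mul, dd_algebraMap, smul_zero, zero_add]

end Families

section Poly

variable {κ C : Type} [Field κ] [Field C] [CharZero C] [Algebra κ C] (Δ : Derivation κ C C)
  (hP : ∀ (n : ℕ) (c y : Fin n → C) (r : C), (∀ j, Δ (c j) = 0) →
      Δ r = ∑ j, c j * (Δ (y j) / y j) → Δ r = 0)

include hP in
/-- **One step.** -/
theorem poly_step {m N : ℕ} (e₀ : C) (x : Fin N → C)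
    (hx : ∀ v : Fin N → C, (∀ i, Δ (v i) = 0) → ∑ i, v i * x i = 0 → v = 0)
    (S : Set (Fin N → C)) (hb : ∀ b ∈ S, ∀ i, Δ (b i) = 0)
    (hfam : ∀ 𝒰 : Ultrafilter S, ∃ F : Fam κ C S m,
      (∀ b : S, F.y b = e₀ + ∑ j, (b : Fin N → C) j * x j) ∧
      ∀ l b, dd C (F.Om 𝒰 Δ l b) ∈ ThH (dV 𝒰 Δ) (hdV 𝒰 Δ)) (hN : (m + 1) * (m + 4) < N) :
    ∃ f : MvPolynomial (Fin N) C, f ≠ 0 ∧ ∀ b ∈ S, eval b f = 0 := by
  classical
  by_contra hcon
  push Not at hcon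
  obtain ⟨𝒰, h𝒰⟩ := exists_ultrafilter S hcon
  obtain ⟨F, hF1, hF2⟩ := hfam 𝒰
  obtain ⟨ρ, hρ⟩ := core_one Δ hP 𝒰 F hF2 e₀ x hx (fun b : S => (b : Fin N → C))
    (fun b => hb b b.2) hF1
  have h3 := le_of_mem 𝒰 h𝒰 ρ hρ
  rw [Fintype.card_fin] at h3
  omega

include hP in
/-- **One step for two computations.** -/
theorem poly_step_two {m₁ m₂ N g : ℕ} (e₀ e₁ : C) (x l : Fin N → C)
    (hlT : ∀ j, ∃ u : C, l j = Δ u / u)
    (hx : ∀ v : Fin N → C, (∀ i, Δ (v i) = 0) → ∑ i, v i * x i = 0 → ∑ i, v i * l i = 0 → v = 0)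
    (t : Fin g → C) (S : Set (Fin N → C)) (hb : ∀ b ∈ S, ∀ i, Δ (b i) = 0) (Y : S → C)
    (hS : ∀ b : S, e₀ + ∑ j, (b : Fin N → C) j * x j ≠ 0 ∧
      BadAt κ t m₁ (e₀ + ∑ j, (b : Fin N → C) j * x j) ∧ Y b ≠ 0 ∧
      Δ (Y b) / Y b = e₁ + ∑ j, (b : Fin N → C) j * l j ∧ BadAt κ t m₂ (Y b))
    (hN : (m₁ + 1) * (m₁ + 4) + (1 + (g + m₂)) < N) :
    ∃ f : MvPolynomial (Fin N) C, f ≠ 0 ∧ ∀ b ∈ S, eval b f = 0 := by
  classical
  by_contra hcon
  push Not at hcon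
  obtain ⟨𝒰, h𝒰⟩ := exists_ultrafilter S hcon
  obtain ⟨F₁, hF₁, U₁, hU₁, hOm₁⟩ := exists_fam_plain (κ := κ) Δ 𝒰 (t := t) (m := m₁)
    (fun b : S => e₀ + ∑ j, (b : Fin N → C) j * x j) (fun b => (hS b).1) (fun b => (hS b).2.1)
  obtain ⟨F₂, hF₂, U₂, hU₂, hOm₂⟩ := exists_fam_plain (κ := κ) Δ 𝒰 (t := t) (m := m₂)
    Y (fun b => (hS b).2.2.1) (fun b => (hS b).2.2.2.2)
  obtain ⟨ρ, hρ⟩ := core_two Δ hP 𝒰 F₁ F₂ (fun l b => by
      rw [hOm₁]
      exact Submodule.sum_mem _ fun o _ => Submodule.subset_span ⟨_, algebraMap_mem_Th Δ 𝒰 (t o), _,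
        nb_const _ _ (hU₁ l b o), rfl⟩)
    (fun o => algebraMap C (UK 𝒰 C) (Δ (t o) / t o)) (fun o => algebraMap_mem_Th Δ 𝒰 (t o)) U₂ hU₂
    hOm₂ e₀ e₁ x l hlT hx (fun b : S => (b : Fin N → C)) (fun b => hb b b.2)
    (fun b => congrFun hF₁ b) (fun b => by
      rw [hF₂]
      exact (hS b).2.2.2.1)
  have h3 := le_of_mem 𝒰 h𝒰 ρ hρ
  rw [Fintype.card_sum, Fintype.card_sum, Fintype.card_sum, Fintype.card_fin, Fintype.card_fin,
    Fintype.card_fin, Fintype.card_unit] at h3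
  omega

include hP in
/-- **The bad combinations satisfy an algebraic relation.** -/
theorem poly_one {g L N : ℕ} (t : Fin g → C) (e₀ : C) (x : Fin N → C)
    (hx : ∀ v : Fin N → C, (∀ i, Δ (v i) = 0) → ∑ i, v i * x i = 0 → v = 0)
    (S : Set (Fin N → C)) (hS : ∀ b ∈ S, (∀ i, Δ (b i) = 0) ∧ e₀ + ∑ i, b i * x i ≠ 0 ∧
      ¬ Good1 κ t L (e₀ + ∑ i, b i * x i)) (hN : L * (L + 3) < N) :
    ∃ f : MvPolynomial (Fin N) C, f ≠ 0 ∧ ∀ b ∈ S, eval b f = 0 := by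
  classical
  have h1 : ∀ m : ℕ, ∃ f : MvPolynomial (Fin N) C, f ≠ 0 ∧ (m < L → ∀ b ∈ S,
      BadAt κ t m (e₀ + ∑ i, b i * x i) → eval b f = 0) := by
    intro m
    by_cases hm : m < L
    · obtain ⟨f, hf0, hf⟩ := poly_step Δ hP (m := m) e₀ x hx
        {b | b ∈ S ∧ BadAt κ t m (e₀ + ∑ i, b i * x i)} (fun b hb => (hS b hb.1).1)
        (fun 𝒰 => by
          obtain ⟨F, hF, U, hU, hOm⟩ := exists_fam_plain (κ := κ) Δ 𝒰 (t := t) (m := m)
            (fun b : {b | b ∈ S ∧ BadAt κ t m (e₀ + ∑ i, b i * x i)} =>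
              e₀ + ∑ j, (b : Fin N → C) j * x j) (fun b => (hS b b.2.1).2.1) (fun b => b.2.2)
          refine ⟨F, fun b => congrFun hF b, fun l b => ?_⟩
          rw [hOm]
          exact Submodule.sum_mem _ fun o _ => Submodule.subset_span
            ⟨_, algebraMap_mem_Th Δ 𝒰 (t o), _, nb_const _ _ (hU l b o), rfl⟩) (by
          refine lt_of_le_of_lt ?_ hN
          have : m + 1 ≤ L := hm
          exact Nat.mul_le_mul this (by omega))
      exact ⟨f, hf0, fun _ b hb hbad => hf b ⟨hb, hbad⟩⟩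
    · exact ⟨1, one_ne_zero, fun h => absurd h hm⟩
  choose f hf0 hf using h1
  refine ⟨∏ m ∈ Finset.range L, f m, Finset.prod_ne_zero_iff.2 fun m _ => hf0 m, fun b hb => ?_⟩
  obtain ⟨m, hm, hbad⟩ := exists_badAt (hS b hb).2.2
  rw [map_prod]
  exact Finset.prod_eq_zero (Finset.mem_range.2 hm) (hf m hm b hb hbad)

include hP in
/-- **The bad combinations satisfy an algebraic relation**: all exponentials. -/
theorem poly_exp (hone : ∃ u : C, u ≠ 0 ∧ Δ u = u) {g L N : ℕ} (t : Fin g → C) (e₀ : C)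
    (x : Fin N → C)
    (hx : ∀ v : Fin N → C, (∀ i, Δ (v i) = 0) → ∑ i, v i * x i = 0 → v = 0)
    (S : Set (Fin N → C)) (hS : ∀ b ∈ S, (∀ i, Δ (b i) = 0) ∧ e₀ + ∑ i, b i * x i ≠ 0 ∧
      ∃ (hh : ℕ) (u : Fin hh → C), ExpLike Δ u ∧
        ¬ Good1 κ (Fin.append u t) L (e₀ + ∑ i, b i * x i)) (hN : L * (L + 3) < N) :
    ∃ f : MvPolynomial (Fin N) C, f ≠ 0 ∧ ∀ b ∈ S, eval b f = 0 := by
  classical
  have h1 : ∀ m : ℕ, ∃ f : MvPolynomial (Fin N) C, f ≠ 0 ∧ (m < L → ∀ b ∈ S,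
      (∃ (hh : ℕ) (u : Fin hh → C), ExpLike Δ u ∧
        BadAt κ (Fin.append u t) m (e₀ + ∑ i, b i * x i)) → eval b f = 0) := by
    intro m
    by_cases hm : m < L
    · obtain ⟨f, hf0, hf⟩ := poly_step Δ hP (m := m) e₀ x hx
        {b | b ∈ S ∧ ∃ (hh : ℕ) (u : Fin hh → C), ExpLike Δ u ∧
          BadAt κ (Fin.append u t) m (e₀ + ∑ i, b i * x i)} (fun b hb => (hS b hb.1).1)
        (fun 𝒰 => by
          obtain ⟨F, hF, W, U, hW, hU, hOm⟩ := exists_fam_exp (κ := κ) Δ 𝒰 (t := t) (m := m)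
            (fun b : {b | b ∈ S ∧ ∃ (hh : ℕ) (u : Fin hh → C), ExpLike Δ u ∧
              BadAt κ (Fin.append u t) m (e₀ + ∑ i, b i * x i)} =>
              e₀ + ∑ j, (b : Fin N → C) j * x j) (fun b => (hS b b.2.1).2.1) (fun b => b.2.2)
          refine ⟨F, fun b => congrFun hF b, fun l b => ?_⟩
          rw [hOm]
          refine Submodule.add_mem _ ?_ (Submodule.sum_mem _ fun o _ => Submodule.subset_span
            ⟨_, algebraMap_mem_Th Δ 𝒰 (t o), _, nb_const _ _ (hU l b o), rfl⟩)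
          obtain ⟨u, hu0, hu⟩ := hone
          refine Submodule.subset_span ⟨1, ?_, _, nb_const _ _ (hW l b), (one_smul _ _).symm⟩
          have h2 := algebraMap_mem_Th Δ 𝒰 u
          rw [hu, div_self hu0, map_one] at h2
          exact h2) (by
          refine lt_of_le_of_lt ?_ hN
          have : m + 1 ≤ L := hm
          exact Nat.mul_le_mul this (by omega))
      exact ⟨f, hf0, fun _ b hb hbad => hf b ⟨hb, hbad⟩⟩
    · exact ⟨1, one_ne_zero, fun h => absurd h hm⟩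
  choose f hf0 hf using h1
  refine ⟨∏ m ∈ Finset.range L, f m, Finset.prod_ne_zero_iff.2 fun m _ => hf0 m, fun b hb => ?_⟩
  obtain ⟨-, -, hh, u, hu, hbad0⟩ := hS b hb
  obtain ⟨m, hm, hbad⟩ := exists_badAt hbad0
  rw [map_prod]
  exact Finset.prod_eq_zero (Finset.mem_range.2 hm) (hf m hm b hb ⟨hh, u, hu, hbad⟩)

end Poly

end Pool.Agent.Zk44.UP
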