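import Mathlib
import Pool.Agent.Zk44.UP.Params

/-!
# Generic points of sets of bad combinations
-/

set_option autoImplicit false

namespace Pool.Agent.Zk44.UP

open MvPolynomial Filter
open Pool.Agent.R351 hiding tay tay_const
open Pool.Agent.Zk44.XO

section Gen

variable {κ C : Type} [Field κ] [Field C] [CharZero C] [Algebra κ C] (Δ : Derivation κ C C)
  (hP : ∀ (n : ℕ) (c y : Fin n → C) (r : C), (∀ j, Δ (c j) = 0) →
      Δ r = ∑ j, c j * (Δ (y j) / y j) → Δ r = 0)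

include hP in
/-- **Numbers of independent parameters of bad combinations whose exponentials are bad.** -/
theorem gen_two {M N g L : ℕ} (e₀ e₁ : C) (x l : Fin N → C)
    (hlT : ∀ j, ∃ u : C, l j = Δ u / u)
    (hx : ∀ v : Fin N → C, (∀ i, Δ (v i) = 0) → ∑ i, v i * x i = 0 → ∑ i, v i * l i = 0 → v = 0)
    (t : Fin g → C) (S : Set (Fin M → C))
    (hS : ∀ f : MvPolynomial (Fin M) C, f ≠ 0 → ∃ s ∈ S, eval s f ≠ 0)
    (b : (Fin M → C) → Fin N → C) (hb : ∀ s ∈ S, ∀ i, Δ (b s i) = 0) (Y : (Fin M → C) → C)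
    (hbad : ∀ s ∈ S, e₀ + ∑ j, b s j * x j ≠ 0 ∧ ¬ Good1 κ t L (e₀ + ∑ j, b s j * x j) ∧
      Y s ≠ 0 ∧ Δ (Y s) / Y s = e₁ + ∑ j, b s j * l j ∧ ¬ Good1 κ t L (Y s))
    (hw : ∀ S' ⊆ S, ∀ (𝒰 : Ultrafilter S')
      (W : Submodule (UK 𝒰 C) (Derivation C (UK 𝒰 C) (UK 𝒰 C) → UK 𝒰 C)),
      (∀ j, dd C (bb 𝒰 (fun s : S' => b s) j) ∈ W) → ∀ i, dd C (bs 𝒰 i) ∈ W) :
    M ≤ L * (L + 4) + g := by
  classical
  by_contra hM
  have h1 : ∀ m : ℕ × ℕ, ∃ f : MvPolynomial (Fin M) C, f ≠ 0 ∧ (m.1 < L → m.2 < L → ∀ s ∈ S,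
      BadAt κ t m.1 (e₀ + ∑ j, b s j * x j) → BadAt κ t m.2 (Y s) → eval s f = 0) := by
    rintro ⟨m₁, m₂⟩
    by_cases hm : m₁ < L ∧ m₂ < L
    · by_contra hcon
      push Not at hcon
      set S' := {s | s ∈ S ∧ BadAt κ t m₁ (e₀ + ∑ j, b s j * x j) ∧ BadAt κ t m₂ (Y s)} with hS'
      obtain ⟨𝒰, h𝒰⟩ := exists_ultrafilter S' (by
        intro f hf
        obtain ⟨-, -, s, h1, h2, h3, h4⟩ := hcon f hf
        exact ⟨s, ⟨h1, h2, h3⟩, h4⟩)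
      obtain ⟨F₁, hF₁, U₁, hU₁, hOm₁⟩ := exists_fam_plain (κ := κ) Δ 𝒰 (t := t) (m := m₁)
        (fun s : S' => e₀ + ∑ j, b s j * x j) (fun s => (hbad s s.2.1).1) (fun s => s.2.2.1)
      obtain ⟨F₂, hF₂, U₂, hU₂, hOm₂⟩ := exists_fam_plain (κ := κ) Δ 𝒰 (t := t) (m := m₂)
        (fun s : S' => Y s) (fun s => (hbad s s.2.1).2.2.1) (fun s => s.2.2.2)
      obtain ⟨ρ, hρ⟩ := core_two Δ hP 𝒰 F₁ F₂ (fun l b => by
          rw [hOm₁]
          exact Submodule.sum_mem _ fun o _ => Submodule.subset_span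
            ⟨_, algebraMap_mem_Th Δ 𝒰 (t o), _, nb_const _ _ (hU₁ l b o), rfl⟩)
        (fun o => algebraMap C (UK 𝒰 C) (Δ (t o) / t o)) (fun o => algebraMap_mem_Th Δ 𝒰 (t o)) U₂
        hU₂ hOm₂ e₀ e₁ x l hlT hx (fun s : S' => b s) (fun s => hb s s.2.1)
        (fun s => congrFun hF₁ s) (fun s => by
          rw [hF₂]
          exact (hbad s s.2.1).2.2.2.1)
      have h2 := hw S' (fun s hs => hs.1) 𝒰 (Submodule.span (UK 𝒰 C) (Set.range ρ)) hρ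
      have h3 := le_of_mem 𝒰 h𝒰 ρ h2
      rw [Fintype.card_sum, Fintype.card_sum, Fintype.card_sum, Fintype.card_fin, Fintype.card_fin,
        Fintype.card_fin, Fintype.card_unit] at h3
      have h4 : (m₁ + 1) * (m₁ + 4) ≤ L * (L + 3) := Nat.mul_le_mul (by omega) (by omega)
      have h5 : L * (L + 4) = L * (L + 3) + L := by ring
      omega
    · refine ⟨1, one_ne_zero, fun h1 h2 => absurd ⟨h1, h2⟩ hm⟩
  choose f hf0 hf using h1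
  obtain ⟨s, hs, hfs⟩ := hS (∏ m ∈ Finset.range L ×ˢ Finset.range L, f m)
    (Finset.prod_ne_zero_iff.2 fun m _ => hf0 m)
  apply hfs
  obtain ⟨m₁, hm₁, hbad₁⟩ := exists_badAt (hbad s hs).2.1
  obtain ⟨m₂, hm₂, hbad₂⟩ := exists_badAt (hbad s hs).2.2.2.2
  rw [map_prod]
  exact Finset.prod_eq_zero (i := (m₁, m₂)) (Finset.mem_product.2
    ⟨Finset.mem_range.2 hm₁, Finset.mem_range.2 hm₂⟩) (hf _ hm₁ hm₂ s hs hbad₁ hbad₂)

include hP in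
/-- **The bad combinations with bad exponentials satisfy an algebraic relation.** -/
theorem poly_two {N g L : ℕ} (e₀ e₁ : C) (x l : Fin N → C)
    (hlT : ∀ j, ∃ u : C, l j = Δ u / u)
    (hx : ∀ v : Fin N → C, (∀ i, Δ (v i) = 0) → ∑ i, v i * x i = 0 → ∑ i, v i * l i = 0 → v = 0)
    (t : Fin g → C) (S : Set (Fin N → C)) (hb : ∀ b ∈ S, ∀ i, Δ (b i) = 0) (Y : (Fin N → C) → C)
    (hbad : ∀ b ∈ S, e₀ + ∑ j, b j * x j ≠ 0 ∧ ¬ Good1 κ t L (e₀ + ∑ j, b j * x j) ∧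
      Y b ≠ 0 ∧ Δ (Y b) / Y b = e₁ + ∑ j, b j * l j ∧ ¬ Good1 κ t L (Y b))
    (hN : L * (L + 4) + g < N) :
    ∃ f : MvPolynomial (Fin N) C, f ≠ 0 ∧ ∀ b ∈ S, eval b f = 0 := by
  by_contra hcon
  push Not at hcon
  have h1 := gen_two Δ hP e₀ e₁ x l hlT hx t S hcon (fun b => b) hb Y hbad
    (fun S' _ 𝒰 W h => h)
  omega

end Gen

end Pool.Agent.Zk44.UP
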