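import Mathlib
import Pool.Agent.Zk44.XO.Space

/-!
# Choosing the elements of a basis one after the other
-/

set_option autoImplicit false

namespace Pool.Agent.Zk44.UP

open Module
open Pool.Agent.R351 hiding tay tay_const

section Rational

/-- A polynomial which does not vanish at a rational point. -/
theorem exists_rat {N : ℕ} {f : MvPolynomial (Fin N) ℂ} (hf : f ≠ 0) :
    ∃ b : Fin N → ℚ, MvPolynomial.eval (fun i => (b i : ℂ)) f ≠ 0 := by
  by_contra hcon
  push Not at hcon
  apply hf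
  apply MvPolynomial.funext_set (fun _ : Fin N => Set.range (fun q : ℚ => (q : ℂ)))
  · intro i
    exact Set.infinite_range_of_injective Rat.cast_injective
  · intro z hz
    have h3 : ∀ i, ∃ a : ℚ, (a : ℂ) = z i := fun i => hz i (Set.mem_univ _)
    choose a ha using h3
    have h4 : z = fun i => (a i : ℂ) := by
      funext i
      exact (ha i).symm
    rw [map_zero, h4, hcon a]

/-- A linear form which vanishes on a proper subspace. -/
theorem exists_lin {M : ℕ} (A : Submodule ℚ (Fin M → ℚ)) (hA : A ≠ ⊤) :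
    ∃ l : MvPolynomial (Fin M) ℂ, l ≠ 0 ∧ ∀ b ∈ A, MvPolynomial.eval (fun i => (b i : ℂ)) l = 0 := by
  classical
  obtain ⟨f, hf0, hf⟩ := Submodule.exists_le_ker_of_lt_top A (lt_top_iff_ne_top.2 hA)
  have hfb : ∀ b : Fin M → ℚ, f b = ∑ i, b i * f (Pi.single i 1) := by
    intro b
    have h1 := f.pi_apply_eq_sum_univ b
    rw [h1]
    refine Finset.sum_congr rfl fun i _ => ?_
    rw [smul_eq_mul]
    congr 2
    funext j
    rw [Pi.single_apply]
    split_ifs with h h' h' <;> first | rfl | (exact absurd h.symm h') | (exact absurd h'.symm h)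
  refine ⟨∑ i, MvPolynomial.C ((f (Pi.single i 1) : ℚ) : ℂ) * MvPolynomial.X i, ?_, ?_⟩
  · intro h0
    apply hf0
    apply LinearMap.ext
    intro b
    rw [hfb, LinearMap.zero_apply]
    have h1 := congrArg (MvPolynomial.eval (fun i => (b i : ℂ))) h0
    rw [map_sum, map_zero] at h1
    simp only [map_mul, MvPolynomial.eval_C, MvPolynomial.eval_X] at h1
    have h2 : ((∑ i, b i * f (Pi.single i 1) : ℚ) : ℂ) = 0 := by
      push_cast
      rw [← h1]
      exact Finset.sum_congr rfl fun i _ => mul_comm _ _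
    exact_mod_cast h2
  · intro b hb
    have h1 : f b = 0 := hf hb
    rw [hfb] at h1
    rw [map_sum]
    simp only [map_mul, MvPolynomial.eval_C, MvPolynomial.eval_X]
    have h2 : ((∑ i, b i * f (Pi.single i 1) : ℚ) : ℂ) = 0 := by rw [h1, Rat.cast_zero]
    push_cast at h2
    rw [← h2]
    exact Finset.sum_congr rfl fun i _ => mul_comm _ _

end Rational

section Greedy

variable (V : Submodule ℚ ℂ) (P : ℕ → ℕ) (Q : (g : ℕ) → (Fin g → ℂ) → ℂ → Prop)
  (hpoly : ∀ (g N : ℕ) (t : Fin g → ℂ) (e₀ : ℂ) (x : Fin N → ℂ), (∀ i, x i ∈ V) →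
    LinearIndependent ℚ x → P g < N → ∃ f : MvPolynomial (Fin N) ℂ, f ≠ 0 ∧ ∀ b : Fin N → ℚ,
      e₀ + ∑ i, (b i : ℂ) * x i ≠ 0 → ¬ Q g t (e₀ + ∑ i, (b i : ℂ) * x i) →
        MvPolynomial.eval (fun i => (b i : ℂ)) f = 0)

include hpoly in
/-- a good element outside of the space which is spanned by the earlier elements -/
theorem stage_small {N g M : ℕ} (t : Fin g → ℂ) (p : Fin N → ℂ) (x : Fin M → ℂ)
    (hxV : ∀ i, x i ∈ V) (hx : LinearIndependent ℚ x) (hPM : P g < M) (hNM : N < M) :
    ∃ w ∈ V, w ∉ Submodule.span ℚ (Set.range p) ∧ Q g t w := by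
  classical
  obtain ⟨f, hf0, hf⟩ := hpoly g M t 0 x hxV hx hPM
  let T : (Fin M → ℚ) →ₗ[ℚ] ℂ := Fintype.linearCombination ℚ x
  have hT : ∀ b, T b = ∑ i, (b i : ℂ) * x i := by
    intro b
    show Fintype.linearCombination ℚ x b = _
    rw [Fintype.linearCombination_apply]
    exact Finset.sum_congr rfl fun i _ => Rat.smul_def _ _
  have hTinj : Function.Injective T := by
    rw [← LinearMap.ker_eq_bot, LinearMap.ker_eq_bot']
    intro b hb
    rw [hT] at hb
    funext i
    refine Fintype.linearIndependent_iff.1 hx b ?_ i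
    rw [← hb]
    exact Finset.sum_congr rfl fun i _ => Rat.smul_def _ _
  let A : Submodule ℚ (Fin M → ℚ) := (Submodule.span ℚ (Set.range p)).comap T
  have hA : A ≠ ⊤ := by
    intro hA
    have h1 : LinearMap.range T ≤ Submodule.span ℚ (Set.range p) := by
      rintro _ ⟨b, rfl⟩
      have : b ∈ A := by rw [hA]; exact Submodule.mem_top
      exact this
    have hfin : Module.Finite ℚ (Submodule.span ℚ (Set.range p)) :=
      FiniteDimensional.span_of_finite _ (Set.finite_range _)
    have h2 := Submodule.finrank_mono h1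
    have h3 := LinearMap.finrank_range_of_inj hTinj
    rw [Module.finrank_fin_fun] at h3
    have h4 : finrank ℚ (Submodule.span ℚ (Set.range p)) ≤ N :=
      (finrank_range_le_card p).trans (by rw [Fintype.card_fin])
    omega
  obtain ⟨l, hl0, hl⟩ := exists_lin A hA
  obtain ⟨b, hb⟩ := exists_rat (mul_ne_zero hf0 hl0)
  rw [map_mul] at hb
  have hbA : b ∉ A := fun h => right_ne_zero_of_mul hb (hl b h)
  refine ⟨T b, ?_, hbA, ?_⟩
  · rw [hT]
    refine Submodule.sum_mem _ fun i _ => ?_
    rw [← Rat.smul_def]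
    exact V.smul_mem _ (hxV i)
  · by_contra hQ
    have h0 : (0 : ℂ) + ∑ i, (b i : ℂ) * x i ≠ 0 := by
      rw [zero_add, ← hT]
      intro h0
      apply hbA
      show T b ∈ Submodule.span ℚ (Set.range p)
      rw [h0]
      exact Submodule.zero_mem _
    refine left_ne_zero_of_mul hb (hf b h0 ?_)
    rw [zero_add, ← hT]
    exact hQ

include hpoly in
/-- a good element which adds a given element to the space -/
theorem stage_big {N g : ℕ} (t : Fin g → ℂ) (p : Fin N → ℂ) (hpV : ∀ i, p i ∈ V)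
    (hp : LinearIndependent ℚ p) (hPN : P g < N) {v : ℂ} (hvV : v ∈ V)
    (hv : v ∉ Submodule.span ℚ (Set.range p)) :
    ∃ w ∈ V, w ∉ Submodule.span ℚ (Set.range p) ∧ Q g t w ∧
      v ∈ Submodule.span ℚ (insert w (Set.range p)) := by
  classical
  obtain ⟨f, hf0, hf⟩ := hpoly g N t v p hpV hp hPN
  obtain ⟨b, hb⟩ := exists_rat hf0
  have hs : ∑ i, (b i : ℂ) * p i ∈ Submodule.span ℚ (Set.range p) := by
    refine Submodule.sum_mem _ fun i _ => ?_
    rw [← Rat.smul_def]
    exact Submodule.smul_mem _ _ (Submodule.subset_span ⟨i, rfl⟩)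
  have hsV : ∑ i, (b i : ℂ) * p i ∈ V := by
    refine Submodule.sum_mem _ fun i _ => ?_
    rw [← Rat.smul_def]
    exact V.smul_mem _ (hpV i)
  have hw : v + ∑ i, (b i : ℂ) * p i ∉ Submodule.span ℚ (Set.range p) := by
    intro h
    apply hv
    have h1 := Submodule.sub_mem _ h hs
    rwa [add_sub_cancel_right] at h1
  refine ⟨v + ∑ i, (b i : ℂ) * p i, V.add_mem hvV hsV, hw, ?_, ?_⟩
  · by_contra hQ
    refine hb (hf b (fun h0 => hw ?_) hQ)
    rw [h0]
    exact Submodule.zero_mem _
  · have h2 := Submodule.sub_mem _ (Submodule.subset_span (Set.mem_insert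
      (v + ∑ i, (b i : ℂ) * p i) (Set.range p)))
      (Submodule.span_mono (Set.subset_insert (v + ∑ i, (b i : ℂ) * p i) _) hs)
    rwa [add_sub_cancel_right] at h2

end Greedy

end Pool.Agent.Zk44.UP
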