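import Mathlib
import Pool.Agent.Zk44.UP.Greedy

/-!
# Bases whose elements are good over the earlier elements
-/

set_option autoImplicit false

namespace Pool.Agent.Zk44.UP

open Module
open Pool.Agent.R351 hiding tay tay_const
open Pool.Agent.Zk44.DT (exists_seq)

/-- Each of the first `N` numbers is good over the earlier ones and the parameters. -/
def TW (Q : (g : ℕ) → (Fin g → ℂ) → ℂ → Prop) {g : ℕ} (t : Fin g → ℂ) (N : ℕ) (z : ℕ → ℂ) : Prop :=
  ∀ j < N, Q (j + g) (Fin.append (fun i : Fin j => z i) t) (z j)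

section

variable (V : Submodule ℚ ℂ) (P : ℕ) (Q : (g : ℕ) → (Fin g → ℂ) → ℂ → Prop)
  (hpoly : ∀ (g N : ℕ) (t : Fin g → ℂ) (e₀ : ℂ) (x : Fin N → ℂ), (∀ i, x i ∈ V) →
    LinearIndependent ℚ x → P < N → ∃ f : MvPolynomial (Fin N) ℂ, f ≠ 0 ∧ ∀ b : Fin N → ℚ,
      e₀ + ∑ i, (b i : ℂ) * x i ≠ 0 → ¬ Q g t (e₀ + ∑ i, (b i : ℂ) * x i) →
        MvPolynomial.eval (fun i => (b i : ℂ)) f = 0)

include hpoly in
theorem exists_basis_seq (e : ℕ → V) (he : Function.Surjective e) (x : Fin (P + 1) → ℂ)
    (hxV : ∀ i, x i ∈ V) (hx : LinearIndependent ℚ x) {g : ℕ} (t : Fin g → ℂ) :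
    ∃ z : ℕ → ℂ, ∀ N, (∀ i : Fin N, z i ∈ V) → LinearIndependent ℚ (fun i : Fin N => z i) →
      ¬ V ≤ Submodule.span ℚ (Set.range fun i : Fin N => z i) →
      z N ∈ V ∧ z N ∉ Submodule.span ℚ (Set.range fun i : Fin N => z i) ∧
      Q (N + g) (Fin.append (fun i : Fin N => z i) t) (z N) ∧
      (P < N → ∀ k, (∀ k' < k, (e k' : ℂ) ∈ Submodule.span ℚ (Set.range fun i : Fin N => z i)) →
        (e k : ℂ) ∈ Submodule.span ℚ (insert (z N) (Set.range fun i : Fin N => z i))) := by
  classical
  refine exists_seq (M := ℂ) (fun N p w => (∀ i : Fin N, p i ∈ V) → LinearIndependent ℚ p →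
      ¬ V ≤ Submodule.span ℚ (Set.range p) →
      w ∈ V ∧ w ∉ Submodule.span ℚ (Set.range p) ∧ Q (N + g) (Fin.append p t) w ∧
      (P < N → ∀ k, (∀ k' < k, (e k' : ℂ) ∈ Submodule.span ℚ (Set.range p)) →
        (e k : ℂ) ∈ Submodule.span ℚ (insert w (Set.range p)))) ?_
  intro N p
  by_cases hpV : ∀ i : Fin N, p i ∈ V
  swap
  · exact ⟨0, fun h => absurd h hpV⟩
  by_cases hp : LinearIndependent ℚ p
  swap
  · exact ⟨0, fun _ h => absurd h hp⟩
  by_cases hsp : V ≤ Submodule.span ℚ (Set.range p)
  · exact ⟨0, fun _ _ h => absurd hsp h⟩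
  by_cases hN : P < N
  · have hex : ∃ k, (e k : ℂ) ∉ Submodule.span ℚ (Set.range p) := by
      by_contra hcon
      push Not at hcon
      apply hsp
      intro v hv
      obtain ⟨k, hk⟩ := he ⟨v, hv⟩
      have h1 := hcon k
      rw [hk] at h1
      exact h1
    obtain ⟨w, h1, h2, h3, h4⟩ := stage_big V (fun _ => P) Q hpoly (Fin.append p t) p hpV hp hN
      (e (Nat.find hex)).2 (Nat.find_spec hex)
    refine ⟨w, fun _ _ _ => ⟨h1, h2, h3, fun _ k hk => ?_⟩⟩
    by_cases hk2 : (e k : ℂ) ∈ Submodule.span ℚ (Set.range p)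
    · exact Submodule.span_mono (Set.subset_insert _ _) hk2
    · have h5 : Nat.find hex ≤ k := Nat.find_min' hex hk2
      have h6 : ¬ Nat.find hex < k := fun h => Nat.find_spec hex (hk _ h)
      have h7 : k = Nat.find hex := by omega
      rw [h7]
      exact h4
  · obtain ⟨w, h1, h2, h3⟩ := stage_small V (fun _ => P) Q hpoly (N := N) (Fin.append p t) p x hxV hx
      (Nat.lt_succ_self P) (by omega)
    exact ⟨w, fun _ _ _ => ⟨h1, h2, h3, fun h => absurd h hN⟩⟩

include hpoly in
/-- **A basis.** -/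
theorem exists_tower_basis (hcount : (V : Set ℂ).Countable) (x : Fin (P + 1) → ℂ)
    (hxV : ∀ i, x i ∈ V) (hx : LinearIndependent ℚ x) {g : ℕ} (t : Fin g → ℂ) :
    ∃ (ι : Type) (b : Basis ι ℚ V) (r : ι → ℕ) (z : ℕ → ℂ), Function.Injective r ∧
      (∀ i, (b i : ℂ) = z (r i)) ∧ ∀ (n : ℕ) (σ : Fin n → ι), ∃ N, (∀ i, r (σ i) < N) ∧
        TW Q t N z := by
  classical
  have hV : Countable V := hcount.to_subtype
  obtain ⟨e, he⟩ := exists_surjective_nat V
  obtain ⟨z, hz⟩ := exists_basis_seq V P Q hpoly e he x hxV hx t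
  -- one step
  have hsnoc : ∀ N, (∀ i : Fin N, z i ∈ V) → LinearIndependent ℚ (fun i : Fin N => z i) →
      ¬ V ≤ Submodule.span ℚ (Set.range fun i : Fin N => z i) →
      (∀ i : Fin (N + 1), z i ∈ V) ∧ LinearIndependent ℚ (fun i : Fin (N + 1) => z i) := by
    intro N h1 h2 h3
    obtain ⟨k1, k2, -, -⟩ := hz N h1 h2 h3
    refine ⟨?_, ?_⟩
    · intro i
      refine Fin.lastCases ?_ (fun i => ?_) i
      · exact k1
      · exact h1 i
    · have h4 : (fun i : Fin (N + 1) => z i) =
          (Fin.snoc (fun i : Fin N => z i) (z N) : Fin (N + 1) → ℂ) := by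
        funext i
        refine Fin.lastCases ?_ (fun i => ?_) i
        · rw [Fin.snoc_last]
          rfl
        · rw [Fin.snoc_castSucc]
          rfl
      rw [h4, linearIndependent_finSnoc]
      exact ⟨h2, k2⟩
  by_cases hfin : Module.Finite ℚ V
  · -- finite dimension
    set D := finrank ℚ V with hD
    have hns : ∀ N < D, LinearIndependent ℚ (fun i : Fin N => z i) →
        ¬ V ≤ Submodule.span ℚ (Set.range fun i : Fin N => z i) := by
      intro N hN h1 h2
      have hfs : Module.Finite ℚ (Submodule.span ℚ (Set.range fun i : Fin N => z i)) :=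
        FiniteDimensional.span_of_finite _ (Set.finite_range _)
      have h3 := Submodule.finrank_mono h2
      have h4 : finrank ℚ (Submodule.span ℚ (Set.range fun i : Fin N => z i)) ≤ N :=
        (finrank_range_le_card _).trans (by rw [Fintype.card_fin])
      omega
    have hall : ∀ N ≤ D, (∀ i : Fin N, z i ∈ V) ∧ LinearIndependent ℚ (fun i : Fin N => z i) := by
      intro N
      induction N with
      | zero => exact fun _ => ⟨fun i => i.elim0, linearIndependent_empty_type⟩
      | succ N ih =>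
        intro hN
        obtain ⟨h1, h2⟩ := ih (by omega)
        exact hsnoc N h1 h2 (hns N (by omega) h2)
    obtain ⟨hDV, hDi⟩ := hall D le_rfl
    have hTW : TW Q t D z := by
      intro j hj
      obtain ⟨h1, h2⟩ := hall j hj.le
      exact (hz j h1 h2 (hns j hj h2)).2.2.1
    let v : Fin D → V := fun i => ⟨z i, hDV i⟩
    have hv : LinearIndependent ℚ v := LinearIndependent.of_comp V.subtype hDi
    have hpos : 0 < D := by
      have h1 : LinearIndependent ℚ (fun i => (⟨x i, hxV i⟩ : V)) :=
        LinearIndependent.of_comp V.subtype hx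
      have h2 := h1.fintype_card_le_finrank
      rw [Fintype.card_fin] at h2
      omega
    have hne : Nonempty (Fin D) := ⟨⟨0, hpos⟩⟩
    let b : Basis (Fin D) ℚ V := basisOfLinearIndependentOfCardEqFinrank hv (by rw [Fintype.card_fin])
    refine ⟨Fin D, b, fun i => i, z, Fin.val_injective, ?_, ?_⟩
    · intro i
      show ((basisOfLinearIndependentOfCardEqFinrank hv (by rw [Fintype.card_fin]) i : V) : ℂ) = z i
      rw [coe_basisOfLinearIndependentOfCardEqFinrank]
    · intro n σ
      exact ⟨D, fun i => (σ i).2, hTW⟩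
  · -- infinite dimension
    have hns : ∀ N, ¬ V ≤ Submodule.span ℚ (Set.range fun i : Fin N => z i) := by
      intro N h2
      have hfs : Module.Finite ℚ (Submodule.span ℚ (Set.range fun i : Fin N => z i)) :=
        FiniteDimensional.span_of_finite _ (Set.finite_range _)
      exact hfin (Submodule.finiteDimensional_of_le h2)
    have hall : ∀ N, (∀ i : Fin N, z i ∈ V) ∧ LinearIndependent ℚ (fun i : Fin N => z i) := by
      intro N
      induction N with
      | zero => exact ⟨fun i => i.elim0, linearIndependent_empty_type⟩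
      | succ N ih => exact hsnoc N ih.1 ih.2 (hns N)
    have hzV : ∀ j, z j ∈ V := fun j => (hall (j + 1)).1 (Fin.last j)
    have hTW : ∀ N, TW Q t N z := fun N j _ => (hz j (hall j).1 (hall j).2 (hns j)).2.2.1
    have hli : LinearIndependent ℚ z := by
      rw [linearIndependent_iff']
      intro s c hc i hi
      obtain ⟨N, hN⟩ : ∃ N, s ⊆ Finset.range N := ⟨s.sup id + 1, fun j hj =>
        Finset.mem_range.2 (Nat.lt_succ_of_le (Finset.le_sup (f := id) hj))⟩
      have h1 := Fintype.linearIndependent_iff.1 (hall N).2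
        (fun j : Fin N => if (j : ℕ) ∈ s then c j else 0) (by
          rw [Fin.sum_univ_eq_sum_range (fun j => (if j ∈ s then c j else 0) • z j) N, ← hc]
          simp only [ite_smul, zero_smul]
          rw [Finset.sum_ite_mem, Finset.inter_eq_right.2 hN])
      have h2 := h1 ⟨i, Finset.mem_range.1 (hN hi)⟩
      simp only at h2
      rwa [if_pos hi] at h2
    have hspan : ∀ k, ∃ N, ∀ k' ≤ k, (e k' : ℂ) ∈ Submodule.span ℚ (Set.range fun i : Fin N => z i) := by
      have hstep : ∀ k N, (∀ k' < k, (e k' : ℂ) ∈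
          Submodule.span ℚ (Set.range fun i : Fin N => z i)) → ∃ N, ∀ k' ≤ k, (e k' : ℂ) ∈
            Submodule.span ℚ (Set.range fun i : Fin N => z i) := by
        intro k N hN
        have hmono : ∀ {N N' : ℕ}, N ≤ N' → Submodule.span ℚ (Set.range fun i : Fin N => z i) ≤
            Submodule.span ℚ (Set.range fun i : Fin N' => z i) := by
          intro N N' hNN
          apply Submodule.span_mono
          rintro _ ⟨i, rfl⟩
          exact ⟨⟨i, by omega⟩, rfl⟩
        set N' := max N (P + 1) with hN'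
        have h1 : ∀ k' < k, (e k' : ℂ) ∈ Submodule.span ℚ (Set.range fun i : Fin N' => z i) :=
          fun k' hk' => hmono (le_max_left _ _) (hN k' hk')
        have h2 := (hz N' (hall N').1 (hall N').2 (hns N')).2.2.2 (by omega) k h1
        refine ⟨N' + 1, fun k' hk' => ?_⟩
        rcases Nat.lt_or_ge k' k with h3 | h3
        · exact hmono (Nat.le_succ _) (h1 k' h3)
        · have h4 : k' = k := by omega
          rw [h4]
          refine Submodule.span_mono ?_ h2
          rintro _ (rfl | ⟨i, rfl⟩)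
          · exact ⟨Fin.last N', rfl⟩
          · exact ⟨⟨i, by omega⟩, rfl⟩
      intro k
      induction k with
      | zero => exact hstep 0 0 fun k' hk' => absurd hk' (Nat.not_lt_zero _)
      | succ k ih =>
        obtain ⟨N, hN⟩ := ih
        exact hstep (k + 1) N fun k' hk' => hN k' (by omega)
    let v : ℕ → V := fun j => ⟨z j, hzV j⟩
    have hv : LinearIndependent ℚ v := LinearIndependent.of_comp V.subtype hli
    have htop : ⊤ ≤ Submodule.span ℚ (Set.range v) := by
      intro w _
      obtain ⟨k, rfl⟩ := he w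
      obtain ⟨N, hN⟩ := hspan k
      have h1 : (e k : ℂ) ∈ (Submodule.span ℚ (Set.range v)).map V.subtype := by
        rw [Submodule.map_span]
        refine Submodule.span_mono ?_ (hN k le_rfl)
        rintro _ ⟨i, rfl⟩
        exact ⟨v i, ⟨i, rfl⟩, rfl⟩
      obtain ⟨w', hw', hw''⟩ := h1
      have h2 : w' = e k := Subtype.ext hw''
      rwa [h2] at hw'
    refine ⟨ℕ, Basis.mk hv htop, fun i => i, z, fun _ _ h => h, ?_, ?_⟩
    · intro i
      rw [Basis.mk_apply]
    · intro n σ
      exact ⟨Finset.univ.sup σ + 1, fun i => Nat.lt_succ_of_le (Finset.le_sup (Finset.mem_univ i)),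
        hTW _⟩

end

end Pool.Agent.Zk44.UP
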