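import Mathlib
import Pool.Agent.TH813.Ros
import Pool.Agent.Zk44.UP.BasisSeq
import Pool.Agent.Zk44.UP.Params

/-!
# Bases of spaces of logarithms
-/

set_option autoImplicit false

namespace Pool.Agent.Zk44.UP

open Module Complex
open Pool.Agent.R351 hiding tay tay_const
open Pool.Agent.H301R2.SSE (QB)
open Pool.Agent.Zk44.GE (ap ExpLike)
open Pool.Agent.Zk44.GE renaming GoodT.reindex → goodT_reindex
open Pool.Agent.Zk44.SC (form exists_shift const_of exists_lift)
open Pool.Agent.Zk44.DT (infinite_QB)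

section Tower

variable {κ C : Type} [Field κ] [Field C] [Algebra κ C]

/-- Reindexing the parameters. -/
theorem good1_reindex {g g' L : ℕ} {T : Fin g → C} {T' : Fin g' → C} {y : C} (ρ : Fin g → Fin g')
    (hρ : ∀ o, T o = T' (ρ o)) (h : Good1 κ T' L y) : Good1 κ T L y := by
  classical
  intro G hG
  apply h G
  refine hG.subst _ (fun _ => 1) (fun j j' => if j' = Option.map ρ j then 1 else 0) ?_
  intro j
  rw [one_smul]
  simp only [pow_ite, pow_one, pow_zero, Finset.prod_ite_eq', Finset.mem_univ, if_true]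
  rcases j with _ | o
  · rfl
  · unfold bt1
    simp only [Option.map_some, Option.elim_some]
    rw [hρ]

/-- A subfamily. -/
theorem goodT_comp {g n M L : ℕ} {t : Fin g → C} {y : Fin M → C} (τ : Fin n → Fin M)
    (hτ : Function.Injective τ) (h : GoodT κ t L y) : GoodT κ t L (fun i => y (τ i)) := by
  classical
  intro G hG l hl h0
  have h1 : Cmp κ (btm M t) L (fun l => MvPolynomial.rename τ (G l)) := by
    refine (hG.map ((MvPolynomial.rename τ : MvPolynomial (Fin n) C →ₐ[C] _).restrictScalars κ)).subst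
      _ (fun _ => 1) (fun j j' => if j' = Sum.map id τ j then 1 else 0) ?_
    intro j
    rw [one_smul]
    simp only [pow_ite, pow_one, pow_zero, Finset.prod_ite_eq', Finset.mem_univ, if_true]
    rcases j with o | i
    · show MvPolynomial.rename τ (MvPolynomial.C (t o)) = _
      rw [MvPolynomial.rename_C]
      rfl
    · show MvPolynomial.rename τ (MvPolynomial.X i) = _
      rw [MvPolynomial.rename_X]
      rfl
  have h2 := h _ h1 l hl (by
    show MvPolynomial.eval y (MvPolynomial.rename τ (G l)) = 0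
    rw [MvPolynomial.eval_rename]
    exact h0)
  exact MvPolynomial.rename_injective τ hτ (by rw [map_zero]; exact h2)

/-- A tower of good numbers has no relation. -/
theorem goodT_of_tower [Infinite κ] {L : ℕ} : ∀ (n g : ℕ) (t : Fin g → C) (z : ℕ → C),
    (∀ j < n, Good1 κ (Fin.append (fun i : Fin j => z i) t) L (z j)) →
    GoodT κ t L (fun i : Fin n => z i) := by
  intro n
  induction n with
  | zero =>
    intro g t z _
    exact goodT_zero _ _
  | succ n ih =>
    intro g t z h
    have h0 : Good1 κ t L (z 0) := by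
      refine good1_reindex (fun o => Fin.natAdd 0 o) (fun o => ?_) (h 0 (Nat.succ_pos n))
      rw [Fin.append_right]
    have h1 := ih (g + 1) (Fin.cons (z 0) t) (fun j => z (j + 1)) (by
      intro j hj
      refine good1_reindex (T' := Fin.append (fun i : Fin (j + 1) => z i) t)
        (fun o => Fin.addCases (fun i => Fin.castAdd g i.succ)
          (fun o => Fin.cases (Fin.castAdd g 0) (fun o => Fin.natAdd (j + 1) o) o) o) ?_
        (h (j + 1) (by omega))
      intro o
      refine Fin.addCases (fun i => ?_) (fun o => ?_) o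
      · rw [Fin.append_left, Fin.addCases_left, Fin.append_left]
        rfl
      · rw [Fin.append_right, Fin.addCases_right]
        refine Fin.cases ?_ (fun o => ?_) o
        · rw [Fin.cons_zero, Fin.cases_zero, Fin.append_left]
          rfl
        · rw [Fin.cons_succ, Fin.cases_succ, Fin.append_right])
    have h2 := goodT_cons h0 h1
    have h3 : (fun i : Fin (n + 1) => z i) =
        (Fin.cons (z 0) (fun i : Fin n => z ((i : ℕ) + 1)) : Fin (n + 1) → C) := by
      funext i
      refine Fin.cases ?_ (fun i => ?_) i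
      · rfl
      · rfl
    rw [h3]
    exact h2

end Tower

section Shift

/-- Logarithmic derivatives are not derivatives. -/
theorem propP_of {Δ : Derivation QB ℂ ℂ} (hΔ : ∀ (n : ℕ) (x : ℂ) (c : Fin n → QB) (u : Fin n → ℂ),
    (∀ j, u j ≠ 0) → form x c u Δ = 0 → ∀ F : Derivation QB ℂ ℂ, form x c u F = 0) :
    ∀ (n : ℕ) (c y : Fin n → ℂ) (r : ℂ), (∀ j, Δ (c j) = 0) →
      Δ r = ∑ j, c j * (Δ (y j) / y j) → Δ r = 0 := by
  classical
  intro n c y r hc hr
  have hconst := const_of hΔ
  choose a ha using fun j => hconst (c j) (hc j)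
  let y' : Fin n → ℂ := fun j => if y j = 0 then 1 else y j
  have hy' : ∀ j, y' j ≠ 0 := by
    intro j
    simp only [y']
    split_ifs with h
    · exact one_ne_zero
    · exact h
  have hyy : ∀ j, Δ (y' j) / y' j = Δ (y j) / y j := by
    intro j
    simp only [y']
    split_ifs with h
    · rw [h, map_zero, zero_div, Derivation.map_one_eq_zero, zero_div]
    · rfl
  have h1 : form (-r) a y' Δ = 0 := by
    unfold form
    rw [map_neg, hr, neg_add_eq_zero]
    refine Finset.sum_congr rfl fun j _ => ?_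
    rw [hyy, ← ha]
    rfl
  have h2 := hΔ n (-r) a y' hy' h1
  have h3 := Pool.Agent.TH813.Ros.exact QB (fun j => (a j : ℂ)) y' (fun j => (a j).2) hy' r (by
    intro D hD
    obtain ⟨F, hF⟩ := exists_lift D hD
    have h4 := h2 F
    unfold form at h4
    rw [map_neg, neg_add_eq_zero, hF] at h4
    rw [h4]
    refine Finset.sum_congr rfl fun j _ => ?_
    rw [hF]) (Δ.restrictScalars ℚ) (fun w hw => Δ.map_algebraMap (⟨w, hw⟩ : QB))
  exact h3

/-- **The bad rational combinations of independent numbers.** -/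
theorem poly_log {g L N : ℕ} (t : Fin g → ℂ) (e₀ : ℂ) (x : Fin N → ℂ) (hx : LinearIndependent QB x)
    (hN : L * (L + 3) < N) : ∃ f : MvPolynomial (Fin N) ℂ, f ≠ 0 ∧ ∀ b : Fin N → ℚ,
      e₀ + ∑ i, (b i : ℂ) * x i ≠ 0 → ¬ Good1 QB t L (e₀ + ∑ i, (b i : ℂ) * x i) →
        MvPolynomial.eval (fun i => (b i : ℂ)) f = 0 := by
  obtain ⟨Δ, hΔ⟩ := exists_shift
  have hconst := const_of hΔ
  obtain ⟨f, hf0, hf⟩ := poly_one Δ (propP_of hΔ) (L := L) t e₀ x
    (by
      intro v hv hsum
      choose a ha using fun i => hconst (v i) (hv i)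
      have h1 : ∑ i, a i • x i = 0 := by
        rw [← hsum]
        refine Finset.sum_congr rfl fun i _ => ?_
        rw [Algebra.smul_def, ha]
      funext i
      rw [← ha, Fintype.linearIndependent_iff.1 hx a h1 i, map_zero]
      rfl)
    {b | (∀ i, Δ (b i) = 0) ∧ e₀ + ∑ i, b i * x i ≠ 0 ∧ ¬ Good1 QB t L (e₀ + ∑ i, b i * x i)}
    (fun b hb => hb) hN
  refine ⟨f, hf0, fun b h1 h2 => hf _ ⟨fun i => ?_, h1, h2⟩⟩
  have h3 : ((b i : ℚ) : ℂ) = algebraMap QB ℂ (algebraMap ℚ QB (b i)) := by simp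
  show Δ ((b i : ℚ) : ℂ) = 0
  rw [h3]
  exact Δ.map_algebraMap _

end Shift

theorem countable_log : {z : ℂ | IsAlgebraic ℚ (cexp z)}.Countable := by
  classical
  have h1 : {w : ℂ | IsAlgebraic ℚ w}.Countable := Algebraic.countable ℚ ℂ
  have h2 : {z : ℂ | IsAlgebraic ℚ (cexp z)} ⊆
      ⋃ w ∈ {w : ℂ | IsAlgebraic ℚ w}, {z : ℂ | cexp z = w} := by
    intro z hz
    exact Set.mem_biUnion (x := cexp z) hz rfl
  refine (h1.biUnion fun w _ => ?_).mono h2
  by_cases hw : ∃ z₀, cexp z₀ = w
  · obtain ⟨z₀, rfl⟩ := hw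
    refine (Set.countable_range fun n : ℤ => z₀ + n * (2 * Real.pi * I)).mono ?_
    intro z hz
    obtain ⟨n, hn⟩ := Complex.exp_eq_exp_iff_exists_int.1 hz
    exact ⟨n, hn.symm⟩
  · refine Set.countable_empty.mono ?_
    intro z hz
    exact hw ⟨z, hz⟩

/-- **Bases of spaces of logarithms.** -/
theorem basis_log {g : ℕ} (L : ℕ) (t : Fin g → ℂ) (V : Submodule ℚ ℂ)
    (hV : ∀ v ∈ V, IsAlgebraic ℚ (cexp v)) (hdim : ((L * (L + 3) + 1 : ℕ) : Cardinal) ≤ Module.rank ℚ V) :
    ∃ (ι : Type) (b : Basis ι ℚ V), ∀ (n : ℕ) (σ : Fin n → ι), Function.Injective σ →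
      GoodT QB t L (fun i => (b (σ i) : ℂ)) := by
  classical
  have hinf : Infinite QB := infinite_QB
  have hcount : (V : Set ℂ).Countable := by
    exact countable_log.mono fun v hv => hV v hv
  obtain ⟨x, hx⟩ := exists_linearIndependent_of_le_rank hdim
  obtain ⟨ι, b, r, z, hr, hb, hTW⟩ := exists_tower_basis V (L * (L + 3))
    (fun g t z => Good1 QB t L z) (by
      intro g N t e₀ x hxV hx hN
      exact poly_log t e₀ x (Pool.Agent.Zk44.XO.LOG_indep (fun i => hV _ (hxV i)) hx) hN) hcount (fun i => (x i : ℂ))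
    (fun i => (x i).2) (hx.map' V.subtype (Submodule.ker_subtype _)) t
  refine ⟨ι, b, fun n σ hσ => ?_⟩
  obtain ⟨N, hN, hT⟩ := hTW n σ
  have h1 := goodT_of_tower N g t z hT
  have h2 := goodT_comp (fun i => ⟨r (σ i), hN i⟩) (fun i j hij => hσ (hr (congrArg Fin.val hij))) h1
  simp only [hb]
  exact h2

end Pool.Agent.Zk44.UP
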