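import Mathlib
import Pool.Agent.Zk44.UP.LogBasis
import Pool.Agent.Zk44.UP.Gen

/-!
# Numbers with their exponentials in arbitrary spaces
-/

set_option autoImplicit false

namespace Pool.Agent.Zk44.UP

open Module Complex
open Pool.Agent.R351 hiding tay tay_const
open Pool.Agent.H301R2.SSE (QB)
open Pool.Agent.Zk44.SC (form exists_shift const_of psi psi_div psi_comb joint_indep val)
open Pool.Agent.Zk44.DT (infinite_QB exists_seq)

/-- **The rational combinations which are bad together with their exponentials.** -/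
theorem poly_pair {g L N : ℕ} (t : Fin g → ℂ) (e₀ : ℂ) (x : Fin N → ℂ) (hx : LinearIndependent ℚ x)
    (hN : L * (L + 4) + g < N) : ∃ f : MvPolynomial (Fin N) ℂ, f ≠ 0 ∧ ∀ b : Fin N → ℚ,
      e₀ + ∑ i, (b i : ℂ) * x i ≠ 0 → ¬ (Good1 QB t L (e₀ + ∑ i, (b i : ℂ) * x i) ∨
        Good1 QB t L (cexp (e₀ + ∑ i, (b i : ℂ) * x i))) →
        MvPolynomial.eval (fun i => (b i : ℂ)) f = 0 := by
  obtain ⟨Δ, hΔ⟩ := exists_shift
  have hconst := const_of hΔ
  have hrat : ∀ q : ℚ, Δ (q : ℂ) = 0 := by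
    intro q
    have h3 : (q : ℂ) = algebraMap QB ℂ (algebraMap ℚ QB q) := by simp
    rw [h3]
    exact Δ.map_algebraMap _
  obtain ⟨f, hf0, hf⟩ := poly_two Δ (propP_of hΔ) (L := L) e₀ (psi Δ e₀) x (fun j => psi Δ (x j))
    (fun j => ⟨cexp (x j), (psi_div Δ (x j)).symm⟩)
    (by
      intro v hv h1 h2
      choose a ha using fun i => hconst (v i) (hv i)
      have h3 := joint_indep hΔ x hx a (by
        rw [← h1]
        refine Finset.sum_congr rfl fun i _ => ?_
        rw [Algebra.smul_def, ha]) (by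
        rw [← h2]
        refine Finset.sum_congr rfl fun i _ => ?_
        rw [Algebra.smul_def, ha])
      funext i
      rw [← ha, h3]
      exact map_zero _)
    t {b | ∃ q : Fin N → ℚ, b = (fun i => (q i : ℂ)) ∧ e₀ + ∑ i, (q i : ℂ) * x i ≠ 0 ∧
      ¬ (Good1 QB t L (e₀ + ∑ i, (q i : ℂ) * x i) ∨
        Good1 QB t L (cexp (e₀ + ∑ i, (q i : ℂ) * x i)))}
    (by
      rintro b ⟨q, rfl, -, -⟩ i
      exact hrat (q i))
    (fun b => cexp (e₀ + ∑ i, b i * x i))
    (by
      rintro b ⟨q, rfl, h1, h2⟩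
      push Not at h2
      refine ⟨h1, h2.1, Complex.exp_ne_zero _, ?_, h2.2⟩
      show Δ (cexp (e₀ + ∑ i, (q i : ℂ) * x i)) / cexp (e₀ + ∑ i, (q i : ℂ) * x i) = _
      rw [psi_div, psi_comb]) hN
  exact ⟨f, hf0, fun b h1 h2 => hf _ ⟨b, rfl, h1, h2⟩⟩

/-- **Numbers with their exponentials in spaces**: the loss of the dimension is bounded. -/
theorem space_pair_up (L n g : ℕ) (t : Fin g → ℂ) (V : Submodule ℚ ℂ)
    (hd : ((n + g + L * (L + 4) : ℕ) : Cardinal) ≤ Module.rank ℚ V) :
    ∃ z : Fin n → ℂ, (∀ i, z i ∈ V) ∧ LinearIndependent ℚ z ∧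
      ∃ e : Fin n → Bool, GoodT QB t L (fun j => val (e j) (z j)) := by
  classical
  have hinf : Infinite QB := infinite_QB
  obtain ⟨x, hx⟩ := exists_linearIndependent_of_le_rank hd
  have hx' : LinearIndependent ℚ (fun i => (x i : ℂ)) :=
    hx.map' V.subtype (Submodule.ker_subtype _)
  obtain ⟨v, hv⟩ := exists_seq (M := ℂ × Bool) (fun N p w => (∀ i : Fin N, (p i).1 ∈ V) →
      LinearIndependent ℚ (fun i => (p i).1) → N < n →
      w.1 ∈ V ∧ w.1 ∉ Submodule.span ℚ (Set.range fun i => (p i).1) ∧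
      Good1 QB (Fin.append (fun i => val (p i).2 (p i).1) t) L (val w.2 w.1)) (by
    intro N p
    by_cases hN : N < n
    swap
    · exact ⟨(0, true), fun _ _ h => absurd h hN⟩
    obtain ⟨w, h1, h2, h3⟩ := stage_small V (fun g => L * (L + 4) + g)
      (fun g t z => Good1 QB t L z ∨ Good1 QB t L (cexp z))
      (fun g N t e₀ x _ hx hN => poly_pair t e₀ x hx hN)
      (Fin.append (fun i => val (p i).2 (p i).1) t) (fun i => (p i).1) (fun i => (x i : ℂ))
      (fun i => (x i).2) hx' (by omega) (by omega)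
    rcases h3 with h3 | h3
    · exact ⟨(w, false), fun _ _ _ => ⟨h1, h2, h3⟩⟩
    · exact ⟨(w, true), fun _ _ _ => ⟨h1, h2, h3⟩⟩)
  have hall : ∀ N ≤ n, (∀ i : Fin N, (v i).1 ∈ V) ∧
      LinearIndependent ℚ (fun i : Fin N => (v i).1) := by
    intro N
    induction N with
    | zero => exact fun _ => ⟨fun i => i.elim0, linearIndependent_empty_type⟩
    | succ N ih =>
      intro hN
      obtain ⟨h1, h2⟩ := ih (by omega)
      obtain ⟨k1, k2, -⟩ := hv N h1 h2 (by omega)
      refine ⟨?_, ?_⟩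
      · intro i
        refine Fin.lastCases ?_ (fun i => ?_) i
        · exact k1
        · exact h1 i
      · have h4 : (fun i : Fin (N + 1) => (v i).1) =
            (Fin.snoc (fun i : Fin N => (v i).1) (v N).1 : Fin (N + 1) → ℂ) := by
          funext i
          refine Fin.lastCases ?_ (fun i => ?_) i
          · rw [Fin.snoc_last]
            rfl
          · rw [Fin.snoc_castSucc]
            rfl
        rw [h4, linearIndependent_finSnoc]
        exact ⟨h2, k2⟩
  obtain ⟨h1, h2⟩ := hall n le_rfl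
  refine ⟨fun i => (v i).1, h1, h2, fun i => (v i).2, ?_⟩
  refine goodT_of_tower n g t (fun j => val (v j).2 (v j).1) fun j hj => ?_
  obtain ⟨k1, k2⟩ := hall j hj.le
  exact (hv j k1 k2 hj).2.2

end Pool.Agent.Zk44.UP
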