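import Mathlib
import Pool.Agent.Zk44.UP.PairSpace

/-!
# Exponentials of rational combinations in spaces without logarithms of algebraic numbers
-/

set_option autoImplicit false

namespace Pool.Agent.Zk44.UP

open Module Complex MvPolynomial Filter
open Pool.Agent.R351 hiding tay tay_const
open Pool.Agent.Zk44.XO
open Pool.Agent.H301R2.SSE (QB)
open Pool.Agent.Zk44.SC (form exists_shift const_of psi psi_div psi_comb exists_lift
  algebraic_of_psi)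
open Pool.Agent.Zk44.DT (infinite_QB)

section CoreMul

variable {κ C : Type} [Field κ] [Field C] [CharZero C] [Algebra κ C] (Δ : Derivation κ C C)
  (hP : ∀ (n : ℕ) (c y : Fin n → C) (r : C), (∀ j, Δ (c j) = 0) →
      Δ r = ∑ j, c j * (Δ (y j) / y j) → Δ r = 0)
  {ι : Type} (𝒰 : Ultrafilter ι)

include hP in
/-- **One computation for the exponential.** -/
theorem core_mul {m N g : ℕ} (F : Fam κ C ι m)
    (θ : Fin g → UK 𝒰 C) (hθ : ∀ o, θ o ∈ Th (dV 𝒰 Δ)) (U : ℕ → Bool → Fin g → UK 𝒰 C)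
    (hU : ∀ l b o, dV 𝒰 Δ (U l b o) = 0)
    (hOm : ∀ l b, dd C (F.Om 𝒰 Δ l b) = ∑ o, θ o • dd C (U l b o))
    (e₁ : C) (l : Fin N → C) (hlT : ∀ j, ∃ u : C, l j = Δ u / u)
    (hl : ∀ v : Fin N → C, (∀ i, Δ (v i) = 0) → ∑ i, v i * l i = 0 → v = 0)
    (b : ι → Fin N → C) (hb : ∀ i j, Δ (b i j) = 0)
    (hy : ∀ i, Δ (F.y i) / F.y i = e₁ + ∑ j, b i j * l j) :
    ∃ τ : Unit ⊕ (Fin g ⊕ Fin m) → Derivation C (UK 𝒰 C) (UK 𝒰 C) → UK 𝒰 C,
      ∀ j, dd C (bb 𝒰 b j) ∈ Submodule.span (UK 𝒰 C) (Set.range τ) := by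
  classical
  obtain ⟨τ, hτ1, hτ2⟩ := exists_horizontal_two Δ hP 𝒰 F θ hθ U hU hOm e₁ l hlT b hb hy
  refine ⟨τ, mem_of_rows (derK (dV 𝒰 Δ)) (derK_const (dV 𝒰 Δ)) (nb (dV 𝒰 Δ) (hdV 𝒰 Δ))
    (nb_smul (dV 𝒰 Δ) (hdV 𝒰 Δ)) (Submodule.span (UK 𝒰 C) (Set.range τ))
    (nb_stable (dV 𝒰 Δ) (hdV 𝒰 Δ) (by rintro _ ⟨q, rfl⟩; exact hτ1 q))
    (fun i => dd C (bb 𝒰 b i)) (nb_bb Δ 𝒰 hb) {fun i => algebraMap C (UK 𝒰 C) (l i)}
    (by
      intro y hy
      rw [Set.mem_singleton_iff.1 hy]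
      exact hτ2)
    (by
      intro v hv
      have h1 := hv _ (Set.mem_singleton _)
      exact transfer_indep 𝒰 (Δ.restrictScalars ℤ) l l (fun v h1 h2 _ => hl v h1 h2) v h1 h1)⟩

end CoreMul

section PolyMul

variable {κ C : Type} [Field κ] [Field C] [CharZero C] [Algebra κ C] (Δ : Derivation κ C C)
  (hP : ∀ (n : ℕ) (c y : Fin n → C) (r : C), (∀ j, Δ (c j) = 0) →
      Δ r = ∑ j, c j * (Δ (y j) / y j) → Δ r = 0)

include hP in
theorem poly_step_mul {m N g : ℕ} (e₁ : C) (l : Fin N → C)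
    (hlT : ∀ j, ∃ u : C, l j = Δ u / u)
    (hl : ∀ v : Fin N → C, (∀ i, Δ (v i) = 0) → ∑ i, v i * l i = 0 → v = 0)
    (t : Fin g → C) (S : Set (Fin N → C)) (hb : ∀ b ∈ S, ∀ i, Δ (b i) = 0) (Y : S → C)
    (hS : ∀ b : S, Y b ≠ 0 ∧
      Δ (Y b) / Y b = e₁ + ∑ j, (b : Fin N → C) j * l j ∧ BadAt κ t m (Y b))
    (hN : 1 + (g + m) < N) :
    ∃ f : MvPolynomial (Fin N) C, f ≠ 0 ∧ ∀ b ∈ S, eval b f = 0 := by
  classical
  by_contra hcon
  push Not at hcon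
  obtain ⟨𝒰, h𝒰⟩ := exists_ultrafilter S hcon
  obtain ⟨F₂, hF₂, U₂, hU₂, hOm₂⟩ := exists_fam_plain (κ := κ) Δ 𝒰 (t := t) (m := m)
    Y (fun b => (hS b).1) (fun b => (hS b).2.2)
  obtain ⟨ρ, hρ⟩ := core_mul Δ hP 𝒰 F₂
    (fun o => algebraMap C (UK 𝒰 C) (Δ (t o) / t o)) (fun o => algebraMap_mem_Th Δ 𝒰 (t o)) U₂ hU₂
    hOm₂ e₁ l hlT hl (fun b : S => (b : Fin N → C)) (fun b => hb b b.2)
    (fun b => by
      rw [hF₂]
      exact (hS b).2.1)
  have h3 := le_of_mem 𝒰 h𝒰 ρ hρ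
  rw [Fintype.card_sum, Fintype.card_sum, Fintype.card_fin, Fintype.card_fin,
    Fintype.card_unit] at h3
  omega

include hP in
/-- **The bad exponentials satisfy an algebraic relation.** -/
theorem poly_mul {g L N : ℕ} (e₁ : C) (l : Fin N → C)
    (hlT : ∀ j, ∃ u : C, l j = Δ u / u)
    (hl : ∀ v : Fin N → C, (∀ i, Δ (v i) = 0) → ∑ i, v i * l i = 0 → v = 0)
    (t : Fin g → C) (S : Set (Fin N → C)) (hb : ∀ b ∈ S, ∀ i, Δ (b i) = 0) (Y : (Fin N → C) → C)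
    (hS : ∀ b ∈ S, Y b ≠ 0 ∧
      Δ (Y b) / Y b = e₁ + ∑ j, b j * l j ∧ ¬ Good1 κ t L (Y b))
    (hN : g + L < N) :
    ∃ f : MvPolynomial (Fin N) C, f ≠ 0 ∧ ∀ b ∈ S, eval b f = 0 := by
  classical
  have h1 : ∀ m : ℕ, ∃ f : MvPolynomial (Fin N) C, f ≠ 0 ∧ (m < L → ∀ b ∈ S,
      BadAt κ t m (Y b) → eval b f = 0) := by
    intro m
    by_cases hm : m < L
    · obtain ⟨f, hf0, hf⟩ := poly_step_mul Δ hP (m := m) e₁ l hlT hl t
        {b | b ∈ S ∧ BadAt κ t m (Y b)} (fun b hb' => hb b hb'.1)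
        (fun b => Y b) (fun b => ⟨(hS b b.2.1).1, (hS b b.2.1).2.1, b.2.2⟩) (by omega)
      exact ⟨f, hf0, fun _ b hb hbad => hf b ⟨hb, hbad⟩⟩
    · exact ⟨1, one_ne_zero, fun h => absurd h hm⟩
  choose f hf0 hf using h1
  refine ⟨∏ m ∈ Finset.range L, f m, Finset.prod_ne_zero_iff.2 fun m _ => hf0 m, fun b hb => ?_⟩
  obtain ⟨m, hm, hbad⟩ := exists_badAt (hS b hb).2.2
  rw [map_prod]
  exact Finset.prod_eq_zero (Finset.mem_range.2 hm) (hf m hm b hb hbad)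

end PolyMul

/-- the logarithmic derivatives are independent if no combination is a logarithm of an algebraic
number -/
theorem l_indep {Δ : Derivation QB ℂ ℂ} (hΔ : ∀ (n : ℕ) (x : ℂ) (c : Fin n → QB) (u : Fin n → ℂ),
    (∀ j, u j ≠ 0) → form x c u Δ = 0 → ∀ F : Derivation QB ℂ ℂ, form x c u F = 0) {N : ℕ}
    (x : Fin N → ℂ) (hx : LinearIndependent ℚ x)
    (hL : ∀ v ∈ Submodule.span ℚ (Set.range x), v ∈ LOG → v = 0) (c : Fin N → QB)
    (h2 : ∑ j, c j • psi Δ (x j) = 0) : c = 0 := by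
  classical
  -- the relation for all derivations
  have h3 : ∀ D : Derivation ℚ ℂ ℂ, (∀ w ∈ QB, D w = 0) →
      ∑ j, (c j : ℂ) * (D (cexp (x j)) / cexp (x j)) = 0 := by
    intro D hD
    obtain ⟨F, hF⟩ := exists_lift D hD
    have h4 := hΔ N 0 c (fun j => cexp (x j)) (fun j => Complex.exp_ne_zero _) (by
      unfold form
      rw [map_zero, zero_add, ← h2]
      refine Finset.sum_congr rfl fun j _ => ?_
      rw [psi_div, Algebra.smul_def]
      rfl) F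
    unfold form at h4
    rw [map_zero, zero_add] at h4
    simpa only [hF] using h4
  -- rational functionals
  have h5 : ∀ ψ : ℂ →ₗ[ℚ] ℚ, IsAlgebraic ℚ (cexp (∑ j, (ψ (c j) : ℂ) * x j)) := by
    intro ψ
    apply algebraic_of_psi
    intro F
    have h6 := Pool.Agent.TH813.Ros.rational QB (fun j => (c j : ℂ)) (fun j => cexp (x j))
      (fun j => (c j).2) (fun j => Complex.exp_ne_zero _) h3 ψ (F.restrictScalars ℚ)
      (fun w hw => F.map_algebraMap (⟨w, hw⟩ : QB))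
    have h7 : ∑ j, (ψ (c j) : ℂ) * psi F (x j) = 0 := by
      rw [← h6]
      refine Finset.sum_congr rfl fun j _ => ?_
      rw [← psi_div]
      rfl
    have h8 := psi_comb F 0 x (fun j => ψ (c j))
    rw [map_zero, zero_add, zero_add, h7] at h8
    exact h8
  have h6 : ∀ (ψ : ℂ →ₗ[ℚ] ℚ) (j : Fin N), ψ (c j) = 0 := by
    intro ψ
    have h7 : ∑ j, (ψ (c j) : ℂ) * x j = ∑ j, ψ (c j) • x j :=
      Finset.sum_congr rfl fun j _ => (Rat.smul_def _ _).symm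
    have h8 := hL (∑ j, ψ (c j) • x j) (Submodule.sum_mem _ fun j _ =>
      Submodule.smul_mem _ _ (Submodule.subset_span ⟨j, rfl⟩)) (by
        rw [← h7]
        exact h5 ψ)
    exact Fintype.linearIndependent_iff.1 hx _ h8
  funext j
  have h7 : (c j : ℂ) = 0 := (Module.forall_dual_apply_eq_zero_iff ℚ (c j : ℂ)).1 fun ψ => h6 ψ j
  exact Subtype.ext h7

/-- **The exponentials of the rational combinations.** -/
theorem poly_expo {g L N : ℕ} (t : Fin g → ℂ) (e₀ : ℂ) (x : Fin N → ℂ) (hx : LinearIndependent ℚ x)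
    (hL : ∀ v ∈ Submodule.span ℚ (Set.range x), v ∈ LOG → v = 0)
    (hN : g + L < N) : ∃ f : MvPolynomial (Fin N) ℂ, f ≠ 0 ∧ ∀ b : Fin N → ℚ,
      ¬ Good1 QB t L (cexp (e₀ + ∑ i, (b i : ℂ) * x i)) →
        MvPolynomial.eval (fun i => (b i : ℂ)) f = 0 := by
  obtain ⟨Δ, hΔ⟩ := exists_shift
  have hconst := const_of hΔ
  have hrat : ∀ q : ℚ, Δ (q : ℂ) = 0 := by
    intro q
    have h3 : (q : ℂ) = algebraMap QB ℂ (algebraMap ℚ QB q) := by simp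
    rw [h3]
    exact Δ.map_algebraMap _
  obtain ⟨f, hf0, hf⟩ := poly_mul Δ (propP_of hΔ) (L := L) (psi Δ e₀) (fun j => psi Δ (x j))
    (fun j => ⟨cexp (x j), (psi_div Δ (x j)).symm⟩)
    (by
      intro v hv h2
      choose a ha using fun i => hconst (v i) (hv i)
      have h3 := l_indep hΔ x hx hL a (by
        rw [← h2]
        refine Finset.sum_congr rfl fun i _ => ?_
        rw [Algebra.smul_def, ha])
      funext i
      rw [← ha, h3]
      exact map_zero _)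
    t {b | ∃ q : Fin N → ℚ, b = (fun i => (q i : ℂ)) ∧
      ¬ Good1 QB t L (cexp (e₀ + ∑ i, (q i : ℂ) * x i))}
    (by
      rintro b ⟨q, rfl, -⟩ i
      exact hrat (q i))
    (fun b => cexp (e₀ + ∑ i, b i * x i))
    (by
      rintro b ⟨q, rfl, h2⟩
      refine ⟨Complex.exp_ne_zero _, ?_, h2⟩
      show Δ (cexp (e₀ + ∑ i, (q i : ℂ) * x i)) / cexp (e₀ + ∑ i, (q i : ℂ) * x i) = _
      rw [psi_div, psi_comb]) hN
  exact ⟨f, hf0, fun b h2 => hf _ ⟨b, rfl, h2⟩⟩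

end Pool.Agent.Zk44.UP
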