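import Mathlib
import Pool.Agent.Zk44.UP.ExpoPoly

/-!
# Every space has a basis without relations, or a subspace of bounded codimension with a basis whose
# exponentials have no relations
-/

set_option autoImplicit false

namespace Pool.Agent.Zk44.UP

open Module Complex
open Pool.Agent.R351 hiding tay tay_const
open Pool.Agent.Zk44.XO
open Pool.Agent.H301R2.SSE (QB)
open Pool.Agent.Zk44.DT (infinite_QB exists_seq)

section FromSeq

/-- the next element of a sequence -/
theorem linInd_succ {z : ℕ → ℂ} {N : ℕ} (h2 : LinearIndependent ℚ (fun i : Fin N => z i))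
    (k2 : z N ∉ Submodule.span ℚ (Set.range fun i : Fin N => z i)) :
    LinearIndependent ℚ (fun i : Fin (N + 1) => z i) := by
  have h4 : (fun i : Fin (N + 1) => z i) =
      (Fin.snoc (fun i : Fin N => z i) (z N) : Fin (N + 1) → ℂ) := by
    funext i
    refine Fin.lastCases ?_ (fun i => ?_) i
    · rw [Fin.snoc_last]
      rfl
    · rw [Fin.snoc_castSucc]
      rfl
  rw [h4, linearIndependent_finSnoc]
  exact ⟨h2, k2⟩

/-- a sequence all of whose initial pieces are independent -/
theorem linInd_all {z : ℕ → ℂ} (hall : ∀ N, LinearIndependent ℚ (fun i : Fin N => z i)) :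
    LinearIndependent ℚ z := by
  classical
  rw [linearIndependent_iff']
  intro s c hc i hi
  obtain ⟨N, hN⟩ : ∃ N, s ⊆ Finset.range N := ⟨s.sup id + 1, fun j hj =>
    Finset.mem_range.2 (Nat.lt_succ_of_le (Finset.le_sup (f := id) hj))⟩
  have h1 := Fintype.linearIndependent_iff.1 (hall N)
    (fun j : Fin N => if (j : ℕ) ∈ s then c j else 0) (by
      rw [Fin.sum_univ_eq_sum_range (fun j => (if j ∈ s then c j else 0) • z j) N, ← hc]
      simp only [ite_smul, zero_smul]
      rw [Finset.sum_ite_mem, Finset.inter_eq_right.2 hN])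
  have h2 := h1 ⟨i, Finset.mem_range.1 (hN hi)⟩
  simp only at h2
  rwa [if_pos hi] at h2

variable (V : Submodule ℚ ℂ) (P : ℕ) (Q : (g : ℕ) → (Fin g → ℂ) → ℂ → Prop) (R : ℕ → ℂ → Prop)

/-- A basis from a sequence of choices. -/
theorem basis_of_seq (hRV : ∀ i w, R i w → w ∈ V) (hne : ∃ v ∈ V, v ≠ 0) {g : ℕ}
    (t : Fin g → ℂ) (e : ℕ → V) (he : Function.Surjective e) (z : ℕ → ℂ)
    (hz : ∀ N, (∀ i : Fin N, R i (z i)) → LinearIndependent ℚ (fun i : Fin N => z i) →
      ¬ V ≤ Submodule.span ℚ (Set.range fun i : Fin N => z i) →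
      R N (z N) ∧ z N ∉ Submodule.span ℚ (Set.range fun i : Fin N => z i) ∧
      Q (N + g) (Fin.append (fun i : Fin N => z i) t) (z N) ∧
      (P < N → ∀ k, (∀ k' < k, (e k' : ℂ) ∈ Submodule.span ℚ (Set.range fun i : Fin N => z i)) →
        (e k : ℂ) ∈ Submodule.span ℚ (insert (z N) (Set.range fun i : Fin N => z i)))) :
    ∃ (ι : Type) (b : Basis ι ℚ V) (r : ι → ℕ), Function.Injective r ∧
      (∀ i, (b i : ℂ) = z (r i)) ∧ ∀ (n : ℕ) (σ : Fin n → ι), ∃ N, (∀ i, r (σ i) < N) ∧
        TW Q t N z := by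
  classical
  -- one step
  have hsnoc : ∀ N, (∀ i : Fin N, R i (z i)) → LinearIndependent ℚ (fun i : Fin N => z i) →
      ¬ V ≤ Submodule.span ℚ (Set.range fun i : Fin N => z i) →
      (∀ i : Fin (N + 1), R i (z i)) ∧ LinearIndependent ℚ (fun i : Fin (N + 1) => z i) := by
    intro N h1 h2 h3
    obtain ⟨k1, k2, -, -⟩ := hz N h1 h2 h3
    refine ⟨?_, linInd_succ h2 k2⟩
    intro i
    refine Fin.lastCases ?_ (fun i => ?_) i
    · exact k1
    · exact h1 i
  by_cases hfin : Module.Finite ℚ V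
  · -- finite dimension
    set D := finrank ℚ V with hD
    have hns : ∀ N < D, LinearIndependent ℚ (fun i : Fin N => z i) →
        ¬ V ≤ Submodule.span ℚ (Set.range fun i : Fin N => z i) := by
      intro N hN h1 h2
      have hfs : Module.Finite ℚ (Submodule.span ℚ (Set.range fun i : Fin N => z i)) :=
        FiniteDimensional.span_of_finite _ (Set.finite_range _)
      have h3 := Submodule.finrank_mono h2
      have h4 : finrank ℚ (Submodule.span ℚ (Set.range fun i : Fin N => z i)) ≤ N :=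
        (finrank_range_le_card _).trans (by rw [Fintype.card_fin])
      omega
    have hall : ∀ N ≤ D, (∀ i : Fin N, R i (z i)) ∧ LinearIndependent ℚ (fun i : Fin N => z i) := by
      intro N
      induction N with
      | zero => exact fun _ => ⟨fun i => i.elim0, linearIndependent_empty_type⟩
      | succ N ih =>
        intro hN
        obtain ⟨h1, h2⟩ := ih (by omega)
        exact hsnoc N h1 h2 (hns N (by omega) h2)
    obtain ⟨hDV, hDi⟩ := hall D le_rfl
    have hTW : TW Q t D z := by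
      intro j hj
      obtain ⟨h1, h2⟩ := hall j hj.le
      exact (hz j h1 h2 (hns j hj h2)).2.2.1
    let v : Fin D → V := fun i => ⟨z i, hRV _ _ (hDV i)⟩
    have hv : LinearIndependent ℚ v := LinearIndependent.of_comp V.subtype hDi
    have hpos : 0 < D := by
      obtain ⟨v, hvV, hv0⟩ := hne
      have : Nontrivial V := ⟨⟨⟨v, hvV⟩, 0, fun h => hv0 (congrArg Subtype.val h)⟩⟩
      exact Module.finrank_pos
    have hne' : Nonempty (Fin D) := ⟨⟨0, hpos⟩⟩
    let b : Basis (Fin D) ℚ V := basisOfLinearIndependentOfCardEqFinrank hv (by rw [Fintype.card_fin])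
    refine ⟨Fin D, b, fun i => i, Fin.val_injective, ?_, ?_⟩
    · intro i
      show ((basisOfLinearIndependentOfCardEqFinrank hv (by rw [Fintype.card_fin]) i : V) : ℂ) = z i
      rw [coe_basisOfLinearIndependentOfCardEqFinrank]
    · intro n σ
      exact ⟨D, fun i => (σ i).2, hTW⟩
  · -- infinite dimension
    have hns : ∀ N, ¬ V ≤ Submodule.span ℚ (Set.range fun i : Fin N => z i) := by
      intro N h2
      have hfs : Module.Finite ℚ (Submodule.span ℚ (Set.range fun i : Fin N => z i)) :=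
        FiniteDimensional.span_of_finite _ (Set.finite_range _)
      exact hfin (Submodule.finiteDimensional_of_le h2)
    have hall : ∀ N, (∀ i : Fin N, R i (z i)) ∧ LinearIndependent ℚ (fun i : Fin N => z i) := by
      intro N
      induction N with
      | zero => exact ⟨fun i => i.elim0, linearIndependent_empty_type⟩
      | succ N ih => exact hsnoc N ih.1 ih.2 (hns N)
    have hzV : ∀ j, z j ∈ V := fun j => hRV _ _ ((hall (j + 1)).1 (Fin.last j))
    have hTW : ∀ N, TW Q t N z := fun N j _ => (hz j (hall j).1 (hall j).2 (hns j)).2.2.1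
    have hli : LinearIndependent ℚ z := linInd_all fun N => (hall N).2
    have hspan : ∀ k, ∃ N, ∀ k' ≤ k, (e k' : ℂ) ∈ Submodule.span ℚ (Set.range fun i : Fin N => z i) := by
      have hstep : ∀ k N, (∀ k' < k, (e k' : ℂ) ∈
          Submodule.span ℚ (Set.range fun i : Fin N => z i)) → ∃ N, ∀ k' ≤ k, (e k' : ℂ) ∈
            Submodule.span ℚ (Set.range fun i : Fin N => z i) := by
        intro k N hN
        have hmono : ∀ {N N' : ℕ}, N ≤ N' → Submodule.span ℚ (Set.range fun i : Fin N => z i) ≤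
            Submodule.span ℚ (Set.range fun i : Fin N' => z i) := by
          intro N N' hNN
          apply Submodule.span_mono
          rintro _ ⟨i, rfl⟩
          exact ⟨⟨i, by omega⟩, rfl⟩
        set N' := max N (P + 1) with hN'
        have h1 : ∀ k' < k, (e k' : ℂ) ∈ Submodule.span ℚ (Set.range fun i : Fin N' => z i) :=
          fun k' hk' => hmono (le_max_left _ _) (hN k' hk')
        have h2 := (hz N' (hall N').1 (hall N').2 (hns N')).2.2.2 (by omega) k h1
        refine ⟨N' + 1, fun k' hk' => ?_⟩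
        rcases Nat.lt_or_ge k' k with h3 | h3
        · exact hmono (Nat.le_succ _) (h1 k' h3)
        · have h4 : k' = k := by omega
          rw [h4]
          refine Submodule.span_mono ?_ h2
          rintro _ (rfl | ⟨i, rfl⟩)
          · exact ⟨Fin.last N', rfl⟩
          · exact ⟨⟨i, by omega⟩, rfl⟩
      intro k
      induction k with
      | zero => exact hstep 0 0 fun k' hk' => absurd hk' (Nat.not_lt_zero _)
      | succ k ih =>
        obtain ⟨N, hN⟩ := ih
        exact hstep (k + 1) N fun k' hk' => hN k' (by omega)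
    let v : ℕ → V := fun j => ⟨z j, hzV j⟩
    have hv : LinearIndependent ℚ v := LinearIndependent.of_comp V.subtype hli
    have htop : ⊤ ≤ Submodule.span ℚ (Set.range v) := by
      intro w _
      obtain ⟨k, rfl⟩ := he w
      obtain ⟨N, hN⟩ := hspan k
      have h1 : (e k : ℂ) ∈ (Submodule.span ℚ (Set.range v)).map V.subtype := by
        rw [Submodule.map_span]
        refine Submodule.span_mono ?_ (hN k le_rfl)
        rintro _ ⟨i, rfl⟩
        exact ⟨v i, ⟨i, rfl⟩, rfl⟩
      obtain ⟨w', hw', hw''⟩ := h1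
      have h2 : w' = e k := Subtype.ext hw''
      rwa [h2] at hw'
    refine ⟨ℕ, Basis.mk hv htop, fun i => i, fun _ _ h => h, ?_, ?_⟩
    · intro i
      rw [Basis.mk_apply]
    · intro n σ
      exact ⟨Finset.univ.sup σ + 1, fun i => Nat.lt_succ_of_le (Finset.le_sup (Finset.mem_univ i)),
        hTW _⟩

end FromSeq

section CaseA

variable (V W₀ : Submodule ℚ ℂ) (hW : W₀ ≤ V) (P : ℕ) (Q : (g : ℕ) → (Fin g → ℂ) → ℂ → Prop)
  (hdim : ∀ (N : ℕ) (x : Fin N → ℂ), (∀ i, x i ∈ W₀) → LinearIndependent ℚ x → N ≤ P + 1)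
  (hpoly : ∀ (g : ℕ) (t : Fin g → ℂ) (e₀ : ℂ) (x : Fin (P + 1) → ℂ), (∀ i, x i ∈ W₀) →
    LinearIndependent ℚ x → ∃ f : MvPolynomial (Fin (P + 1)) ℂ, f ≠ 0 ∧ ∀ b : Fin (P + 1) → ℚ,
      e₀ + ∑ i, (b i : ℂ) * x i ≠ 0 → ¬ Q g t (e₀ + ∑ i, (b i : ℂ) * x i) →
        MvPolynomial.eval (fun i => (b i : ℂ)) f = 0)

include hW hdim hpoly in
/-- the sequence of choices, if one subspace of dimension `P + 1` suffices -/
theorem exists_seq_A (e : ℕ → V) (he : Function.Surjective e) (x : Fin (P + 1) → ℂ)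
    (hxW : ∀ i, x i ∈ W₀) (hx : LinearIndependent ℚ x) {g : ℕ} (t : Fin g → ℂ) :
    ∃ z : ℕ → ℂ, ∀ N, (∀ i : Fin N, z i ∈ V ∧ ((i : ℕ) ≤ P → z i ∈ W₀)) →
      LinearIndependent ℚ (fun i : Fin N => z i) →
      ¬ V ≤ Submodule.span ℚ (Set.range fun i : Fin N => z i) →
      (z N ∈ V ∧ (N ≤ P → z N ∈ W₀)) ∧
      z N ∉ Submodule.span ℚ (Set.range fun i : Fin N => z i) ∧
      Q (N + g) (Fin.append (fun i : Fin N => z i) t) (z N) ∧
      (P < N → ∀ k, (∀ k' < k, (e k' : ℂ) ∈ Submodule.span ℚ (Set.range fun i : Fin N => z i)) →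
        (e k : ℂ) ∈ Submodule.span ℚ (insert (z N) (Set.range fun i : Fin N => z i))) := by
  classical
  refine exists_seq (M := ℂ) (fun N p w => (∀ i : Fin N, p i ∈ V ∧ ((i : ℕ) ≤ P → p i ∈ W₀)) →
      LinearIndependent ℚ p → ¬ V ≤ Submodule.span ℚ (Set.range p) →
      (w ∈ V ∧ (N ≤ P → w ∈ W₀)) ∧ w ∉ Submodule.span ℚ (Set.range p) ∧
      Q (N + g) (Fin.append p t) w ∧
      (P < N → ∀ k, (∀ k' < k, (e k' : ℂ) ∈ Submodule.span ℚ (Set.range p)) →
        (e k : ℂ) ∈ Submodule.span ℚ (insert w (Set.range p)))) ?_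
  intro N p
  by_cases hpV : ∀ i : Fin N, p i ∈ V ∧ ((i : ℕ) ≤ P → p i ∈ W₀)
  swap
  · exact ⟨0, fun h => absurd h hpV⟩
  by_cases hp : LinearIndependent ℚ p
  swap
  · exact ⟨0, fun _ h => absurd h hp⟩
  by_cases hsp : V ≤ Submodule.span ℚ (Set.range p)
  · exact ⟨0, fun _ _ h => absurd hsp h⟩
  by_cases hN : P < N
  · have hex : ∃ k, (e k : ℂ) ∉ Submodule.span ℚ (Set.range p) := by
      by_contra hcon
      push Not at hcon
      apply hsp
      intro v hv
      obtain ⟨k, hk⟩ := he ⟨v, hv⟩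
      have h1 := hcon k
      rw [hk] at h1
      exact h1
    set v : ℂ := (e (Nat.find hex) : ℂ) with hv
    have hvs : v ∉ Submodule.span ℚ (Set.range p) := Nat.find_spec hex
    let p' : Fin (P + 1) → ℂ := fun i => p ⟨i, by omega⟩
    have hp' : LinearIndependent ℚ p' := hp.comp (fun i : Fin (P + 1) => (⟨i, by omega⟩ : Fin N))
      (fun i j hij => Fin.ext (congrArg (fun q : Fin N => (q : ℕ)) hij))
    obtain ⟨f, hf0, hf⟩ := hpoly (N + g) (Fin.append p t) v p'
      (fun i => (hpV ⟨i, by omega⟩).2 (Nat.lt_succ_iff.1 i.2)) hp'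
    obtain ⟨b, hb⟩ := exists_rat hf0
    have hs : ∑ i, (b i : ℂ) * p' i ∈ Submodule.span ℚ (Set.range p) := by
      refine Submodule.sum_mem _ fun i _ => ?_
      rw [← Rat.smul_def]
      exact Submodule.smul_mem _ _ (Submodule.subset_span ⟨_, rfl⟩)
    have hsV : ∑ i, (b i : ℂ) * p' i ∈ V := by
      refine Submodule.sum_mem _ fun i _ => ?_
      rw [← Rat.smul_def]
      exact V.smul_mem _ (hpV _).1
    have hw : v + ∑ i, (b i : ℂ) * p' i ∉ Submodule.span ℚ (Set.range p) := by
      intro h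
      apply hvs
      have h1 := Submodule.sub_mem _ h hs
      rwa [add_sub_cancel_right] at h1
    refine ⟨v + ∑ i, (b i : ℂ) * p' i, fun _ _ _ => ⟨⟨V.add_mem (e _).2 hsV, fun h => by omega⟩,
      hw, ?_, fun _ k hk => ?_⟩⟩
    · by_contra hQ
      refine hb (hf b (fun h0 => hw ?_) hQ)
      rw [h0]
      exact Submodule.zero_mem _
    · by_cases hk2 : (e k : ℂ) ∈ Submodule.span ℚ (Set.range p)
      · exact Submodule.span_mono (Set.subset_insert _ _) hk2
      · have h5 : Nat.find hex ≤ k := Nat.find_min' hex hk2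
        have h6 : ¬ Nat.find hex < k := fun h => Nat.find_spec hex (hk _ h)
        have h7 : k = Nat.find hex := by omega
        have h2 := Submodule.sub_mem _ (Submodule.subset_span (Set.mem_insert
          (v + ∑ i, (b i : ℂ) * p' i) (Set.range p)))
          (Submodule.span_mono (Set.subset_insert (v + ∑ i, (b i : ℂ) * p' i) _) hs)
        rw [add_sub_cancel_right] at h2
        rw [h7]
        exact h2
  · obtain ⟨w, h1, h2, h3⟩ := stage_small W₀ (fun _ => P) Q (by
        intro g' N' t' e₀ x' hx'W hx' hPN'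
        have h4 := hdim N' x' hx'W hx'
        have h5 : N' = P + 1 := by omega
        subst h5
        exact hpoly g' t' e₀ x' hx'W hx') (N := N) (Fin.append p t) p x hxW hx
      (Nat.lt_succ_self P) (by omega)
    exact ⟨w, fun _ _ _ => ⟨⟨hW h1, fun _ => h1⟩, h2, h3, fun h => absurd h hN⟩⟩

end CaseA

end Pool.Agent.Zk44.UP
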