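import Mathlib
import Pool.Agent.Zk44.UP.Dich

/-!
# The dichotomy
-/

set_option autoImplicit false

namespace Pool.Agent.Zk44.UP

open Module Complex
open Pool.Agent.R351 hiding tay tay_const
open Pool.Agent.Zk44.XO
open Pool.Agent.H301R2.SSE (QB)
open Pool.Agent.Zk44.DT (infinite_QB exists_seq)

section CaseB

/-- the sequence of choices in a space without logarithms of algebraic numbers -/
theorem exists_seq_B (L : ℕ) {g : ℕ} (t : Fin g → ℂ) (x : ℕ → ℂ) (V : Submodule ℚ ℂ)
    (hV : ∀ v ∈ V, v ∈ LOG → v = 0) :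
    ∃ z : ℕ → ℂ, ∀ N, (∀ i : Fin (N + (g + L) + 1), x i ∈ V) →
      LinearIndependent ℚ (fun i : Fin (N + (g + L) + 1) => x i) →
      z N ∈ Submodule.span ℚ (Set.range fun i : Fin (N + (g + L) + 1) => x i) ∧
      z N ∉ Submodule.span ℚ (Set.range fun i : Fin N => z i) ∧
      Good1 QB (Fin.append (fun i : Fin N => cexp (z i)) t) L (cexp (z N)) := by
  classical
  refine exists_seq (M := ℂ) (fun N p w => (∀ i : Fin (N + (g + L) + 1), x i ∈ V) →
      LinearIndependent ℚ (fun i : Fin (N + (g + L) + 1) => x i) →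
      w ∈ Submodule.span ℚ (Set.range fun i : Fin (N + (g + L) + 1) => x i) ∧
      w ∉ Submodule.span ℚ (Set.range p) ∧
      Good1 QB (Fin.append (fun i => cexp (p i)) t) L (cexp w)) ?_
  intro N p
  by_cases h1 : ∀ i : Fin (N + (g + L) + 1), x i ∈ V
  swap
  · exact ⟨0, fun h => absurd h h1⟩
  by_cases h2 : LinearIndependent ℚ (fun i : Fin (N + (g + L) + 1) => x i)
  swap
  · exact ⟨0, fun _ h => absurd h h2⟩
  obtain ⟨w, h3, h4, h5⟩ := stage_small
    (Submodule.span ℚ (Set.range fun i : Fin (N + (g + L) + 1) => x i)) (fun g => g + L)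
    (fun g t z => Good1 QB t L (cexp z)) (by
      intro g' N' t' e₀ x' hx' hxi hN'
      obtain ⟨f, hf0, hf⟩ := poly_expo t' e₀ x' hxi (by
        intro v hv hv'
        refine hV v ?_ hv'
        have h6 : Submodule.span ℚ (Set.range x') ≤ V := by
          rw [Submodule.span_le]
          rintro _ ⟨i, rfl⟩
          have h7 : Submodule.span ℚ (Set.range fun i : Fin (N + (g + L) + 1) => x i) ≤ V := by
            rw [Submodule.span_le]
            rintro _ ⟨i, rfl⟩
            exact h1 i
          exact h7 (hx' i)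
        exact h6 hv) hN'
      exact ⟨f, hf0, fun b _ hb => hf b hb⟩)
    (Fin.append (fun i => cexp (p i)) t) p (fun i : Fin (N + (g + L) + 1) => x i)
    (fun i => Submodule.subset_span ⟨i, rfl⟩) h2 (by omega) (by omega)
  exact ⟨w, fun _ _ => ⟨h3, h4, h5⟩⟩

/-- what is proved for a space without logarithms of algebraic numbers -/
def OutB (L : ℕ) {g : ℕ} (t : Fin g → ℂ) (V : Submodule ℚ ℂ) : Prop :=
  ∃ (ι : Type) (z : ι → ℂ), (∀ i, z i ∈ V) ∧ LinearIndependent ℚ z ∧
    (∀ w : Fin (g + L + 1) → ℂ, (∀ i, w i ∈ V) → ¬ LinearIndependent ℚ (Sum.elim z w)) ∧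
    ∀ (n : ℕ) (σ : Fin n → ι), Function.Injective σ → GoodT QB t L (fun i => cexp (z (σ i)))

/-- finite dimension -/
theorem outB_fin (L : ℕ) {g : ℕ} (t : Fin g → ℂ) (V : Submodule ℚ ℂ)
    (hV : ∀ v ∈ V, v ∈ LOG → v = 0) [Module.Finite ℚ V] : OutB L t V := by
  classical
  have hinf : Infinite QB := infinite_QB
  set D := finrank ℚ V with hD
  let b := Module.finBasis ℚ V
  let x : ℕ → ℂ := fun i => if h : i < D then (b ⟨i, h⟩ : ℂ) else 0
  have hxV : ∀ i, x i ∈ V := by
    intro i
    simp only [x]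
    split_ifs
    · exact (b _).2
    · exact V.zero_mem
  have hxi : ∀ M ≤ D, LinearIndependent ℚ (fun i : Fin M => x i) := by
    intro M hM
    have h1 : (fun i : Fin M => x i) = (V.subtype ∘ b) ∘ (Fin.castLE hM) := by
      funext i
      have h2 : (i : ℕ) < D := lt_of_lt_of_le i.2 hM
      simp only [x, dif_pos h2]
      rfl
    rw [h1]
    exact (b.linearIndependent.map' V.subtype (Submodule.ker_subtype _)).comp _
      (Fin.castLE_injective hM)
  obtain ⟨z, hz⟩ := exists_seq_B L t x V hV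
  have hz' : ∀ N < D - (g + L), z N ∈ V ∧
      z N ∉ Submodule.span ℚ (Set.range fun i : Fin N => z i) ∧
      Good1 QB (Fin.append (fun i : Fin N => cexp (z i)) t) L (cexp (z N)) := by
    intro N hN
    obtain ⟨h1, h2, h3⟩ := hz N (fun i => hxV i) (hxi _ (by omega))
    refine ⟨?_, h2, h3⟩
    have h4 : Submodule.span ℚ (Set.range fun i : Fin (N + (g + L) + 1) => x i) ≤ V := by
      rw [Submodule.span_le]
      rintro _ ⟨i, rfl⟩
      exact hxV i
    exact h4 h1
  have hall : ∀ N ≤ D - (g + L), LinearIndependent ℚ (fun i : Fin N => z i) := by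
    intro N
    induction N with
    | zero => exact fun _ => linearIndependent_empty_type
    | succ N ih => exact fun hN => linInd_succ (ih (by omega)) (hz' N (by omega)).2.1
  have hgood := goodT_of_tower (κ := QB) (L := L) (D - (g + L)) g t (fun j => cexp (z j))
    (fun j hj => (hz' j hj).2.2)
  refine ⟨Fin (D - (g + L)), fun i => z i, fun i => (hz' i i.2).1, hall _ le_rfl, ?_, ?_⟩
  · intro w hw hli
    have h1 : LinearIndependent ℚ (fun q : Fin (D - (g + L)) ⊕ Fin (g + L + 1) =>
        (⟨Sum.elim (fun i : Fin (D - (g + L)) => z i) w q, by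
          rcases q with i | i
          · exact (hz' i i.2).1
          · exact hw i⟩ : V)) := LinearIndependent.of_comp V.subtype hli
    have h2 := h1.fintype_card_le_finrank
    rw [Fintype.card_sum, Fintype.card_fin, Fintype.card_fin] at h2
    omega
  · intro n σ hσ
    have h1 := goodT_comp (κ := QB) (L := L) (t := t)
      (y := fun i : Fin (D - (g + L)) => cexp (z i)) σ hσ hgood
    exact h1

/-- countable infinite dimension -/
theorem outB_inf (L : ℕ) {g : ℕ} (t : Fin g → ℂ) (V : Submodule ℚ ℂ)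
    (hV : ∀ v ∈ V, v ∈ LOG → v = 0) (b : Basis ℕ ℚ V) : OutB L t V := by
  classical
  have hinf : Infinite QB := infinite_QB
  let x : ℕ → ℂ := fun i => (b i : ℂ)
  have hxV : ∀ i, x i ∈ V := fun i => (b i).2
  have hxi' : LinearIndependent ℚ x := b.linearIndependent.map' V.subtype (Submodule.ker_subtype _)
  have hxi : ∀ M, LinearIndependent ℚ (fun i : Fin M => x i) := fun M =>
    hxi'.comp (fun i : Fin M => (i : ℕ)) Fin.val_injective
  obtain ⟨z, hz0⟩ := exists_seq_B L t x V hV
  have hz := fun N => hz0 N (fun i => hxV i) (hxi _)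
  have hsp : ∀ M, Submodule.span ℚ (Set.range fun i : Fin M => x i) ≤ V := by
    intro M
    rw [Submodule.span_le]
    rintro _ ⟨i, rfl⟩
    exact hxV i
  have hmono : ∀ {M M' : ℕ}, M ≤ M' → Submodule.span ℚ (Set.range fun i : Fin M => x i) ≤
      Submodule.span ℚ (Set.range fun i : Fin M' => x i) := by
    intro M M' hM
    apply Submodule.span_mono
    rintro _ ⟨i, rfl⟩
    exact ⟨⟨i, by omega⟩, rfl⟩
  have hzV : ∀ j, z j ∈ V := fun j => hsp _ (hz j).1
  have hall : ∀ N, LinearIndependent ℚ (fun i : Fin N => z i) := by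
    intro N
    induction N with
    | zero => exact linearIndependent_empty_type
    | succ N ih => exact linInd_succ ih (hz N).2.1
  refine ⟨ℕ, z, hzV, linInd_all hall, ?_, ?_⟩
  · intro w hw hli
    -- all the `w i` are in one of the spaces
    have h1 : ∀ v ∈ V, ∃ M, v ∈ Submodule.span ℚ (Set.range fun i : Fin M => x i) := by
      intro v hv
      have h2 := b.linearCombination_repr ⟨v, hv⟩
      rw [Finsupp.linearCombination_apply, Finsupp.sum] at h2
      have h3 := congrArg V.subtype h2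
      rw [map_sum] at h3
      have h4 : (∑ i ∈ (b.repr ⟨v, hv⟩).support, V.subtype ((b.repr ⟨v, hv⟩) i • b i)) = v := h3
      generalize b.repr ⟨v, hv⟩ = F at h4
      refine ⟨F.support.sup id + 1, ?_⟩
      rw [← h4]
      refine Submodule.sum_mem _ fun i hi => ?_
      rw [map_smul]
      refine Submodule.smul_mem _ _ (Submodule.subset_span ?_)
      exact ⟨⟨i, Nat.lt_succ_of_le (Finset.le_sup (f := id) hi)⟩, rfl⟩
    choose M hM using fun i => h1 (w i) (hw i)
    set N := Finset.univ.sup M with hN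
    have h2 : ∀ i, w i ∈ Submodule.span ℚ (Set.range fun i : Fin (N + (g + L)) => x i) := fun i =>
      hmono ((Finset.le_sup (f := M) (Finset.mem_univ i)).trans (Nat.le_add_right _ _)) (hM i)
    have h3 : ∀ i : Fin N, z i ∈ Submodule.span ℚ (Set.range fun i : Fin (N + (g + L)) => x i) :=
      fun i => hmono (by omega) (hz i).1
    have h4 : LinearIndependent ℚ (Sum.elim (fun i : Fin N => z i) w) := by
      have h5 := hli.comp (Sum.map (fun i : Fin N => (i : ℕ)) id)
        (Sum.map_injective.2 ⟨Fin.val_injective, Function.injective_id⟩)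
      have h6 : Sum.elim z w ∘ Sum.map (fun i : Fin N => (i : ℕ)) id =
          Sum.elim (fun i : Fin N => z i) w := by
        funext q
        rcases q with i | i
        · rfl
        · rfl
      rwa [h6] at h5
    have hfs : Module.Finite ℚ (Submodule.span ℚ (Set.range fun i : Fin (N + (g + L)) => x i)) :=
      FiniteDimensional.span_of_finite _ (Set.finite_range _)
    have h5 : LinearIndependent ℚ (fun q : Fin N ⊕ Fin (g + L + 1) =>
        (⟨Sum.elim (fun i : Fin N => z i) w q, by
          rcases q with i | i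
          · exact h3 i
          · exact h2 i⟩ : Submodule.span ℚ (Set.range fun i : Fin (N + (g + L)) => x i))) :=
      LinearIndependent.of_comp (Submodule.subtype _) h4
    have h6 := h5.fintype_card_le_finrank
    have h7 : finrank ℚ (Submodule.span ℚ (Set.range fun i : Fin (N + (g + L)) => x i)) ≤
        N + (g + L) := (finrank_range_le_card _).trans (by rw [Fintype.card_fin])
    rw [Fintype.card_sum, Fintype.card_fin, Fintype.card_fin] at h6
    omega
  · intro n σ hσ
    have hgood := goodT_of_tower (κ := QB) (L := L) (Finset.univ.sup σ + 1) g t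
      (fun j => cexp (z j)) (fun j _ => (hz j).2.2)
    have h1 := goodT_comp (κ := QB) (L := L) (t := t)
      (y := fun i : Fin (Finset.univ.sup σ + 1) => cexp (z i))
      (fun i => (⟨σ i, Nat.lt_succ_of_le (Finset.le_sup (Finset.mem_univ i))⟩ :
        Fin (Finset.univ.sup σ + 1)))
      (fun i j hij => hσ (congrArg (fun q : Fin (Finset.univ.sup σ + 1) => (q : ℕ)) hij)) hgood
    exact h1

theorem outB (L : ℕ) {g : ℕ} (t : Fin g → ℂ) (V : Submodule ℚ ℂ)
    (hV : ∀ v ∈ V, v ∈ LOG → v = 0) (hc : Countable V) : OutB L t V := by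
  classical
  by_cases hfin : Module.Finite ℚ V
  · exact outB_fin L t V hV
  · let b := Basis.ofVectorSpace ℚ V
    have h1 : Infinite (Basis.ofVectorSpaceIndex ℚ V) := by
      by_contra h
      rw [not_infinite_iff_finite] at h
      exact hfin (Module.Finite.of_basis b)
    have h2 : Countable (Basis.ofVectorSpaceIndex ℚ V) := by
      exact b.injective.countable
    obtain ⟨eq⟩ := nonempty_equiv_of_countable (α := Basis.ofVectorSpaceIndex ℚ V) (β := ℕ)
    exact outB_inf L t V hV (b.reindex eq)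

end CaseB

section Main

/-- a space which is spanned by few elements -/
theorem exists_finset (W : Submodule ℚ ℂ) [Module.Finite ℚ W] :
    ∃ s : Finset ℂ, s.card ≤ finrank ℚ W ∧ Submodule.span ℚ (s : Set ℂ) = W := by
  classical
  let b := Module.finBasis ℚ W
  refine ⟨Finset.univ.image (fun i => (b i : ℂ)), ?_, ?_⟩
  · exact Finset.card_image_le.trans (by rw [Finset.card_univ, Fintype.card_fin])
  · have h1 : ((Finset.univ.image (fun i => (b i : ℂ)) : Finset ℂ) : Set ℂ) =
        W.subtype '' Set.range b := by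
      rw [← Set.range_comp]
      ext w
      simp
    rw [h1, ← Submodule.map_span, b.span_eq, Submodule.map_top, Submodule.range_subtype]

/-- **The dichotomy.** -/
theorem dichotomy {g : ℕ} (L : ℕ) (t : Fin g → ℂ) (V : Submodule ℚ ℂ) (hc : Countable V) :
    (∃ (ι : Type) (b : Basis ι ℚ V), ∀ (n : ℕ) (σ : Fin n → ι), Function.Injective σ →
      GoodT QB t L (fun i => (b (σ i) : ℂ))) ∨
    ∃ (ι : Type) (z : ι → ℂ) (s : Finset ℂ), s.card ≤ L * (L + 3) + (g + L) ∧
      LinearIndependent ℚ z ∧ Submodule.span ℚ (Set.range z ∪ s) = V ∧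
      ∀ (n : ℕ) (σ : Fin n → ι), Function.Injective σ → GoodT QB t L (fun i => cexp (z (σ i))) := by
  classical
  have hinf : Infinite QB := infinite_QB
  by_cases hA : ∃ x : Fin (L * (L + 3) + 1) → ℂ, (∀ i, x i ∈ V) ∧ LinearIndependent QB x
  · -- a basis without relations
    left
    obtain ⟨x, hxV, hx⟩ := hA
    have hxQ : LinearIndependent ℚ x := hx.restrict_scalars (by
      intro a b hab
      simpa [Algebra.smul_def] using hab)
    set W₀ := Submodule.span ℚ (Set.range x) with hW₀
    have hfs : Module.Finite ℚ W₀ := FiniteDimensional.span_of_finite _ (Set.finite_range _)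
    have hWV : W₀ ≤ V := by
      rw [hW₀, Submodule.span_le]
      rintro _ ⟨i, rfl⟩
      exact hxV i
    have hdW : finrank ℚ W₀ = L * (L + 3) + 1 := by
      rw [hW₀, finrank_span_eq_card hxQ, Fintype.card_fin]
    have hdim : ∀ (N : ℕ) (y : Fin N → ℂ), (∀ i, y i ∈ W₀) → LinearIndependent ℚ y →
        N ≤ L * (L + 3) + 1 := by
      intro N y hy hyi
      have h1 : LinearIndependent ℚ (fun i => (⟨y i, hy i⟩ : W₀)) :=
        LinearIndependent.of_comp W₀.subtype hyi
      have h2 := h1.fintype_card_le_finrank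
      rwa [Fintype.card_fin, hdW] at h2
    have hQB : ∀ y : Fin (L * (L + 3) + 1) → ℂ, (∀ i, y i ∈ W₀) → LinearIndependent ℚ y →
        LinearIndependent QB y := by
      intro y hy hyi
      have h1 : LinearIndependent ℚ (fun i => (⟨y i, hy i⟩ : W₀)) :=
        LinearIndependent.of_comp W₀.subtype hyi
      have h2 := h1.span_eq_top_of_card_eq_finrank' (by rw [Fintype.card_fin, hdW])
      have h3 : Submodule.span ℚ (Set.range y) = W₀ := by
        have h4 := congrArg (Submodule.map W₀.subtype) h2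
        rw [Submodule.map_span, Submodule.map_top, Submodule.range_subtype, ← Set.range_comp] at h4
        exact h4
      rw [linearIndependent_iff_card_le_finrank_span, Set.finrank]
      have h5 : Submodule.span QB (Set.range x) ≤ Submodule.span QB (Set.range y) := by
        rw [Submodule.span_le]
        rintro _ ⟨i, rfl⟩
        have h6 : x i ∈ Submodule.span ℚ (Set.range y) := by
          rw [h3]
          exact Submodule.subset_span ⟨i, rfl⟩
        exact Submodule.span_le_restrictScalars ℚ QB _ h6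
      have hfy : Module.Finite QB (Submodule.span QB (Set.range y)) :=
        FiniteDimensional.span_of_finite _ (Set.finite_range _)
      have h7 := Submodule.finrank_mono h5
      rw [finrank_span_eq_card hx] at h7
      exact h7
    obtain ⟨e, he⟩ := exists_surjective_nat V
    have hpoly : ∀ (g : ℕ) (t : Fin g → ℂ) (e₀ : ℂ) (y : Fin (L * (L + 3) + 1) → ℂ),
        (∀ i, y i ∈ W₀) → LinearIndependent ℚ y →
        ∃ f : MvPolynomial (Fin (L * (L + 3) + 1)) ℂ, f ≠ 0 ∧
          ∀ b : Fin (L * (L + 3) + 1) → ℚ, e₀ + ∑ i, (b i : ℂ) * y i ≠ 0 →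
            ¬ Good1 QB t L (e₀ + ∑ i, (b i : ℂ) * y i) →
              MvPolynomial.eval (fun i => (b i : ℂ)) f = 0 := by
      intro g t e₀ y hy hyi
      exact poly_log t e₀ y (hQB y hy hyi) (Nat.lt_succ_self _)
    obtain ⟨z, hz⟩ := exists_seq_A V W₀ hWV (L * (L + 3)) (fun g t z => Good1 QB t L z) hdim hpoly
      e he x (fun i => Submodule.subset_span ⟨i, rfl⟩) hxQ t
    obtain ⟨ι, b, r, hr, hb, hTW⟩ := basis_of_seq V (L * (L + 3)) (fun g t z => Good1 QB t L z)
      (fun i w => w ∈ V ∧ (i ≤ L * (L + 3) → w ∈ W₀)) (fun _ _ h => h.1)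
      ⟨x 0, hxV 0, hx.ne_zero 0⟩ t e he z hz
    refine ⟨ι, b, fun n σ hσ => ?_⟩
    obtain ⟨N, hN, hT⟩ := hTW n σ
    have h1 := goodT_of_tower N g t z hT
    have h2 := goodT_comp (fun i => ⟨r (σ i), hN i⟩) (fun i j hij => hσ (hr (congrArg Fin.val hij))) h1
    simp only [hb]
    exact h2
  · -- a subspace of bounded codimension
    right
    have hV0 : Module.rank ℚ (V ⊓ LOG : Submodule ℚ ℂ) < ((L * (L + 3) + 1 : ℕ) : Cardinal) := by
      by_contra hcon
      rw [not_lt] at hcon
      obtain ⟨x, hx⟩ := exists_linearIndependent_of_le_rank hcon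
      refine hA ⟨fun i => (x i : ℂ), fun i => (x i).2.1, LOG_indep (fun i => (x i).2.2) ?_⟩
      exact hx.map' (Submodule.subtype _) (Submodule.ker_subtype _)
    have hV0f : Module.Finite ℚ (V ⊓ LOG : Submodule ℚ ℂ) := by
      rw [← Module.rank_lt_aleph0_iff]
      exact hV0.trans (Cardinal.natCast_lt_aleph0)
    have hV0d : finrank ℚ (V ⊓ LOG : Submodule ℚ ℂ) ≤ L * (L + 3) := by
      rw [← Module.finrank_eq_rank, Nat.cast_lt] at hV0
      omega
    obtain ⟨W₂, hW₂⟩ := Submodule.exists_isCompl (V ⊓ LOG : Submodule ℚ ℂ)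
    have hsup : (V ⊓ LOG) ⊔ (W₂ ⊓ V) = V := by
      rw [← sup_inf_assoc_of_le W₂ (inf_le_left : V ⊓ LOG ≤ V), hW₂.sup_eq_top, top_inf_eq]
    have hV' : ∀ v ∈ W₂ ⊓ V, v ∈ LOG → v = 0 := by
      rintro v ⟨h1, h2⟩ h3
      have h4 : v ∈ (V ⊓ LOG) ⊓ W₂ := ⟨⟨h2, h3⟩, h1⟩
      rw [hW₂.inf_eq_bot] at h4
      exact (Submodule.mem_bot ℚ).1 h4
    have hc' : Countable (W₂ ⊓ V : Submodule ℚ ℂ) := by
      have h1 : (V : Set ℂ).Countable := hc
      exact (h1.mono (fun v hv => hv.2) : ((W₂ ⊓ V : Submodule ℚ ℂ) : Set ℂ).Countable).to_subtype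
    obtain ⟨ι, z, hzV, hzi, hcod, hgood⟩ := outB L t (W₂ ⊓ V) hV' hc'
    set U := Submodule.span ℚ (Set.range z) with hU
    have hUV : U ≤ W₂ ⊓ V := by
      rw [hU, Submodule.span_le]
      rintro _ ⟨i, rfl⟩
      exact hzV i
    obtain ⟨W₁, hW₁⟩ := Submodule.exists_isCompl U
    have hsup2 : U ⊔ (W₁ ⊓ (W₂ ⊓ V)) = W₂ ⊓ V := by
      rw [← sup_inf_assoc_of_le W₁ hUV, hW₁.sup_eq_top, top_inf_eq]
    have hW'r : Module.rank ℚ (W₁ ⊓ (W₂ ⊓ V) : Submodule ℚ ℂ) < ((g + L + 1 : ℕ) : Cardinal) := by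
      by_contra hcon
      rw [not_lt] at hcon
      obtain ⟨w, hw⟩ := exists_linearIndependent_of_le_rank hcon
      have hw' : LinearIndependent ℚ (fun i => (w i : ℂ)) :=
        hw.map' (Submodule.subtype _) (Submodule.ker_subtype _)
      refine hcod (fun i => (w i : ℂ)) (fun i => (w i).2.2) (hzi.sum_type hw' ?_)
      refine hW₁.disjoint.mono_right ?_
      rw [Submodule.span_le]
      rintro _ ⟨i, rfl⟩
      exact (w i).2.1
    have hW'f : Module.Finite ℚ (W₁ ⊓ (W₂ ⊓ V) : Submodule ℚ ℂ) := by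
      rw [← Module.rank_lt_aleph0_iff]
      exact hW'r.trans (Cardinal.natCast_lt_aleph0)
    have hW'd : finrank ℚ (W₁ ⊓ (W₂ ⊓ V) : Submodule ℚ ℂ) ≤ g + L := by
      rw [← Module.finrank_eq_rank, Nat.cast_lt] at hW'r
      omega
    obtain ⟨s, hs1, hs2⟩ := exists_finset ((V ⊓ LOG) ⊔ (W₁ ⊓ (W₂ ⊓ V)) : Submodule ℚ ℂ)
    refine ⟨ι, z, s, ?_, hzi, ?_, hgood⟩
    · have h1 := Submodule.finrank_add_le_finrank_add_finrank (V ⊓ LOG : Submodule ℚ ℂ)
        (W₁ ⊓ (W₂ ⊓ V) : Submodule ℚ ℂ)
      omega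
    · rw [Submodule.span_union, hs2, ← hU, sup_left_comm, hsup2, hsup]

end Main

end Pool.Agent.Zk44.UP
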