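import Mathlib
import Pool.Agent.Zk44.UP.PairSpace

/-!
# A subspace of bounded codimension for numbers with their exponentials
-/

set_option autoImplicit false

namespace Pool.Agent.Zk44.UP

open Module Complex
open Pool.Agent.R351 hiding tay tay_const
open Pool.Agent.H301R2.SSE (QB)
open Pool.Agent.Zk44.GE (countable_QB)
open Pool.Agent.Zk44.SC (form exists_shift const_of psi psi_div psi_comb joint_indep val)
open Pool.Agent.Zk44.DT (infinite_QB exists_phi countable_adjoin bad_algebraic not_finite_Q)

/-- **A number and its exponential**: a subspace of codimension `g + L ^ 2 + 4 L + 1`. -/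
theorem phi_pair_up {g : ℕ} (L : ℕ) (t : Fin g → ℂ) (m : ℕ) (hm : L * (L + 4) + g < m) :
    ∃ φ : ℂ →ₗ[ℚ] (Fin m → ℚ), ∀ z : ℂ, z ≠ 0 → φ z = 0 →
      Good1 QB t L z ∨ Good1 QB t L (cexp z) := by
  classical
  have hS : {z : ℂ | ¬ Good1 QB t L z ∧ ¬ Good1 QB t L (cexp z)}.Countable := by
    have h1 : Countable QB := countable_QB
    have h2 := countable_adjoin (Set.range t) (Set.countable_range _)
    refine (Algebraic.countable (Algebra.adjoin QB (Set.range t)) ℂ).mono ?_
    intro z hz
    exact bad_algebraic t (Set.range t) (fun o => Set.mem_range_self o) hz.1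
  obtain ⟨φ, hφ⟩ := exists_phi not_finite_Q _ hS m (by
    intro N x hx ℓ
    by_contra hcon
    push Not at hcon
    choose a ha0 haS ha using hcon
    obtain ⟨Δ, hΔ⟩ := exists_shift
    have hconst := const_of hΔ
    have hrat : ∀ q : ℚ, Δ (q : ℂ) = 0 := by
      intro q
      have h3 : (q : ℂ) = algebraMap QB ℂ (algebraMap ℚ QB q) := by simp
      rw [h3]
      exact Δ.map_algebraMap _
    -- the rational points
    let ι : (Fin m → ℚ) → (Fin m → ℂ) := fun w j => (w j : ℂ)
    have hι : Function.Injective ι := by
      intro w w' h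
      funext j
      exact Rat.cast_injective (congrFun h j)
    let r : (Fin m → ℂ) → (Fin m → ℚ) := Function.invFun ι
    have hr : ∀ w, r (ι w) = w := Function.leftInverse_invFun hι
    have hz : ∀ w, ∑ j, (a w j : ℂ) * x j ≠ 0 := by
      intro w h0
      have h1 : ∑ j, a w j • x j = 0 := by
        rw [← h0]
        exact Finset.sum_congr rfl fun j _ => Rat.smul_def _ _
      exact ha0 w (Fintype.linearIndependent_iff.1 hx (a w) h1 (Fin.last N))
    have hsum : ∀ w, ∑ j, a w j • x j = 0 + ∑ j, (a w j : ℂ) * x j := by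
      intro w
      rw [zero_add]
      exact Finset.sum_congr rfl fun j _ => Rat.smul_def _ _
    have hgen := gen_two Δ (propP_of hΔ) (M := m) (N := N + 1) (L := L) (g := g) 0 (psi Δ 0) x
      (fun j => psi Δ (x j)) (fun j => ⟨cexp (x j), (psi_div Δ (x j)).symm⟩)
      (by
        intro v hv h1 h2
        choose c hc using fun i => hconst (v i) (hv i)
        have h3 := joint_indep hΔ x hx c (by
          rw [← h1]
          refine Finset.sum_congr rfl fun i _ => ?_
          rw [Algebra.smul_def, hc]) (by
          rw [← h2]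
          refine Finset.sum_congr rfl fun i _ => ?_
          rw [Algebra.smul_def, hc])
        funext i
        rw [← hc, h3]
        exact map_zero _)
      t (Set.range ι) (by
        intro f hf
        obtain ⟨w, hw⟩ := exists_rat hf
        exact ⟨ι w, ⟨w, rfl⟩, hw⟩)
      (fun s j => (a (r s) j : ℂ)) (fun s _ j => hrat _)
      (fun s => cexp (0 + ∑ j, (a (r s) j : ℂ) * x j))
      (by
        rintro _ ⟨w, rfl⟩
        have h1 := haS w
        rw [hsum] at h1
        rw [hr]
        refine ⟨by rw [zero_add]; exact hz w, h1.1, Complex.exp_ne_zero _, ?_, h1.2⟩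
        rw [psi_div, psi_comb])
      (by
        intro S' hS' 𝒰 W hW i
        set bl := bb 𝒰 (fun s : S' => fun j => (a (r s) j : ℂ)) with hbl
        have hlast : bl (Fin.last N) ≠ 0 := by
          intro h0
          rw [← map_zero (cl 𝒰), cl_eq_iff] at h0
          obtain ⟨s, hs⟩ := h0.exists
          have hs' : ((a (r s) (Fin.last N) : ℚ) : ℂ) = 0 := hs
          exact ha0 (r s) (by exact_mod_cast hs')
        have hrel : ∑ j : Fin N, bl j.castSucc * algebraMap ℂ (UK 𝒰 ℂ) (ℓ j i : ℂ) +
            bl (Fin.last N) * bs 𝒰 i = 0 := by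
          have h1 : (∑ j : Fin N, (fun s : S' => (a (r s) j.castSucc : ℂ)) * (fun _ => (ℓ j i : ℂ))) +
              (fun s : S' => (a (r s) (Fin.last N) : ℂ)) * (fun s : S' => (s : Fin m → ℂ) i) = 0 := by
            funext s
            obtain ⟨w, hw⟩ := hS' s.2
            have hrw : r s = w := by rw [← hw, hr]
            have h2 := congrFun (ha w) i
            simp only [Pi.add_apply, Finset.sum_apply, Pi.smul_apply, smul_eq_mul, Pi.zero_apply]
              at h2
            simp only [Pi.add_apply, Finset.sum_apply, Pi.mul_apply, Pi.zero_apply]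
            rw [hrw, ← hw]
            show (∑ j : Fin N, (a w j.castSucc : ℂ) * (ℓ j i : ℂ)) +
              (a w (Fin.last N) : ℂ) * ((w i : ℚ) : ℂ) = 0
            exact_mod_cast h2
          have h3 := congrArg (cl 𝒰) h1
          rw [map_add, map_sum, map_zero, map_mul] at h3
          refine Eq.trans ?_ h3
          congr 1
        have h4 := congrArg (dd ℂ) hrel
        rw [dd_add, dd_sum, dd_mul] at h4
        have h5 : dd ℂ (0 : UK 𝒰 ℂ) = 0 := by
          funext D
          exact map_zero D
        rw [h5] at h4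
        have h6 : bl (Fin.last N) • dd ℂ (bs 𝒰 i) ∈ W := by
          have h7 : bl (Fin.last N) • dd ℂ (bs 𝒰 i) =
              -(∑ j : Fin N, dd ℂ (bl j.castSucc * algebraMap ℂ (UK 𝒰 ℂ) (ℓ j i : ℂ))) -
                bs 𝒰 i • dd ℂ (bl (Fin.last N)) := by
            rw [eq_sub_iff_add_eq, eq_neg_iff_add_eq_zero, ← h4]
            abel
          rw [h7]
          refine W.sub_mem (W.neg_mem (W.sum_mem fun j _ => ?_)) (W.smul_mem _ (hW _))
          rw [dd_mul, dd_algebraMap, smul_zero, zero_add]
          exact W.smul_mem _ (hW _)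
        have h8 := W.smul_mem (bl (Fin.last N))⁻¹ h6
        rwa [smul_smul, inv_mul_cancel₀ hlast, one_smul] at h8)
    omega)
  refine ⟨φ, fun z hz hz0 => ?_⟩
  by_contra hcon
  push Not at hcon
  exact hφ z hcon hz hz0

end Pool.Agent.Zk44.UP
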