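import Mathlib
import Pool.Agent.Zk44.UP.LogBasis

/-!
# Bases of spaces of logarithms which are good over all exponentials of algebraic numbers
-/

set_option autoImplicit false

namespace Pool.Agent.Zk44.UP

open Module Complex
open Pool.Agent.R351 hiding tay tay_const
open Pool.Agent.H301R2.SSE (QB)
open Pool.Agent.Zk44.GE (ap ExpLike)
open Pool.Agent.Zk44.XO (GoodE goodE_cons)
open Pool.Agent.Zk44.DT (infinite_QB)

/-- good over all exponentials -/
def QE (L g : ℕ) (t : Fin g → ℂ) (z : ℂ) : Prop := ∀ (h : ℕ) (γ : Fin h → QB), Good1 QB (ap γ t) L z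

theorem QE_reindex {g g' L : ℕ} {T : Fin g → ℂ} {T' : Fin g' → ℂ} {y : ℂ} (ρ : Fin g → Fin g')
    (hρ : ∀ o, T o = T' (ρ o)) (h : QE L g' T' y) : QE L g T y := by
  intro k γ
  refine good1_reindex (T' := ap γ T')
    (fun o => Fin.addCases (fun i => Fin.castAdd g' i) (fun o => Fin.natAdd k (ρ o)) o) ?_ (h k γ)
  intro o
  unfold ap
  refine Fin.addCases (fun i => ?_) (fun o => ?_) o
  · rw [Fin.append_left, Fin.addCases_left, Fin.append_left]
  · rw [Fin.append_right, Fin.addCases_right, Fin.append_right, hρ]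

/-- A tower of good numbers has no relation. -/
theorem goodE_of_tower {L : ℕ} : ∀ (n g : ℕ) (t : Fin g → ℂ) (z : ℕ → ℂ),
    TW (QE L) t n z → GoodE L t (fun i : Fin n => z i) := by
  intro n
  induction n with
  | zero =>
    intro g t z _ h γ
    exact goodT_zero _ _
  | succ n ih =>
    intro g t z h
    have h0 : QE L g t (z 0) := by
      refine QE_reindex (fun o => Fin.natAdd 0 o) (fun o => ?_) (h 0 (Nat.succ_pos n))
      rw [Fin.append_right]
    have h1 := ih (g + 1) (Fin.cons (z 0) t) (fun j => z (j + 1)) (by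
      intro j hj
      refine QE_reindex (T' := Fin.append (fun i : Fin (j + 1) => z i) t)
        (fun o => Fin.addCases (fun i => Fin.castAdd g i.succ)
          (fun o => Fin.cases (Fin.castAdd g 0) (fun o => Fin.natAdd (j + 1) o) o) o) ?_
        (h (j + 1) (by omega))
      intro o
      refine Fin.addCases (fun i => ?_) (fun o => ?_) o
      · rw [Fin.append_left, Fin.addCases_left, Fin.append_left]
        rfl
      · rw [Fin.append_right, Fin.addCases_right]
        refine Fin.cases ?_ (fun o => ?_) o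
        · rw [Fin.cons_zero, Fin.cases_zero, Fin.append_left]
          rfl
        · rw [Fin.cons_succ, Fin.cases_succ, Fin.append_right])
    have h2 := goodE_cons h0 h1
    have h3 : (fun i : Fin (n + 1) => z i) =
        (Fin.cons (z 0) (fun i : Fin n => z ((i : ℕ) + 1)) : Fin (n + 1) → ℂ) := by
      funext i
      refine Fin.cases ?_ (fun i => ?_) i
      · rfl
      · rfl
    rw [h3]
    exact h2

section

variable (hder : ∃ Δ : Derivation QB ℂ ℂ, (∀ γ : QB, Δ (cexp γ) = (γ : ℂ) * cexp γ) ∧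
    (∀ z, Δ z = 0 → ∃ a : QB, algebraMap QB ℂ a = z) ∧
    ∀ (n : ℕ) (c y : Fin n → ℂ) (r : ℂ), (∀ j, Δ (c j) = 0) →
      Δ r = ∑ j, c j * (Δ (y j) / y j) → Δ r = 0)

include hder in
/-- **The bad rational combinations of independent numbers.** -/
theorem poly_QE {g L N : ℕ} (t : Fin g → ℂ) (e₀ : ℂ) (x : Fin N → ℂ) (hx : LinearIndependent QB x)
    (hN : L * (L + 3) < N) : ∃ f : MvPolynomial (Fin N) ℂ, f ≠ 0 ∧ ∀ b : Fin N → ℚ,
      e₀ + ∑ i, (b i : ℂ) * x i ≠ 0 → ¬ QE L g t (e₀ + ∑ i, (b i : ℂ) * x i) →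
        MvPolynomial.eval (fun i => (b i : ℂ)) f = 0 := by
  obtain ⟨Δ, hexp, hconst, hP⟩ := hder
  obtain ⟨f, hf0, hf⟩ := poly_exp Δ hP ⟨cexp 1, Complex.exp_ne_zero _, by
      have h1 := hexp 1
      rw [OneMemClass.coe_one, one_mul] at h1
      exact h1⟩ (L := L) t e₀ x
    (by
      intro v hv hsum
      choose a ha using fun i => hconst (v i) (hv i)
      have h1 : ∑ i, a i • x i = 0 := by
        rw [← hsum]
        refine Finset.sum_congr rfl fun i _ => ?_
        rw [Algebra.smul_def, ha]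
      funext i
      rw [← ha, Fintype.linearIndependent_iff.1 hx a h1 i, map_zero]
      rfl)
    {b | (∀ i, Δ (b i) = 0) ∧ e₀ + ∑ i, b i * x i ≠ 0 ∧
      ∃ (hh : ℕ) (u : Fin hh → ℂ), ExpLike Δ u ∧
        ¬ Good1 QB (Fin.append u t) L (e₀ + ∑ i, b i * x i)}
    (fun b hb => hb) hN
  refine ⟨f, hf0, fun b h1 h2 => hf _ ⟨fun i => ?_, h1, ?_⟩⟩
  · have h3 : ((b i : ℚ) : ℂ) = algebraMap QB ℂ (algebraMap ℚ QB (b i)) := by simp
    show Δ ((b i : ℚ) : ℂ) = 0
    rw [h3]
    exact Δ.map_algebraMap _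
  · unfold QE at h2
    push Not at h2
    obtain ⟨h, γ, h2⟩ := h2
    exact ⟨h, fun i => cexp (γ i), fun i => ⟨Complex.exp_ne_zero _, γ i, hexp (γ i)⟩, h2⟩

include hder in
/-- **Bases of spaces of logarithms**: all exponentials. -/
theorem basis_exp {g : ℕ} (L : ℕ) (t : Fin g → ℂ) (V : Submodule ℚ ℂ)
    (hV : ∀ v ∈ V, IsAlgebraic ℚ (cexp v)) (hdim : ((L * (L + 3) + 1 : ℕ) : Cardinal) ≤ Module.rank ℚ V) :
    ∃ (ι : Type) (b : Basis ι ℚ V), ∀ (n : ℕ) (σ : Fin n → ι), Function.Injective σ →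
      GoodE L t (fun i => (b (σ i) : ℂ)) := by
  classical
  have hcount : (V : Set ℂ).Countable := by
    exact countable_log.mono fun v hv => hV v hv
  obtain ⟨x, hx⟩ := exists_linearIndependent_of_le_rank hdim
  obtain ⟨ι, b, r, z, hr, hb, hTW⟩ := exists_tower_basis V (L * (L + 3)) (QE L) (by
      intro g N t e₀ x hxV hx hN
      exact poly_QE hder t e₀ x (Pool.Agent.Zk44.XO.LOG_indep (fun i => hV _ (hxV i)) hx) hN) hcount
    (fun i => (x i : ℂ)) (fun i => (x i).2) (hx.map' V.subtype (Submodule.ker_subtype _)) t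
  refine ⟨ι, b, fun n σ hσ => ?_⟩
  obtain ⟨N, hN, hT⟩ := hTW n σ
  have h1 := goodE_of_tower N g t z hT
  intro h γ
  have h2 := goodT_comp (fun i => ⟨r (σ i), hN i⟩) (fun i j hij => hσ (hr (congrArg Fin.val hij)))
    (h1 h γ)
  simp only [hb]
  exact h2

end

end Pool.Agent.Zk44.UP
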