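import Mathlib
import Pool.Agent.Zk44.UP.ExpBasis
import Pool.Agent.Zk44.XO.Phi1

/-!
# A subspace of bounded codimension without numbers which are related to exponentials
-/

set_option autoImplicit false

namespace Pool.Agent.Zk44.UP

open MvPolynomial Filter Module Complex
open Pool.Agent.R351 hiding tay tay_const
open Pool.Agent.Zk44.XO
open Pool.Agent.H301R2.SSE (QB)
open Pool.Agent.Zk44.GE (ap ExpLike)
open Pool.Agent.Zk44.DT (infinite_QB exists_phi not_finite_QB)

section GenExp

variable {κ C : Type} [Field κ] [Field C] [CharZero C] [Algebra κ C] (Δ : Derivation κ C C)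
  (hP : ∀ (n : ℕ) (c y : Fin n → C) (r : C), (∀ j, Δ (c j) = 0) →
      Δ r = ∑ j, c j * (Δ (y j) / y j) → Δ r = 0)

include hP in
/-- **Numbers of independent parameters of bad combinations**: all exponentials. -/
theorem gen_exp (hone : ∃ u : C, u ≠ 0 ∧ Δ u = u) {M N g L : ℕ} (e₀ : C) (x : Fin N → C)
    (hx : ∀ v : Fin N → C, (∀ i, Δ (v i) = 0) → ∑ i, v i * x i = 0 → v = 0)
    (t : Fin g → C) (S : Set (Fin M → C))
    (hS : ∀ f : MvPolynomial (Fin M) C, f ≠ 0 → ∃ s ∈ S, eval s f ≠ 0)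
    (b : (Fin M → C) → Fin N → C) (hb : ∀ s ∈ S, ∀ i, Δ (b s i) = 0)
    (hbad : ∀ s ∈ S, e₀ + ∑ j, b s j * x j ≠ 0 ∧ ∃ (hh : ℕ) (u : Fin hh → C), ExpLike Δ u ∧
      ¬ Good1 κ (Fin.append u t) L (e₀ + ∑ j, b s j * x j))
    (hw : ∀ S' ⊆ S, ∀ (𝒰 : Ultrafilter S')
      (W : Submodule (UK 𝒰 C) (Derivation C (UK 𝒰 C) (UK 𝒰 C) → UK 𝒰 C)),
      (∀ j, dd C (bb 𝒰 (fun s : S' => b s) j) ∈ W) → ∀ i, dd C (bs 𝒰 i) ∈ W) :
    M ≤ L * (L + 3) := by
  classical
  by_contra hM
  have h1 : ∀ m : ℕ, ∃ f : MvPolynomial (Fin M) C, f ≠ 0 ∧ (m < L → ∀ s ∈ S,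
      (∃ (hh : ℕ) (u : Fin hh → C), ExpLike Δ u ∧
        BadAt κ (Fin.append u t) m (e₀ + ∑ j, b s j * x j)) → eval s f = 0) := by
    intro m
    by_cases hm : m < L
    · by_contra hcon
      push Not at hcon
      set S' := {s | s ∈ S ∧ ∃ (hh : ℕ) (u : Fin hh → C), ExpLike Δ u ∧
        BadAt κ (Fin.append u t) m (e₀ + ∑ j, b s j * x j)} with hS'
      obtain ⟨𝒰, h𝒰⟩ := exists_ultrafilter S' (by
        intro f hf
        obtain ⟨-, s, h1, h2, h4⟩ := hcon f hf
        exact ⟨s, ⟨h1, h2⟩, h4⟩)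
      obtain ⟨F, hF, W, U, hW, hU, hOm⟩ := exists_fam_exp (κ := κ) Δ 𝒰 (t := t) (m := m)
        (fun s : S' => e₀ + ∑ j, b s j * x j) (fun s => (hbad s s.2.1).1) (fun s => s.2.2)
      obtain ⟨ρ, hρ⟩ := core_one Δ hP 𝒰 F (fun l b => by
          rw [hOm]
          refine Submodule.add_mem _ ?_ (Submodule.sum_mem _ fun o _ => Submodule.subset_span
            ⟨_, algebraMap_mem_Th Δ 𝒰 (t o), _, nb_const _ _ (hU l b o), rfl⟩)
          obtain ⟨u, hu0, hu⟩ := hone
          refine Submodule.subset_span ⟨1, ?_, _, nb_const _ _ (hW l b), (one_smul _ _).symm⟩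
          have h2 := algebraMap_mem_Th Δ 𝒰 u
          rw [hu, div_self hu0, map_one] at h2
          exact h2) e₀ x hx (fun s : S' => b s) (fun s => hb s s.2.1) (fun s => congrFun hF s)
      have h2 := hw S' (fun s hs => hs.1) 𝒰 (Submodule.span (UK 𝒰 C) (Set.range ρ)) hρ
      have h3 := le_of_mem 𝒰 h𝒰 ρ h2
      rw [Fintype.card_fin] at h3
      have h4 : (m + 1) * (m + 4) ≤ L * (L + 3) := Nat.mul_le_mul (by omega) (by omega)
      omega
    · exact ⟨1, one_ne_zero, fun h => absurd h hm⟩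
  choose f hf0 hf using h1
  obtain ⟨s, hs, hfs⟩ := hS (∏ m ∈ Finset.range L, f m) (Finset.prod_ne_zero_iff.2 fun m _ => hf0 m)
  apply hfs
  obtain ⟨-, hh, u, hu, hbad0⟩ := hbad s hs
  obtain ⟨m, hm, hbad1⟩ := exists_badAt hbad0
  rw [map_prod]
  exact Finset.prod_eq_zero (Finset.mem_range.2 hm) (hf m hm s hs ⟨hh, u, hu, hbad1⟩)

end GenExp

section

variable (hder : ∃ Δ : Derivation QB ℂ ℂ, (∀ γ : QB, Δ (cexp γ) = (γ : ℂ) * cexp γ) ∧
    (∀ z, Δ z = 0 → ∃ a : QB, algebraMap QB ℂ a = z) ∧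
    ∀ (n : ℕ) (c y : Fin n → ℂ) (r : ℂ), (∀ j, Δ (c j) = 0) →
      Δ r = ∑ j, c j * (Δ (y j) / y j) → Δ r = 0)

include hder in
/-- **A subspace of codimension `L ^ 2 + 3 L + 1` over the algebraic numbers** without nonzero numbers
which are related to the parameters and to exponentials. -/
theorem phi_exp_up {g : ℕ} (L : ℕ) (t : Fin g → ℂ) (m : ℕ) (hm : L * (L + 3) < m) :
    ∃ φ : ℂ →ₗ[QB] (Fin m → QB), ∀ z : ℂ, z ≠ 0 → φ z = 0 → QE L g t z := by
  classical
  obtain ⟨Δ, hexp, hconst, hP⟩ := hder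
  obtain ⟨φ, hφ⟩ := exists_phi not_finite_QB _ (badE_countable L t) m (by
    intro N x hx ℓ
    by_contra hcon
    push Not at hcon
    choose a ha0 haS ha using hcon
    have hQB : ∀ q : QB, Δ (q : ℂ) = 0 := fun q => Δ.map_algebraMap q
    let ι : (Fin m → QB) → (Fin m → ℂ) := fun w j => (w j : ℂ)
    have hι : Function.Injective ι := by
      intro w w' h
      funext j
      exact Subtype.ext (congrFun h j)
    let r : (Fin m → ℂ) → (Fin m → QB) := Function.invFun ι
    have hr : ∀ w, r (ι w) = w := Function.leftInverse_invFun hι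
    have hz : ∀ w, ∑ j, (a w j : ℂ) * x j ≠ 0 := by
      intro w h0
      have h1 : ∑ j, a w j • x j = 0 := by
        rw [← h0]
        refine Finset.sum_congr rfl fun j _ => ?_
        rw [Algebra.smul_def]
        rfl
      exact ha0 w (Fintype.linearIndependent_iff.1 hx (a w) h1 (Fin.last N))
    have hsum : ∀ w, ∑ j, a w j • x j = 0 + ∑ j, (a w j : ℂ) * x j := by
      intro w
      rw [zero_add]
      refine Finset.sum_congr rfl fun j _ => ?_
      rw [Algebra.smul_def]
      rfl
    have hgen := gen_exp Δ hP ⟨cexp 1, Complex.exp_ne_zero _, by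
        have h1 := hexp 1
        rw [OneMemClass.coe_one, one_mul] at h1
        exact h1⟩ (M := m) (N := N + 1) (L := L) (g := g) 0 x
      (by
        intro v hv hsum
        choose c hc using fun i => hconst (v i) (hv i)
        have h1 : ∑ i, c i • x i = 0 := by
          rw [← hsum]
          refine Finset.sum_congr rfl fun i _ => ?_
          rw [Algebra.smul_def, hc]
        funext i
        rw [← hc, Fintype.linearIndependent_iff.1 hx c h1 i, map_zero]
        rfl)
      t (Set.range ι) (by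
        intro f hf
        obtain ⟨w, hw⟩ := exists_rat hf
        refine ⟨ι (fun i => algebraMap ℚ QB (w i)), ⟨_, rfl⟩, ?_⟩
        have h1 : ι (fun i => algebraMap ℚ QB (w i)) = fun i => (w i : ℂ) := by
          funext i
          show ((algebraMap ℚ QB (w i) : QB) : ℂ) = (w i : ℂ)
          simp
        rw [h1]
        exact hw)
      (fun s j => (a (r s) j : ℂ)) (fun s _ j => hQB _)
      (by
        rintro _ ⟨w, rfl⟩
        have h1 := haS w
        rw [hsum] at h1
        rw [hr]
        refine ⟨by rw [zero_add]; exact hz w, ?_⟩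
        have h2 : ¬ ∀ (h : ℕ) (γ : Fin h → QB), Good1 QB (ap γ t) L
            (0 + ∑ j, (a w j : ℂ) * x j) := h1
        push Not at h2
        obtain ⟨h, γ, h2⟩ := h2
        exact ⟨h, fun i => cexp (γ i), fun i => ⟨Complex.exp_ne_zero _, γ i, hexp (γ i)⟩, h2⟩)
      (by
        intro S' hS' 𝒰 W hW i
        set bl := bb 𝒰 (fun s : S' => fun j => (a (r s) j : ℂ)) with hbl
        have hlast : bl (Fin.last N) ≠ 0 := by
          intro h0
          rw [← map_zero (cl 𝒰), cl_eq_iff] at h0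
          obtain ⟨s, hs⟩ := h0.exists
          have hs' : ((a (r s) (Fin.last N) : QB) : ℂ) = 0 := hs
          exact ha0 (r s) (Subtype.ext hs')
        have hrel : ∑ j : Fin N, bl j.castSucc * algebraMap ℂ (UK 𝒰 ℂ) (ℓ j i : ℂ) +
            bl (Fin.last N) * bs 𝒰 i = 0 := by
          have h1 : (∑ j : Fin N, (fun s : S' => (a (r s) j.castSucc : ℂ)) * (fun _ => (ℓ j i : ℂ))) +
              (fun s : S' => (a (r s) (Fin.last N) : ℂ)) * (fun s : S' => (s : Fin m → ℂ) i) = 0 := by
            funext s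
            obtain ⟨w, hw⟩ := hS' s.2
            have hrw : r s = w := by rw [← hw, hr]
            have h2 := congrFun (ha w) i
            simp only [Pi.add_apply, Finset.sum_apply, Pi.smul_apply, smul_eq_mul, Pi.zero_apply]
              at h2
            simp only [Pi.add_apply, Finset.sum_apply, Pi.mul_apply, Pi.zero_apply]
            rw [hrw, ← hw]
            have h3 := congrArg (algebraMap QB ℂ) h2
            rw [map_add, map_sum, map_mul, map_zero] at h3
            simp only [map_mul] at h3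
            exact h3
          have h3 := congrArg (cl 𝒰) h1
          rw [map_add, map_sum, map_zero, map_mul] at h3
          refine Eq.trans ?_ h3
          congr 1
        have h4 := congrArg (dd ℂ) hrel
        rw [dd_add, dd_sum, dd_mul] at h4
        have h5 : dd ℂ (0 : UK 𝒰 ℂ) = 0 := by
          funext D
          exact map_zero D
        rw [h5] at h4
        have h6 : bl (Fin.last N) • dd ℂ (bs 𝒰 i) ∈ W := by
          have h7 : bl (Fin.last N) • dd ℂ (bs 𝒰 i) =
              -(∑ j : Fin N, dd ℂ (bl j.castSucc * algebraMap ℂ (UK 𝒰 ℂ) (ℓ j i : ℂ))) -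
                bs 𝒰 i • dd ℂ (bl (Fin.last N)) := by
            rw [eq_sub_iff_add_eq, eq_neg_iff_add_eq_zero, ← h4]
            abel
          rw [h7]
          refine W.sub_mem (W.neg_mem (W.sum_mem fun j _ => ?_)) (W.smul_mem _ (hW _))
          rw [dd_mul, dd_algebraMap, smul_zero, zero_add]
          exact W.smul_mem _ (hW _)
        have h8 := W.smul_mem (bl (Fin.last N))⁻¹ h6
        rwa [smul_smul, inv_mul_cancel₀ hlast, one_smul] at h8)
    omega)
  refine ⟨φ, fun z hz hz0 => ?_⟩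
  by_contra hcon
  exact hφ z hcon hz hz0

end

end Pool.Agent.Zk44.UP
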